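import Mathlib
import Pool.Agent.MP_c1dca2_ag.SC2.A7
import Pool.Agent.MP_c1dca2_ag.SC2.AB
import Pool.Agent.MP_c1dca2_ag.SC2.B1
import Pool.Agent.MP_c1dca2_ag.SEC.Defs

/-!
# [GE] partial sections over extensions, local situations, for almost all places

The files of this folder are versions of those of the folder `GT` (same namespace) in which sections
over all finite extensions `k'` of `k` are treated at once.

`k` is a field of characteristic `0`, `K` a field over `k` (the function field of `Y`), `Ω = Om K`,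
`C = kb k K`, `k'` a field between `k` and `C`. A section of `π₁(X) → Gal(C / k')` for any `X` over
`k'` with a nonconstant map to `Y` gives a partial section `PS k K k'`: a field `M` between `K C` and
`Ω` (the elements of `Ω` which are unramified over `X`) with an action of `Gal(C / k')`.
-/

set_option autoImplicit false

open IsLocalRing

namespace GT

export SEC (Om kb IsPlace IsInert Mnr Sect RatPlace SectionConjecture)
export SC2 (Above Iner Frob Wild)

/-- A partial section over `k'`. -/
structure PS (k K : Type) [Field k] [Field K] [Algebra k K] (k' : IntermediateField k (kb k K)) where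
  /-- the field of the unramified elements -/
  M : IntermediateField K (Om K)
  hC : ∀ z : kb k K, (z : Om K) ∈ M
  /-- the action -/
  toHom : (kb k K ≃ₐ[k'] kb k K) →* (M ≃ₐ[K] M)
  split : ∀ (σ : kb k K ≃ₐ[k'] kb k K) (a : kb k K),
    ((toHom σ ⟨(a : Om K), hC a⟩ : M) : Om K) = (σ a : Om K)
  cont : ∀ z : M, ∃ E : IntermediateField k' (kb k K), FiniteDimensional k' E ∧
    ∀ σ ∈ E.fixingSubgroup, toHom σ z = z
  root : ∀ (z : M) (N : ℕ), 0 < N → ∀ ρ : Om K, ρ ^ N = z →
    (∀ B, IsPlace k K B → ∃ y : M, B.valuation (z : Om K) = B.valuation (y : Om K) ^ N) → ρ ∈ M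

section

variable {k K : Type} [Field k] [Field K] [Algebra k K] {k' : IntermediateField k (kb k K)}

/-- The constants in `M`. -/
def PS.iota (p : PS k K k') : kb k K →+* p.M where
  toFun := fun a => ⟨(a : Om K), p.hC a⟩
  map_one' := rfl
  map_mul' := fun _ _ => rfl
  map_zero' := rfl
  map_add' := fun _ _ => rfl

theorem PS.iota_coe (p : PS k K k') (a : kb k K) : ((p.iota a : p.M) : Om K) = (a : Om K) := rfl

theorem PS.toHom_iota (p : PS k K k') (σ : kb k K ≃ₐ[k'] kb k K) (a : kb k K) :
    p.toHom σ (p.iota a) = p.iota (σ a) := Subtype.ext (p.split σ a)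

theorem PS.toHom_mul (p : PS k K k') (σ τ : kb k K ≃ₐ[k'] kb k K) (z : p.M) :
    p.toHom (σ * τ) z = p.toHom σ (p.toHom τ z) := by
  rw [map_mul]
  rfl

theorem kb'_isGalois [CharZero k] : IsGalois k' (kb k K) := by
  have h : IsGalois k (kb k K) := SC2.kb_isGalois
  exact IsGalois.tower_top_intermediateField k'

theorem kb'_isAlgebraic : Algebra.IsAlgebraic k' (kb k K) := by
  have h : Algebra.IsAlgebraic k (kb k K) := algebraicClosure.isAlgebraic k (Om K)
  exact Algebra.IsAlgebraic.tower_top (K := k) k'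

theorem exists_tower' {ℓ : ℕ} (hℓ : 0 < ℓ) (a : k') :
    ∃ π : ℕ → kb k K, π 0 = algebraMap k' (kb k K) a ∧ ∀ m, π (m + 1) ^ ℓ = π m := by
  have : IsAlgClosed (kb k K) := SC2.kb_isAlgClosed
  have h : ∀ x : kb k K, ∃ y : kb k K, y ^ ℓ = x := fun x =>
    IsAlgClosed.exists_pow_nat_eq x hℓ
  choose r hr using h
  exact ⟨fun n => Nat.rec (algebraMap k' (kb k K) a) (fun _ x => r x) n, rfl, fun m => hr _⟩

/-- The element `z` of `Ω` is in `M` and fixed by `σ`. -/
def PS.Fix (p : PS k K k') (σ : kb k K ≃ₐ[k'] kb k K) (z : Om K) : Prop :=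
  ∃ h : z ∈ p.M, p.toHom σ ⟨z, h⟩ = ⟨z, h⟩

end

/-- A local situation: a discrete valuation ring `A` of a field `k'` between `k` and its algebraic
closure, with finite residue field, a valuation ring `V` above `A`, a partial section over `k'`. -/
structure Loc (k K : Type) [Field k] [Field K] [Algebra k K] (ℓ : ℕ) where
  /-- the extension of `k` -/
  k' : IntermediateField k (kb k K)
  /-- the place of `k'` -/
  A : ValuationSubring k'
  dvr : IsDiscreteValuationRing A
  fin : Finite (ResidueField A)
  /-- the place above it -/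
  V : ValuationSubring (kb k K)
  above : Above A V
  hℓ : V.valuation ((ℓ : ℕ) : kb k K) = 1
  /-- the partial section -/
  p : PS k K k'

variable {k K : Type} [Field k] [Field K] [Algebra k K] {ℓ : ℕ}

/-- The elements of `S` are in `V` and fixed by the inertia group of `V`. -/
def SG (k' : IntermediateField k (kb k K)) (S : Finset (kb k K)) (V : ValuationSubring (kb k K)) :
    Prop :=
  ∀ c ∈ S, c ∈ V ∧ ∀ σ : kb k K ≃ₐ[k'] kb k K, Iner V σ → σ c = c

/-- For almost all places, uniformly in `k'`. -/
def AA (P : Loc k K ℓ → Prop) : Prop :=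
  ∃ S : Finset (kb k K), ∀ x : Loc k K ℓ, SG x.k' S x.V → P x

theorem SG.mono {k' : IntermediateField k (kb k K)} {S S' : Finset (kb k K)} (h : S ⊆ S')
    {V : ValuationSubring (kb k K)} (hV : SG k' S' V) : SG k' S V := fun c hc => hV c (h hc)

theorem AA.of {P : Loc k K ℓ → Prop} (h : ∀ x, P x) : AA P := ⟨∅, fun x _ => h x⟩

theorem AA.and {P Q : Loc k K ℓ → Prop} (hP : AA P) (hQ : AA Q) : AA (fun x => P x ∧ Q x) := by
  classical
  obtain ⟨S, hS⟩ := hP
  obtain ⟨S', hS'⟩ := hQ
  exact ⟨S ∪ S', fun x hx => ⟨hS x (hx.mono Finset.subset_union_left),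
    hS' x (hx.mono Finset.subset_union_right)⟩⟩

theorem AA.mono {P Q : Loc k K ℓ → Prop} (hP : AA P) (h : ∀ x, P x → Q x) : AA Q := by
  obtain ⟨S, hS⟩ := hP
  exact ⟨S, fun x hx => h x (hS x hx)⟩

theorem AA.finset {α : Type} (s : Finset α) {P : α → Loc k K ℓ → Prop} (h : ∀ a ∈ s, AA (P a)) :
    AA (fun x => ∀ a ∈ s, P a x) := by
  classical
  induction s using Finset.induction_on with
  | empty => exact AA.of fun x a ha => absurd ha (Finset.notMem_empty a)
  | insert a s ha ih =>
    refine ((h a (Finset.mem_insert_self a s)).and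
      (ih fun b hb => h b (Finset.mem_insert_of_mem hb))).mono fun x hx b hb => ?_
    rcases Finset.mem_insert.1 hb with rfl | hb
    · exact hx.1
    · exact hx.2 b hb

theorem AA.all {α : Type} [Finite α] {P : α → Loc k K ℓ → Prop} (h : ∀ a, AA (P a)) :
    AA (fun x => ∀ a, P a x) := by
  have := Fintype.ofFinite α
  exact (AA.finset Finset.univ fun a _ => h a).mono fun x hx a => hx a (Finset.mem_univ a)

theorem AA.set {α : Type} {s : Set α} (hs : s.Finite) {P : α → Loc k K ℓ → Prop}
    (h : ∀ a ∈ s, AA (P a)) : AA (fun x => ∀ a ∈ s, P a x) :=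
  (AA.finset hs.toFinset fun a ha => h a (hs.mem_toFinset.1 ha)).mono
    fun x hx a ha => hx a (hs.mem_toFinset.2 ha)

/-- A constant is integral and fixed by inertia at almost all places. -/
theorem AA.const (c : kb k K) :
    AA (fun x : Loc k K ℓ => c ∈ x.V ∧ ∀ σ : kb k K ≃ₐ[x.k'] kb k K, Iner x.V σ → σ c = c) :=
  ⟨{c}, fun x hx => hx c (Finset.mem_singleton_self c)⟩

theorem AA.unit {c : kb k K} (hc : c ≠ 0) :
    AA (fun x : Loc k K ℓ => x.V.valuation c = 1) := by
  refine ((AA.const c).and (AA.const c⁻¹)).mono fun x hx => le_antisymm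
    ((x.V.valuation_le_one_iff c).2 hx.1.1) ?_
  have h1 := (x.V.valuation_le_one_iff c⁻¹).2 hx.2.1
  rw [map_inv₀] at h1
  exact (inv_le_one₀ (zero_lt_iff.2 (by simpa using hc))).1 h1

end GT
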