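import Mathlib
import Pool.Agent.MP_c1dca2_ag.GT.Base
import Pool.Agent.MP_c1dca2_ag.GT.P0
import Pool.Agent.MP_c1dca2_ag.GT.P4c
import Pool.Agent.MP_c1dca2_ag.GE.Q0
import Pool.Agent.MP_c1dca2_ag.SC2.AB
import Pool.Agent.MP_c1dca2_ag.SEC.Defs
import Pool.Agent.MP_c1dca2_ag.SEC.S
import Pool.Agent.MP_c1dca2_ag.SUP.Defs

/-!
# [GT-H0] definitions for the assembly
-/

set_option autoImplicit false
set_option linter.unusedVariables false

open IsLocalRing

namespace GT

section orders

variable {C N : Type} [Field C] [Field N] [Algebra C N]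

open Classical in
/-- A chosen order function. -/
noncomputable def od (C : Type) {N : Type} [Field C] [Field N] [Algebra C N]
    (O : ValuationSubring N) : N → ℤ :=
  if h : ∃ o, IsOrd C O o then h.choose else fun _ => 0

theorem od_spec [CharZero C] [IsAlgClosed C] (hF : FF C N) {O : ValuationSubring N} (hO : IsPl C O) :
    IsOrd C O (od C O) := by
  have h : ∃ o, IsOrd C O o := exists_ord hF hO
  rw [od, dif_pos h]
  exact h.choose_spec

/-- The image of the place `P` under the automorphism `e`. -/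
def mv (e : N ≃+* N) (P : ValuationSubring N) : ValuationSubring N := P.comap (e.symm : N →+* N)

theorem mem_mv {e : N ≃+* N} {P : ValuationSubring N} {z : N} : z ∈ mv e P ↔ e.symm z ∈ P := Iff.rfl

theorem mv_inj {e : N ≃+* N} {P P' : ValuationSubring N} (h : mv e P = mv e P') : P = P' := by
  ext z
  have h1 : e z ∈ mv e P ↔ e z ∈ mv e P' := by rw [h]
  rwa [mem_mv, mem_mv, RingEquiv.symm_apply_apply] at h1

end orders

variable {k K : Type} [Field k] [Field K] [Algebra k K] {k' : IntermediateField k (kb k K)}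

/-- The field `C K`. -/
noncomputable def LL (k K : Type) [Field k] [Field K] [Algebra k K] :
    IntermediateField (kb k K) (Om K) :=
  IntermediateField.adjoin (kb k K) (Set.range (algebraMap K (Om K)))

/-- The restriction of an automorphism to a stable subfield. -/
noncomputable def res {F : IntermediateField (kb k K) (Om K)}
    (hst : ∀ (σ : Om K ≃ₐ[K] Om K), ∀ z ∈ F, σ z ∈ F) (σ : Om K ≃ₐ[K] Om K) : F ≃+* F where
  toFun z := ⟨σ z, hst σ z z.2⟩
  invFun z := ⟨σ.symm z, hst σ.symm z z.2⟩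
  left_inv z := Subtype.ext (σ.symm_apply_apply _)
  right_inv z := Subtype.ext (σ.apply_symm_apply _)
  map_mul' a b := Subtype.ext (map_mul σ _ _)
  map_add' a b := Subtype.ext (map_add σ _ _)

theorem res_coe {F : IntermediateField (kb k K) (Om K)}
    (hst : ∀ (σ : Om K ≃ₐ[K] Om K), ∀ z ∈ F, σ z ∈ F) (σ : Om K ≃ₐ[K] Om K) (z : F) :
    ((res hst σ z : F) : Om K) = σ (z : Om K) := rfl

theorem res_symm_coe {F : IntermediateField (kb k K) (Om K)}
    (hst : ∀ (σ : Om K ≃ₐ[K] Om K), ∀ z ∈ F, σ z ∈ F) (σ : Om K ≃ₐ[K] Om K) (z : F) :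
    (((res hst σ).symm z : F) : Om K) = σ.symm (z : Om K) := rfl

/-- The fields `F` between `C K` and `Ω` used in the argument: function fields, stable under the
`K`-automorphisms, contained in `M` for all partial sections, with trivial action of the inertia
groups at almost all places (for every single element). -/
structure Fd (ℓ : ℕ) (F : IntermediateField (kb k K) (Om K)) : Prop where
  ff : FF (kb k K) F
  base : ∀ z : K, algebraMap K (Om K) z ∈ F
  stab : ∀ (σ : Om K ≃ₐ[K] Om K), ∀ z ∈ F, σ z ∈ F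
  le : ∀ (k' : IntermediateField k (kb k K)) (p : PS k K k'), ∀ z ∈ F, z ∈ p.M
  fix : ∀ z ∈ F, AA (fun x : Loc k K ℓ => ∀ τ, Iner x.V τ → x.p.Fix τ z)

/-- The element `h` of `K` as an element of `F`. -/
noncomputable def Fd.emb {ℓ : ℕ} {F : IntermediateField (kb k K) (Om K)} (hF : Fd ℓ F) (h : K) : F :=
  ⟨algebraMap K (Om K) h, hF.base h⟩

/-- The data of the twist: `y₁ ^ ℓ = c h`, `y₁` is fixed by the section, `v(c)` is prime to `ℓ`. -/
structure Tw {ℓ : ℕ} (x : Loc k K ℓ) (h : K) (c : k) (y₁ : Om K) : Prop where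
  val : ∀ b : x.k', x.A.valuation (algebraMap k x.k' c) ≠ x.A.valuation b ^ ℓ
  pow : y₁ ^ ℓ = algebraMap K (Om K) (algebraMap k K c * h)
  fix : ∀ σ, x.p.Fix σ y₁

/-- `ρ ^ ℓ = t` and `τ ρ = ζ ^ w ρ`. -/
def Wt {ℓ : ℕ} (x : Loc k K ℓ) (τ : kb k K ≃ₐ[x.k'] kb k K) (ζ : kb k K) (t : Om K) (w : ZMod ℓ) :
    Prop :=
  ∃ ρ : x.p.M, (ρ : Om K) ^ ℓ = t ∧ x.p.toHom τ ρ = x.p.iota (ζ ^ w.val) * ρ

end GT
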