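import Mathlib
import Pool.Agent.MP_c1dca2_ag.GT.A10
import Pool.Agent.MP_c1dca2_ag.GT.Base
import Pool.Agent.MP_c1dca2_ag.GT.Defs
import Pool.Agent.MP_c1dca2_ag.GE.H0
import Pool.Agent.MP_c1dca2_ag.GE.H1a
import Pool.Agent.MP_c1dca2_ag.GT.K0
import Pool.Agent.MP_c1dca2_ag.GT.Kv
import Pool.Agent.MP_c1dca2_ag.GT.L1
import Pool.Agent.MP_c1dca2_ag.GT.N3b
import Pool.Agent.MP_c1dca2_ag.GT.N3c
import Pool.Agent.MP_c1dca2_ag.GT.P0
import Pool.Agent.MP_c1dca2_ag.GT.P5a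
import Pool.Agent.MP_c1dca2_ag.GT.P8a
import Pool.Agent.MP_c1dca2_ag.GT.P8d
import Pool.Agent.MP_c1dca2_ag.SUP.Defs
import Pool.Agent.MP_c1dca2_ag.SUP.L1

set_option autoImplicit false
set_option linter.unusedVariables false

open IsLocalRing

namespace GT

/-! ## [GT-H1b] orders of functions -/

variable {C N N' : Type} [Field C] [Field N] [Algebra C N] [Field N'] [Algebra C N']

/-- Proof. `P ∈ OM` iff `P` is a place and `od C P h` is not divisible by `ℓ` (`ord_zero_iff` of Kv with `od_spec`; `ZMod.intCast_zmod_eq_zero_iff_dvd`). -/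
theorem mem_OM_iff [CharZero C] [IsAlgClosed C] (hF : FF C N) {ℓ : ℕ} [Fact ℓ.Prime] {h : N}
    (hh : h ≠ 0) (P : ValuationSubring N) : P ∈ OM C ℓ h ↔ IsPl C P ∧ ¬ (ℓ : ℤ) ∣ od C P h := by
  constructor
  · rintro ⟨h1, h2⟩
    refine ⟨h1, fun h3 => ?_⟩
    obtain ⟨w, hw⟩ := (ord_zero_iff (od_spec hF h1) ℓ h hh).1
      ((ZMod.intCast_zmod_eq_zero_iff_dvd _ _).2 h3)
    exact h2 w hw
  · rintro ⟨h1, h2⟩
    refine ⟨h1, fun w hw => h2 ?_⟩
    exact (ZMod.intCast_zmod_eq_zero_iff_dvd _ _).1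
      ((ord_zero_iff (od_spec hF h1) ℓ h hh).2 ⟨w, hw⟩)

/-- Proof. `mem_OM_iff`, `finite_ord` (an order not divisible by `ℓ` is not `0`). -/
theorem OM_finite [CharZero C] [IsAlgClosed C] (hF : FF C N) {ℓ : ℕ} [Fact ℓ.Prime] {h : N}
    (hh : h ≠ 0) : (OM C ℓ h).Finite := by
  refine (finite_ord hF hh).subset fun P hP => ?_
  obtain ⟨h1, h2⟩ := (mem_OM_iff hF hh P).1 hP
  refine ⟨h1, fun h3 => h2 ?_⟩
  rw [h3]
  exact dvd_zero _

/-- If all orders of `t` except at most one are divisible by `ℓ`, then all are.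

Proof. Let `P` be the exceptional place. `exists_model` for `O₁ = P`: `d`, `T`, `E`, `h`. `exists_root_fun` (N3b) gives `a`, `b`, `J` with `t * E b ^ ℓ = E a`, `J ^ ℓ = (a)`. `pord a = len (a) = ℓ * len J` (`len_span` of A10, `len_pow` of L1, `J ≠ ⊥` as `a ≠ 0`), and
`od C P t = od (E a) - ℓ od (E b) = - pord a - ℓ od (E b)` (`h.ordo`, `IsOrd.mul`, `ord_pow`) is divisible by `ℓ`. -/
theorem ord_dvd_all [CharZero C] [IsAlgClosed C] (hF : FF C N) {ℓ : ℕ} (hℓ : 0 < ℓ) {t : N}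
    (ht : t ≠ 0) (P : ValuationSubring N)
    (hd : ∀ O : ValuationSubring N, IsPl C O → O ≠ P → (ℓ : ℤ) ∣ od C O t) :
    ∀ O : ValuationSubring N, IsPl C O → (ℓ : ℤ) ∣ od C O t := by
  intro O hO
  by_cases hOP : O = P
  · subst hOP
    obtain ⟨d, hd', T, E, h⟩ := exists_model hF hO
    have := h.ded
    have hE : ∀ z : WB T, z ≠ 0 → E z ≠ 0 := fun z hz hz' => hz (h.inj (by rw [hz', map_zero]))
    obtain ⟨a, b, J, ha, hb, hab, hJ⟩ := exists_root_fun hF hO h hℓ ht (by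
      intro O' o' hO' hne ho'
      rw [ord_unique ho' (od_spec hF hO') ht]
      exact hd O' hO' hne)
    have ho := od_spec hF hO
    have hJ0 : J ≠ ⊥ := by
      rintro rfl
      have h1 : (⊥ : Ideal (WB T)) ^ ℓ = ⊥ := by
        have := zero_pow (M₀ := Ideal (WB T)) hℓ.ne'
        exact this
      rw [h1] at hJ
      exact ha (Ideal.span_singleton_eq_bot.1 hJ.symm)
    have h1 : (pord a : ℤ) = ℓ * (len J : ℤ) := by
      rw [← len_span ha, ← hJ, len_pow hJ0]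
      push_cast
      ring
    have h2 := h.ordo _ ho a ha
    have h3 := ho.mul t (E b ^ ℓ) ht (pow_ne_zero _ (hE b hb))
    rw [hab, h2, ord_pow ho (hE b hb), h1] at h3
    refine ⟨-(len J : ℤ) - od C O (E b), ?_⟩
    linarith
  · exact hd O hO hOP

/-- Proof. `exists_t` (N3c) for `O₁ = Q`, `O₂ = P`, translated with `od_spec` and `ZMod.intCast_zmod_eq_zero_iff_dvd` (`ℓ ∣ o t - 1` gives `((o t : ℤ) : ZMod ℓ) = 1`). -/
theorem exists_t' [CharZero C] [IsAlgClosed C] (hF : FF C N) {ℓ : ℕ} (hℓ : 0 < ℓ)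
    {P Q : ValuationSubring N} (hP : IsPl C P) (hQ : IsPl C Q) (hne : P ≠ Q) :
    ∃ t : N, t ≠ 0 ∧ ((od C P t : ℤ) : ZMod ℓ) = 1 ∧ ((od C Q t : ℤ) : ZMod ℓ) = -1 ∧
      ∀ O : ValuationSubring N, IsPl C O → O ≠ P → O ≠ Q → ((od C O t : ℤ) : ZMod ℓ) = 0 := by
  obtain ⟨t, ht, h1, h2, h3⟩ := exists_t hF hQ hP hne hℓ
  have : NeZero ℓ := ⟨hℓ.ne'⟩
  refine ⟨t, ht, ?_, ?_, ?_⟩
  · have h4 := (ZMod.intCast_zmod_eq_zero_iff_dvd _ _).2 (h1 _ (od_spec hF hP))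
    push_cast at h4
    exact sub_eq_zero.1 h4
  · have h4 := (ZMod.intCast_zmod_eq_zero_iff_dvd _ _).2 (h2 _ (od_spec hF hQ))
    push_cast at h4
    exact eq_neg_of_add_eq_zero_left h4
  · intro O hO hOP hOQ
    exact (ZMod.intCast_zmod_eq_zero_iff_dvd _ _).2 (h3 O _ hO hOQ hOP (od_spec hF hO))

end GT
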