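import Mathlib
import Pool.Agent.MP_c1dca2_ag.GT.Base
import Pool.Agent.MP_c1dca2_ag.GE.H0
import Pool.Agent.MP_c1dca2_ag.GE.Q0
import Pool.Agent.MP_c1dca2_ag.SC2.AB
import Pool.Agent.MP_c1dca2_ag.SEC.Defs
import Pool.Agent.MP_c1dca2_ag.SEC.S
import Pool.Agent.MP_c1dca2_ag.SUP.Defs

set_option autoImplicit false
set_option linter.unusedVariables false

open IsLocalRing

namespace GT

/-! ## [GT-H2c] function fields inside `Ω` -/

section

variable {C Ω : Type} [Field C] [Field Ω] [Algebra C Ω] [CharZero C]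

end

variable {k K : Type} [Field k] [Field K] [Algebra k K] {k' : IntermediateField k (kb k K)}

/-- Proof. `IntermediateField.subset_adjoin`. -/
theorem LL_base (z : K) : algebraMap K (Om K) z ∈ LL k K := by
  exact IntermediateField.subset_adjoin _ _ ⟨z, rfl⟩

/-- Proof. `IntermediateField.adjoin_induction`; constants: `p.hC`, elements of `K`: `p.M` contains `K`. -/
theorem LL_le (p : PS k K k') : ∀ z ∈ LL k K, z ∈ p.M := by
  intro z hz
  unfold LL at hz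
  induction hz using IntermediateField.adjoin_induction with
  | mem x hx =>
    obtain ⟨y, rfl⟩ := hx
    exact p.M.algebraMap_mem y
  | algebraMap x => exact p.hC x
  | add x y _ _ h1 h2 => exact add_mem h1 h2
  | inv x _ h => exact inv_mem h
  | mul x y _ _ h1 h2 => exact mul_mem h1 h2

/-- Proof. `IntermediateField.adjoin_induction`; `σ` maps `kb k K` to itself (elements algebraic over `k`, `σ` fixes `k`: `mem_algebraicClosure_iff`, `IsAlgebraic.algHom`-type lemma) and fixes `K`. -/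
theorem LL_stab (σ : Om K ≃ₐ[K] Om K) : ∀ z ∈ LL k K, σ z ∈ LL k K := by
  intro z hz
  unfold LL at hz
  induction hz using IntermediateField.adjoin_induction with
  | mem x hx =>
    obtain ⟨y, rfl⟩ := hx
    rw [AlgEquiv.commutes]
    exact LL_base y
  | algebraMap x =>
    have h1 : IsAlgebraic k (x : Om K) := mem_algebraicClosure_iff.1 x.2
    have h2 : IsAlgebraic k (σ (x : Om K)) := by
      exact h1.algHom (σ.restrictScalars k : Om K →ₐ[k] Om K)
    have h3 : σ (x : Om K) ∈ kb k K := mem_algebraicClosure_iff.2 h2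
    exact (LL k K).algebraMap_mem ⟨σ (x : Om K), h3⟩
  | add x y _ _ h1 h2 =>
    rw [map_add]
    exact add_mem h1 h2
  | inv x _ h =>
    rw [map_inv₀]
    exact inv_mem h
  | mul x y _ _ h1 h2 =>
    rw [map_mul]
    exact mul_mem h1 h2

theorem PS.Fix.add {p : PS k K k'} {σ : kb k K ≃ₐ[k'] kb k K} {a b : Om K} (ha : p.Fix σ a)
    (hb : p.Fix σ b) : p.Fix σ (a + b) := by
  obtain ⟨h1, h2⟩ := ha
  obtain ⟨h3, h4⟩ := hb
  refine ⟨add_mem h1 h3, ?_⟩
  have h5 : (⟨a + b, add_mem h1 h3⟩ : p.M) = ⟨a, h1⟩ + ⟨b, h3⟩ := rfl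
  rw [h5, map_add, h2, h4]

theorem PS.Fix.mul {p : PS k K k'} {σ : kb k K ≃ₐ[k'] kb k K} {a b : Om K} (ha : p.Fix σ a)
    (hb : p.Fix σ b) : p.Fix σ (a * b) := by
  obtain ⟨h1, h2⟩ := ha
  obtain ⟨h3, h4⟩ := hb
  refine ⟨mul_mem h1 h3, ?_⟩
  have h5 : (⟨a * b, mul_mem h1 h3⟩ : p.M) = ⟨a, h1⟩ * ⟨b, h3⟩ := rfl
  rw [h5, map_mul, h2, h4]

theorem PS.Fix.inv {p : PS k K k'} {σ : kb k K ≃ₐ[k'] kb k K} {a : Om K} (ha : p.Fix σ a) :
    p.Fix σ a⁻¹ := by
  obtain ⟨h1, h2⟩ := ha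
  refine ⟨inv_mem h1, ?_⟩
  have h5 : (⟨a⁻¹, inv_mem h1⟩ : p.M) = (⟨a, h1⟩ : p.M)⁻¹ := rfl
  rw [h5, map_inv₀, h2]

theorem PS.Fix.pow {p : PS k K k'} {σ : kb k K ≃ₐ[k'] kb k K} {a : Om K} (ha : p.Fix σ a) (n : ℕ) :
    p.Fix σ (a ^ n) := by
  obtain ⟨h1, h2⟩ := ha
  refine ⟨pow_mem h1 n, ?_⟩
  have h5 : (⟨a ^ n, pow_mem h1 n⟩ : p.M) = (⟨a, h1⟩ : p.M) ^ n := rfl
  rw [h5, map_pow, h2]

/-- Elements of `K` are fixed. -/
theorem PS.fix_alg (p : PS k K k') (σ : kb k K ≃ₐ[k'] kb k K) (z : K) :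
    p.Fix σ (algebraMap K (Om K) z) := by
  refine ⟨p.M.algebraMap_mem z, ?_⟩
  have h5 : (⟨algebraMap K (Om K) z, p.M.algebraMap_mem z⟩ : p.M) = algebraMap K p.M z := rfl
  rw [h5, AlgEquiv.commutes]

theorem PS.fix_const (p : PS k K k') {σ : kb k K ≃ₐ[k'] kb k K} {a : kb k K} (h : σ a = a) :
    p.Fix σ (a : Om K) := by
  refine ⟨p.hC a, Subtype.ext ?_⟩
  rw [p.split, h]

/-- The elements of a field generated by `X` are fixed at almost all places if `X` is.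

Proof. `IntermediateField.adjoin_induction` for the property `AA (fun x => ∀ τ, Iner x.V τ → Q x τ → x.p.Fix τ z)`: constants `AA.const`, `PS.fix_const`; elements of `X`: `hX`; sums, products, inverses: `AA.and`, `AA.mono`, `PS.Fix.add`, ... -/
theorem fix_adjoin {ℓ : ℕ} (Q : (x : Loc k K ℓ) → (kb k K ≃ₐ[x.k'] kb k K) → Prop) (X : Set (Om K))
    (hX : ∀ z ∈ X, AA (fun x : Loc k K ℓ => ∀ τ, Iner x.V τ → Q x τ → x.p.Fix τ z)) :
    ∀ z ∈ IntermediateField.adjoin (kb k K) X,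
      AA (fun x : Loc k K ℓ => ∀ τ, Iner x.V τ → Q x τ → x.p.Fix τ z) := by
  intro z hz
  induction hz using IntermediateField.adjoin_induction with
  | mem x hx => exact hX x hx
  | algebraMap c =>
    exact (AA.const c).mono fun x hx τ hτ _ => x.p.fix_const (hx.2 τ hτ)
  | add a b _ _ h1 h2 =>
    exact (h1.and h2).mono fun x hx τ hτ hq => (hx.1 τ hτ hq).add (hx.2 τ hτ hq)
  | inv a _ h => exact h.mono fun x hx τ hτ hq => (hx τ hτ hq).inv
  | mul a b _ _ h1 h2 =>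
    exact (h1.and h2).mono fun x hx τ hτ hq => (hx.1 τ hτ hq).mul (hx.2 τ hτ hq)

end GT
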