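import Mathlib
import Pool.Agent.MP_c1dca2_ag.GT.Base
import Pool.Agent.MP_c1dca2_ag.GE.H0
import Pool.Agent.MP_c1dca2_ag.GE.H2b
import Pool.Agent.MP_c1dca2_ag.GE.H2c
import Pool.Agent.MP_c1dca2_ag.GE.Q0
import Pool.Agent.MP_c1dca2_ag.SC2.AB
import Pool.Agent.MP_c1dca2_ag.SEC.Defs
import Pool.Agent.MP_c1dca2_ag.SUP.Defs

set_option autoImplicit false
set_option linter.unusedVariables false

open IsLocalRing

namespace GT

/-! ## [GT-H2e] function fields inside `Ω` -/

section

variable {C Ω : Type} [Field C] [Field Ω] [Algebra C Ω] [CharZero C]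

end

variable {k K : Type} [Field k] [Field K] [Algebra k K]

theorem fd_LL [CharZero k] (ℓ : ℕ) {x : K} (hx : Transcendental k x)
    (hfin : FiniteDimensional (IntermediateField.adjoin k {x}) K) : Fd ℓ (LL k K) where
  ff := ff_LL hx hfin
  base := LL_base
  stab := LL_stab
  le := fun _ => LL_le
  fix z hz := (fix_adjoin (fun _ _ => True) _ (by
      rintro _ ⟨a, rfl⟩
      exact AA.of fun x τ _ _ => x.p.fix_alg τ a) z hz).mono fun x h τ hτ => h τ hτ trivial

end GT
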