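import Mathlib
import Pool.Agent.MP_c1dca2_ag.GE.H0
import Pool.Agent.MP_c1dca2_ag.GT.K0
import Pool.Agent.MP_c1dca2_ag.GT.P0
import Pool.Agent.MP_c1dca2_ag.GE.Q0
import Pool.Agent.MP_c1dca2_ag.SEC.Defs
import Pool.Agent.MP_c1dca2_ag.SEC.S

set_option autoImplicit false
set_option linter.unusedVariables false

open IsLocalRing

namespace GT

/-! ## [GT-H6d] functions with poles and zeros on `OM`; the weights -/

variable {k K : Type} [Field k] [Field K] [Algebra k K] {ℓ : ℕ} [hℓ : Fact ℓ.Prime]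
  {F : IntermediateField (kb k K) (Om K)}

/-- The ramification points of `F`. -/
abbrev OMF (hF : Fd ℓ F) (h : K) : Set (ValuationSubring F) := OM (kb k K) ℓ (hF.emb h)

/-- The order modulo `ℓ`. -/
noncomputable def om (ℓ : ℕ) (P : ValuationSubring F) (t : F) : ZMod ℓ := ((od (kb k K) P t : ℤ) : ZMod ℓ)

theorem om_eq_zero (P : ValuationSubring F) (t : F) :
    om ℓ P t = 0 ↔ (ℓ : ℤ) ∣ od (kb k K) P t := by
  rw [om, ZMod.intCast_zmod_eq_zero_iff_dvd]

open Classical in
/-- `1` if `P = Q`, `0` otherwise. -/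
noncomputable def dl (ℓ : ℕ) (P Q : ValuationSubring F) : ZMod ℓ := if P = Q then 1 else 0

theorem dl_self (P : ValuationSubring F) : dl ℓ P P = 1 := if_pos rfl

theorem dl_ne {P Q : ValuationSubring F} (h : P ≠ Q) : dl ℓ P Q = 0 := if_neg h

/-- Functions `t i` with divisor `i - o` modulo `ℓ`. -/
structure Td (hF : Fd ℓ F) (h : K) where
  /-- the base point -/
  o : OMF hF h
  /-- the functions -/
  t : OMF hF h → F
  ne : ∀ i, t i ≠ 0
  ord : ∀ i j : OMF hF h, om ℓ (j : ValuationSubring F) (t i) =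
    dl ℓ (j : ValuationSubring F) i - dl ℓ (j : ValuationSubring F) o
  out : ∀ (i : OMF hF h) (O : ValuationSubring F), IsPl (kb k K) O → O ∉ OMF hF h → om ℓ O (t i) = 0

variable {hF : Fd ℓ F} {h : K} [Fintype (OMF hF h)]

end GT
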