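import Mathlib
import Pool.Agent.MP_c1dca2_ag.GT.Base
import Pool.Agent.MP_c1dca2_ag.GE.H0
import Pool.Agent.MP_c1dca2_ag.GE.MP6
import Pool.Agent.MP_c1dca2_ag.GE.Q0
import Pool.Agent.MP_c1dca2_ag.SC2.AB
import Pool.Agent.MP_c1dca2_ag.SEC.Defs
import Pool.Agent.MP_c1dca2_ag.SEC.S
import Pool.Agent.MP_c1dca2_ag.SUP.R0

set_option autoImplicit false
set_option linter.unusedVariables false

open IsLocalRing

namespace GT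

/-! ## [GT-H3b] roots in `M`, weights -/

variable {k K : Type} [Field k] [Field K] [Algebra k K] {k' : IntermediateField k (kb k K)}

variable {ℓ : ℕ} [hℓ : Fact ℓ.Prime] {x : Loc k K ℓ} {τ : kb k K ≃ₐ[x.k'] kb k K} {ζ : kb k K}
  {t t' : Om K} {w w' : ZMod ℓ}

theorem h3b_pow (hζ : ζ ^ ℓ = 1) {n : ℕ} {v : ZMod ℓ} (h : (n : ZMod ℓ) = v) : ζ ^ n = ζ ^ v.val := by
  have h1 : n % ℓ = v.val % ℓ :=
    (ZMod.natCast_eq_natCast_iff' n v.val ℓ).1 (by rw [ZMod.natCast_zmod_val]; exact h)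
  have h2 : ∀ n : ℕ, ζ ^ n = ζ ^ (n % ℓ) := by
    intro n
    conv_lhs => rw [← Nat.mod_add_div n ℓ, pow_add, pow_mul, hζ, one_pow, mul_one]
  rw [h2 n, h2 v.val, h1]

theorem h3b_one (x : Loc k K ℓ) (τ : kb k K ≃ₐ[x.k'] kb k K) (ζ : kb k K) :
    Wt x τ ζ (1 : Om K) (0 : ZMod ℓ) := by
  refine ⟨1, ?_, ?_⟩
  · rw [OneMemClass.coe_one, one_pow]
  · rw [map_one, ZMod.val_zero, pow_zero, map_one, one_mul]

/-- Proof. Multiply the roots; `ζ ^ w.val * ζ ^ w'.val = ζ ^ (w + w').val` (`pow_eq_of_cast` of SUP/K6 or `ZMod.natCast_zmod_val`, exponents only matter modulo `ℓ`). -/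
theorem Wt.mul (hζ : ζ ^ ℓ = 1) (h : Wt x τ ζ t w) (h' : Wt x τ ζ t' w') :
    Wt x τ ζ (t * t') (w + w') := by
  obtain ⟨ρ, h1, h2⟩ := h
  obtain ⟨ρ', h1', h2'⟩ := h'
  refine ⟨ρ * ρ', ?_, ?_⟩
  · rw [MulMemClass.coe_mul, mul_pow, h1, h1']
  · rw [map_mul, h2, h2', ← h3b_pow hζ (n := w.val + w'.val) (v := w + w')
      (by rw [Nat.cast_add, ZMod.natCast_zmod_val, ZMod.natCast_zmod_val]), pow_add, map_mul]
    ring

theorem Wt.inv (hζ : ζ ^ ℓ = 1) (h : Wt x τ ζ t w) : Wt x τ ζ t⁻¹ (-w) := by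
  obtain ⟨ρ, h1, h2⟩ := h
  refine ⟨ρ⁻¹, ?_, ?_⟩
  · rw [← h1, ← inv_pow]
    rfl
  · have h3 : ζ ^ (-w).val * ζ ^ w.val = 1 := by
      rw [← pow_add, h3b_pow hζ (n := (-w).val + w.val) (v := 0)
        (by rw [Nat.cast_add, ZMod.natCast_zmod_val, ZMod.natCast_zmod_val, neg_add_cancel]),
        ZMod.val_zero, pow_zero]
    have h4 : x.p.iota (ζ ^ (-w).val) = (x.p.iota (ζ ^ w.val))⁻¹ := by
      apply eq_inv_of_mul_eq_one_left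
      rw [← map_mul, h3, map_one]
    rw [map_inv₀, h2, h4, mul_inv]

theorem Wt.pow (hζ : ζ ^ ℓ = 1) (h : Wt x τ ζ t w) (n : ℕ) : Wt x τ ζ (t ^ n) (n * w) := by
  induction n with
  | zero =>
    rw [pow_zero, Nat.cast_zero, zero_mul]
    exact h3b_one x τ ζ
  | succ n ih =>
    rw [pow_succ, Nat.cast_succ, add_mul, one_mul]
    exact ih.mul hζ h

theorem Wt.prod (hζ : ζ ^ ℓ = 1) {α : Type} (s : Finset α) (f : α → Om K) (g : α → ZMod ℓ)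
    (h : ∀ a ∈ s, Wt x τ ζ (f a) (g a)) : Wt x τ ζ (∏ a ∈ s, f a) (∑ a ∈ s, g a) := by
  classical
  induction s using Finset.induction_on with
  | empty =>
    rw [Finset.prod_empty, Finset.sum_empty]
    exact h3b_one x τ ζ
  | insert a s ha ih =>
    rw [Finset.prod_insert ha, Finset.sum_insert ha]
    exact (h a (Finset.mem_insert_self a s)).mul hζ
      (ih fun b hb => h b (Finset.mem_insert_of_mem hb))

/-- The weight does not depend on the root.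

Proof. `ρ ^ ℓ = ρ₀ ^ ℓ` for the root `ρ₀` in `h`; if `t = 0` both are `0`. Otherwise `ρ = ξ ρ₀` with `ξ ^ ℓ = 1`, `ξ ∈ kb` (as in `PS.exists_xi`; `ρ / ρ₀` is algebraic over `k`), so `ρ ∈ M`, and `τ ξ = ξ` (`SUP.iner_root` with `m = 1`, `x.hℓ`). -/
theorem Wt.all [CharZero k] (hτ : Iner x.V τ) (h : Wt x τ ζ t w) (ρ : Om K) (hρ : ρ ^ ℓ = t) :
    ∃ hM : ρ ∈ x.p.M, x.p.toHom τ ⟨ρ, hM⟩ = x.p.iota (ζ ^ w.val) * ⟨ρ, hM⟩ := by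
  obtain ⟨ρ₀, h1, h2⟩ := h
  rcases eq_or_ne t 0 with h0 | h0
  · subst h0
    have h3 : ρ = 0 := pow_eq_zero_iff hℓ.out.ne_zero |>.1 hρ
    subst h3
    refine ⟨x.p.M.zero_mem, ?_⟩
    have h4 : (⟨0, x.p.M.zero_mem⟩ : x.p.M) = 0 := rfl
    rw [h4, map_zero, mul_zero]
  · have h3 : (ρ₀ : Om K) ≠ 0 := by
      intro h4
      rw [h4, zero_pow hℓ.out.ne_zero] at h1
      exact h0 h1.symm
    have h4 : (ρ / ρ₀ : Om K) ^ ℓ = 1 := by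
      rw [div_pow, hρ, h1, div_self h0]
    have hint : IsIntegral k (ρ / ρ₀ : Om K) := by
      refine IsIntegral.of_pow hℓ.out.pos ?_
      rw [h4]
      exact isIntegral_one
    have hmem : (ρ / ρ₀ : Om K) ∈ kb k K := (mem_algebraicClosure_iff').2 hint
    have h5 : τ ⟨_, hmem⟩ = ⟨_, hmem⟩ :=
      SUP.iner_root x.hℓ 1 ⟨_, hmem⟩ (by rw [pow_one]; exact Subtype.ext h4) τ hτ
    have h6 : ((x.p.iota ⟨_, hmem⟩ * ρ₀ : x.p.M) : Om K) = ρ := by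
      rw [MulMemClass.coe_mul, PS.iota_coe]
      exact div_mul_cancel₀ ρ h3
    have hM : ρ ∈ x.p.M := by
      rw [← h6]
      exact (x.p.iota ⟨_, hmem⟩ * ρ₀ : x.p.M).2
    refine ⟨hM, ?_⟩
    have h7 : (⟨ρ, hM⟩ : x.p.M) = x.p.iota ⟨_, hmem⟩ * ρ₀ := Subtype.ext h6.symm
    rw [h7, map_mul, PS.toHom_iota, h5, h2]
    ring

/-- Proof. `Wt.all` for the root of `h'`: `ζ ^ w.val = ζ ^ w'.val`, so `w = w'` (`IsPrimitiveRoot.pow_inj`, `ZMod.val_lt`, `ZMod.val_injective`). -/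
theorem Wt.unique [CharZero k] (hζ : IsPrimitiveRoot ζ ℓ) (ht : t ≠ 0) (hτ : Iner x.V τ)
    (h : Wt x τ ζ t w) (h' : Wt x τ ζ t w') : w = w' := by
  obtain ⟨ρ, h1, h2⟩ := h'
  obtain ⟨hM, h3⟩ := Wt.all hτ h (ρ : Om K) h1
  have h4 : (⟨(ρ : Om K), hM⟩ : x.p.M) = ρ := rfl
  rw [h4, h2] at h3
  have h5 : ρ ≠ 0 := by
    rintro rfl
    rw [ZeroMemClass.coe_zero, zero_pow hℓ.out.ne_zero] at h1
    exact ht h1.symm
  have h6 := (x.p.iota).injective (mul_right_cancel₀ h5 h3)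
  exact ZMod.val_injective ℓ (hζ.pow_inj (ZMod.val_lt _) (ZMod.val_lt _) h6.symm)

theorem Wt.of_fix (ρ : Om K) (hρ : ρ ^ ℓ = t) (h : x.p.Fix τ ρ) : Wt x τ ζ t 0 := by
  obtain ⟨hM, h1⟩ := h
  refine ⟨⟨ρ, hM⟩, hρ, ?_⟩
  rw [ZMod.val_zero, pow_zero, map_one, one_mul, h1]

theorem Wt.fix [CharZero k] (hτ : Iner x.V τ) (h : Wt x τ ζ t 0) (ρ : Om K) (hρ : ρ ^ ℓ = t) :
    x.p.Fix τ ρ := by
  obtain ⟨hM, h1⟩ := Wt.all hτ h ρ hρ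
  rw [ZMod.val_zero, pow_zero, map_one, one_mul] at h1
  exact ⟨hM, h1⟩

/-- Proof. `PS.exists_xi` (`N = ℓ`): `toHom τ ρ = iota ξ * ρ`, `ξ ^ ℓ = 1`, `ξ = ζ ^ i` (`IsPrimitiveRoot.eq_pow_of_pow_eq_one`), `w = i`. -/
theorem Wt.exists [CharZero k] (hζ : IsPrimitiveRoot ζ ℓ) (ht : t ≠ 0) (hfix : x.p.Fix τ t)
    (ρ : Om K) (hρ : ρ ^ ℓ = t) (hM : ρ ∈ x.p.M) : ∃ w, Wt x τ ζ t w := by
  obtain ⟨htM, h1⟩ := hfix
  have hz : (⟨ρ, hM⟩ : x.p.M) ≠ 0 := by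
    intro h2
    have h3 : ρ = 0 := congrArg Subtype.val h2
    rw [h3, zero_pow hℓ.out.ne_zero] at hρ
    exact ht hρ.symm
  have h2 : (⟨ρ, hM⟩ : x.p.M) ^ ℓ = ⟨t, htM⟩ := Subtype.ext hρ
  obtain ⟨ξ, hξ, hξz⟩ := PS.exists_xi x.p ℓ hℓ.out.pos (⟨ρ, hM⟩ : x.p.M) (x.p.toHom τ ⟨ρ, hM⟩) hz
    (by rw [← map_pow, h2, h1])
  obtain ⟨i, hi, hiξ⟩ := hζ.eq_pow_of_pow_eq_one hξ
  refine ⟨(i : ZMod ℓ), ⟨ρ, hM⟩, hρ, ?_⟩
  rw [hξz, ZMod.val_natCast_of_lt hi, hiξ]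

end GT
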