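import Mathlib
import Pool.Agent.MP_c1dca2_ag.GT.A1
import Pool.Agent.MP_c1dca2_ag.GT.A3
import Pool.Agent.MP_c1dca2_ag.GT.A3b
import Pool.Agent.MP_c1dca2_ag.GT.Base
import Pool.Agent.MP_c1dca2_ag.GT.Defs
import Pool.Agent.MP_c1dca2_ag.GE.M3
import Pool.Agent.MP_c1dca2_ag.GE.M4
import Pool.Agent.MP_c1dca2_ag.GE.M6
import Pool.Agent.MP_c1dca2_ag.GE.Q0
import Pool.Agent.MP_c1dca2_ag.SC2.AB
import Pool.Agent.MP_c1dca2_ag.SEC.Defs
import Pool.Agent.MP_c1dca2_ag.SUP.Defs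
import Pool.Agent.MP_c1dca2_ag.SUP.R0

set_option autoImplicit false
set_option linter.unusedSectionVars false

open Polynomial

namespace GT

/-! ## [GT-M5] multiplicativity of the pairing (file M5.lean; compare SUP/M5.lean, SUP/M5b.lean) -/

section gen

variable {κ : Type} [Field κ] {d : ℕ} [NeZero d] {T : Tab κ d}

theorem m5_ne_of_lc {b : WB T} (hb : lc b = 1) : b ≠ 0 := by
  rintro rfl
  rw [a3_lc_zero] at hb
  exact zero_ne_one hb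

theorem m5_norm {b : WB T} (hb : b ≠ 0) :
    ∃ c : WB T, lc c = 1 ∧ c ≠ 0 ∧ Ideal.span {c} = Ideal.span {b} := by
  have h0 := lc_ne hb
  have h1 : lc ((lc b)⁻¹ • b) = 1 := by rw [lc_smul, inv_mul_cancel₀ h0]
  exact ⟨(lc b)⁻¹ • b, h1, m5_ne_of_lc h1, (span_eq_iff.2 ⟨(lc b)⁻¹, inv_ne_zero h0, rfl⟩).symm⟩

variable [IsAlgClosed κ] [IsDedekindDomain (WB T)]

/-- If `J` is invariant under an automorphism and `J^N = (g)` with `lc g = 1` then `g` is fixed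
(`eq_of_span_eq`, `lc_bE`). -/
theorem gen_fixed (τ : κ ≃+* κ) (hT : T.map (τ : κ →+* κ) = T)
    (J : Ideal (WB T)) (N : ℕ) (g : WB T) (hg : lc g = 1)
    (h : J ^ N = Ideal.span {g}) (hinv : J.map (bE τ hT) = J) : bE τ hT g = g := by
  have h1 : Ideal.span {bE τ hT g} = Ideal.span {g} := by
    rw [← map_span_singleton, ← h, Ideal.map_pow, hinv]
  refine eq_of_span_eq ((map_ne_zero_iff _ (bE τ hT).injective).2 (m5_ne_of_lc hg)) h1 ?_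
  rw [lc_bE, hg, map_one]

/-- If `(b) J = (b') J'` with `J`, `J'` invariant then `b' τ b = b τ b'` up to a constant, which is `1`
if `lc b = lc b' = 1`. -/
theorem quot_fixed (τ : κ ≃+* κ) (hT : T.map (τ : κ →+* κ) = T)
    (J J' : Ideal (WB T)) (hJ0 : J ≠ ⊥) (b b' : WB T) (hb : lc b = 1)
    (hb' : lc b' = 1) (h : Ideal.span {b} * J = Ideal.span {b'} * J')
    (hinv : J.map (bE τ hT) = J) (hinv' : J'.map (bE τ hT) = J') :
    b' * bE τ hT b = b * bE τ hT b' := by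
  have h0 := m5_ne_of_lc hb
  have h0' := m5_ne_of_lc hb'
  have h1 : Ideal.span {bE τ hT b} * J = Ideal.span {bE τ hT b'} * J' := by
    have h2 := congrArg (Ideal.map (bE τ hT)) h
    rw [Ideal.map_mul, Ideal.map_mul, hinv, hinv', map_span_singleton, map_span_singleton] at h2
    exact h2
  have h3 : Ideal.span {b' * bE τ hT b} * J =
      Ideal.span {b * bE τ hT b'} * J := by
    rw [← Ideal.span_singleton_mul_span_singleton, ← Ideal.span_singleton_mul_span_singleton,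
      mul_assoc, h1, mul_comm (Ideal.span {b}), mul_assoc (Ideal.span {bE τ hT b'}), h]
    ac_rfl
  have h4 := mul_right_cancel₀ hJ0 h3
  refine eq_of_span_eq (mul_ne_zero h0'
    ((map_ne_zero_iff _ (bE τ hT).injective).2 h0)) h4 ?_
  rw [lc_mul, lc_mul, lc_bE, lc_bE, hb, hb', map_one]

end gen

variable {k K : Type} [Field k] [Field K] [Algebra k K] {k' : IntermediateField k (kb k K)} {p : PS k K k'} {d : ℕ} [NeZero d]
  {T : Tab (kb k K) d} {E : WB T →+* p.M} {ℓ : ℕ} [hℓ : Fact ℓ.Prime]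

/-- Compare `SUP.pair_mul`. -/
theorem pair_mul [IsAlgClosed (kb k K)] [IsDedekindDomain (WB T)]
    {V : ValuationSubring (kb k K)}
    (hV : V.valuation ((ℓ : ℕ) : kb k K) = 1) (hE : Emb p E) (τ : kb k K ≃ₐ[k'] kb k K)
    (hτ : Iner V τ) (hf : Fx p E τ)
    (hT : T.map ((τ : kb k K ≃+* kb k K) : kb k K →+* kb k K) = T) (n : ℕ)
    (J J₁ J₂ : Ideal (WB T)) (hJ : J ≠ ⊥) (g g₁ g₂ : WB T)
    (hg : lc g = 1) (hg₁ : lc g₁ = 1) (hg₂ : lc g₂ = 1) (h : J ^ (ℓ ^ n) = Ideal.span {g})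
    (h₁ : J₁ ^ (ℓ ^ n) = Ideal.span {g₁}) (h₂ : J₂ ^ (ℓ ^ n) = Ideal.span {g₂})
    (hinv : J.map (bE (τ : kb k K ≃+* kb k K) hT) = J)
    (hinv₁ : J₁.map (bE (τ : kb k K ≃+* kb k K) hT) = J₁)
    (hinv₂ : J₂.map (bE (τ : kb k K ≃+* kb k K) hT) = J₂)
    (b b' : WB T) (hb : b ≠ 0) (hb' : b' ≠ 0)
    (hbb : Ideal.span {b} * J = Ideal.span {b'} * (J₁ * J₂)) (ρ ρ₁ ρ₂ : p.M)
    (hρ : ρ ^ (ℓ ^ n) = E g) (hρ₁ : ρ₁ ^ (ℓ ^ n) = E g₁)
    (hρ₂ : ρ₂ ^ (ℓ ^ n) = E g₂) :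
    p.toHom τ ρ * (ρ₁ * ρ₂) = ρ * (p.toHom τ ρ₁ * p.toHom τ ρ₂) := by
  obtain ⟨c, hc1, hc0, hcs⟩ := m5_norm hb
  obtain ⟨c', hc1', hc0', hcs'⟩ := m5_norm hb'
  have hg0 : g ≠ 0 := m5_ne_of_lc hg
  have hg10 : g₁ ≠ 0 := m5_ne_of_lc hg₁
  have hg20 : g₂ ≠ 0 := m5_ne_of_lc hg₂
  have hN : 0 < ℓ ^ n := pow_pos hℓ.out.pos n
  have hcc : Ideal.span {c} * J = Ideal.span {c'} * (J₁ * J₂) := by rw [hcs, hcs', hbb]
  -- the equation of the generators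
  have heq : c ^ (ℓ ^ n) * g = c' ^ (ℓ ^ n) * (g₁ * g₂) := by
    refine eq_of_span_eq (mul_ne_zero (pow_ne_zero _ hc0) hg0) ?_ ?_
    · rw [← Ideal.span_singleton_mul_span_singleton, ← Ideal.span_singleton_mul_span_singleton,
        ← Ideal.span_singleton_mul_span_singleton, ← Ideal.span_singleton_pow,
        ← Ideal.span_singleton_pow, ← h, ← h₁, ← h₂, ← mul_pow, ← mul_pow, ← mul_pow, hcc]
    · rw [lc_mul, lc_mul, lc_mul, lc_pow, lc_pow, hc1, hc1', hg, hg₁, hg₂]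
      simp
  have hA := hE.ne hc0
  have hA' := hE.ne hc0'
  have hE1 := hE.ne hg10
  have hE2 := hE.ne hg20
  have hρ10 : ρ₁ ≠ 0 := by
    intro h0
    rw [h0, zero_pow hN.ne'] at hρ₁
    exact hE1 hρ₁.symm
  have hρ20 : ρ₂ ≠ 0 := by
    intro h0
    rw [h0, zero_pow hN.ne'] at hρ₂
    exact hE2 hρ₂.symm
  have hpow : (E c * ρ) ^ (ℓ ^ n) = (E c' * (ρ₁ * ρ₂)) ^ (ℓ ^ n) := by
    rw [mul_pow, mul_pow, mul_pow, hρ, hρ₁, hρ₂, ← map_pow, ← map_pow, ← map_mul, ← map_mul,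
      ← map_mul, heq]
  obtain ⟨ξ, hξ, hξe⟩ := exists_xi p (ℓ ^ n) hN _ _ (mul_ne_zero hA' (mul_ne_zero hρ10 hρ20)) hpow
  have hsξ : p.toHom τ (p.iota ξ) = p.iota ξ := by
    rw [p.toHom_iota, SUP.iner_root hV n ξ hξ τ hτ]
  have hξ0 : p.iota ξ ≠ 0 := by
    intro h0
    have h1 : ξ = 0 := (map_eq_zero p.iota).1 h0
    rw [h1, zero_pow hN.ne'] at hξ
    exact zero_ne_one hξ
  -- apply the section
  have hsc := sect_emb hE τ hf hT c
  have hsc' := sect_emb hE τ hf hT c'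
  have hξe' := congrArg (p.toHom τ) hξe
  rw [map_mul, map_mul, map_mul, map_mul, hsξ, hsc, hsc'] at hξe'
  have hinv' : (J₁ * J₂).map (bE (τ : kb k K ≃+* kb k K) hT) = J₁ * J₂ := by
    rw [Ideal.map_mul, hinv₁, hinv₂]
  have hq := quot_fixed (τ : kb k K ≃+* kb k K) hT J (J₁ * J₂) hJ c c' hc1 hc1' hcc hinv hinv'
  have hq' := congrArg E hq
  rw [map_mul, map_mul] at hq'
  have hAτ : E (bE (τ : kb k K ≃+* kb k K) hT c) ≠ 0 := by
    rw [← hsc]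
    exact fun h0 => hA ((map_eq_zero (p.toHom τ)).1 h0)
  have hcan : p.iota ξ * E c' * E (bE (τ : kb k K ≃+* kb k K) hT c) ≠ 0 :=
    mul_ne_zero (mul_ne_zero hξ0 hA') hAτ
  apply mul_left_cancel₀ hcan
  linear_combination (E (bE (τ : kb k K ≃+* kb k K) hT c) * p.toHom τ ρ) * (-hξe)
    + (E c * ρ) * hξe' + (-p.iota ξ * ρ * (p.toHom τ ρ₁ * p.toHom τ ρ₂)) * hq'

end GT
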