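import Mathlib
import Pool.Agent.MP_c1dca2_ag.GT.A3
import Pool.Agent.MP_c1dca2_ag.GT.Base
import Pool.Agent.MP_c1dca2_ag.GT.Defs
import Pool.Agent.MP_c1dca2_ag.GT.Kc
import Pool.Agent.MP_c1dca2_ag.GT.Kd
import Pool.Agent.MP_c1dca2_ag.GE.M3
import Pool.Agent.MP_c1dca2_ag.GE.M4
import Pool.Agent.MP_c1dca2_ag.GE.M7
import Pool.Agent.MP_c1dca2_ag.GT.N1
import Pool.Agent.MP_c1dca2_ag.GT.P0
import Pool.Agent.MP_c1dca2_ag.GT.P8d
import Pool.Agent.MP_c1dca2_ag.GE.Q0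
import Pool.Agent.MP_c1dca2_ag.SC2.A4
import Pool.Agent.MP_c1dca2_ag.SC2.A7
import Pool.Agent.MP_c1dca2_ag.SC2.AB
import Pool.Agent.MP_c1dca2_ag.SC2.B1
import Pool.Agent.MP_c1dca2_ag.SEC.Defs
import Pool.Agent.MP_c1dca2_ag.SEC.S
import Pool.Agent.MP_c1dca2_ag.SUP.Defs

set_option autoImplicit false
set_option linter.unusedSectionVars false

open Polynomial IsLocalRing

namespace GT

/-! ## [GT-S2] the local part of the star theorem -/

variable {k K : Type} [Field k] [Field K] [Algebra k K] {k' : IntermediateField k (kb k K)} {ℓ : ℕ}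

/-- The embedding of a model in `M`. -/
noncomputable def embM (p : PS k K k') {Z : IntermediateField (kb k K) (Om K)}
    (hM : ∀ z : Z, (z : Om K) ∈ p.M) {d : ℕ} [NeZero d] {T : Tab (kb k K) d} (E : WB T →+* Z) :
    WB T →+* p.M where
  toFun b := ⟨(E b : Om K), hM (E b)⟩
  map_one' := Subtype.ext (by rw [map_one]; rfl)
  map_mul' a b := Subtype.ext (by rw [map_mul]; rfl)
  map_zero' := Subtype.ext (by rw [map_zero]; rfl)
  map_add' a b := Subtype.ext (by rw [map_add]; rfl)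

theorem embM_coe (p : PS k K k') {Z : IntermediateField (kb k K) (Om K)}
    (hM : ∀ z : Z, (z : Om K) ∈ p.M) {d : ℕ} [NeZero d] {T : Tab (kb k K) d} (E : WB T →+* Z)
    (b : WB T) : ((embM p hM E b : p.M) : Om K) = (E b : Om K) := rfl

theorem embM_emb (p : PS k K k') {Z : IntermediateField (kb k K) (Om K)}
    (hM : ∀ z : Z, (z : Om K) ∈ p.M) {d : ℕ} [NeZero d] {T : Tab (kb k K) d} {E : WB T →+* Z}
    {O₁ : ValuationSubring Z} (h : Model O₁ T E) : Emb p (embM p hM E) where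
  alg a := Subtype.ext (by
    rw [embM_coe, h.alg]
    rfl)
  inj a b hab := h.inj (Subtype.ext (congrArg (fun z : p.M => (z : Om K)) hab))

theorem s2_tab {κ : Type} [Field κ] {d : ℕ} [NeZero d] {T : Tab κ d} (σ : κ ≃+* κ)
    (h : ∀ i j k n, σ ((T.c i j k).coeff n) = (T.c i j k).coeff n) :
    T.map (σ : κ →+* κ) = T := by
  refine Tab.ext rfl ?_
  funext i j k
  rw [Tab.map_c]
  ext n
  rw [coeff_map]
  exact h i j k n

theorem s2_bE {κ : Type} [Field κ] {d : ℕ} [NeZero d] {T : Tab κ d} (σ : κ ≃+* κ)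
    (hT : T.map (σ : κ →+* κ) = T) (b : WB T) (h : ∀ j n, σ ((b.co j).coeff n) = (b.co j).coeff n) :
    bE σ hT b = b := by
  refine WB.ext (funext fun j => ?_)
  rw [bE_co]
  ext n
  rw [coeff_map]
  exact h j n

theorem coprime_card {k : Type} [Field k] {A : ValuationSubring k} [Finite (ResidueField A)]
    {ℓ : ℕ} (hℓ : ℓ.Prime) (hA : (ℓ : ResidueField A) ≠ 0) :
    (Nat.card (ResidueField A)).Coprime ℓ := by
  rw [Nat.coprime_comm, Nat.Prime.coprime_iff_not_dvd hℓ]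
  intro hd
  have hF := Fintype.ofFinite (ResidueField A)
  obtain ⟨p, hp⟩ := CharP.exists (ResidueField A)
  have hpp : p.Prime := by
    rcases CharP.char_is_prime_or_zero (ResidueField A) p with h | h
    · exact h
    · exfalso
      rw [h] at hp
      have : CharZero (ResidueField A) := CharP.charP_to_charZero _
      exact not_finite (ResidueField A)
  have hfp : Fact p.Prime := ⟨hpp⟩
  obtain ⟨n, -, hn⟩ := FiniteField.card (ResidueField A) p
  rw [Nat.card_eq_fintype_card, hn] at hd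
  have h1 : ℓ ∣ p := hℓ.dvd_of_dvd_pow hd
  have h2 : ℓ = p := (Nat.prime_dvd_prime_iff_eq hℓ hpp).1 h1
  apply hA
  rw [h2]
  exact CharP.cast_eq_zero _ _

/-- A power of Frobenius fixing finitely many elements. -/
theorem s2_power [CharZero k] (p : PS k K k') (φ : kb k K ≃ₐ[k'] kb k K) (S : Finset (kb k K))
    (X : Finset p.M) : ∃ m : ℕ, 0 < m ∧ (∀ a ∈ S, (φ ^ m) a = a) ∧
      ∀ z ∈ X, p.toHom (φ ^ m) z = z := by
  obtain ⟨m, hm, h1⟩ := exists_iter φ S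
  obtain ⟨n, hn, h2⟩ := exists_iter (p.toHom (φ ^ m)) X
  refine ⟨m * n, Nat.mul_pos hm hn, fun a ha => ?_, fun z hz => ?_⟩
  · rw [pow_mul]
    have h3 : ∀ i : ℕ, ((φ ^ m) ^ i) a = a := by
      intro i
      induction i with
      | zero => rw [pow_zero, AlgEquiv.one_apply]
      | succ i ih => rw [pow_succ, AlgEquiv.mul_apply, h1 a ha, ih]
    exact h3 n
  · rw [pow_mul, map_pow]
    exact h2 z hz

variable {V : ValuationSubring (kb k K)} {d : ℕ} [NeZero d] {T : Tab V d}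

theorem star_loc [CharZero k] [hℓ : Fact ℓ.Prime] (x : Loc k K ℓ) {T : Tab x.V d}
    {Z : IntermediateField (kb k K) (Om K)} (hZ : FF (kb k K) Z) {O₁ : ValuationSubring Z}
    (hO : IsPl (kb k K) O₁) {E : WB (T.map x.V.subtype) →+* Z} (hm : Model O₁ (T.map x.V.subtype) E)
    (hG' : IsDedekindDomain (WB (T.map (residue x.V))))
    (t : Z) (ρ : Om K) (hρ : ρ ^ ℓ = t)
    (a b : WB (T.map x.V.subtype)) (J : Ideal (WB (T.map x.V.subtype))) (ha : a ≠ 0) (hb : b ≠ 0)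
    (hab : t * E b ^ ℓ = E a) (hJ : J ^ ℓ = Ideal.span {a}) (hlc : x.V.valuation (lc a) = 1)
    (hI : ∀ σ : kb k K ≃ₐ[x.k'] kb k K, Iner x.V σ →
      (∀ i j k n, σ ((((T.map x.V.subtype)).c i j k).coeff n) = (((T.map x.V.subtype)).c i j k).coeff n) ∧
      (∀ j n, σ ((a.co j).coeff n) = (a.co j).coeff n) ∧
      (∀ j n, σ ((b.co j).coeff n) = (b.co j).coeff n))
    (S : Finset (kb k K)) (hS : ∀ i j k n, (((T.map x.V.subtype)).c i j k).coeff n ∈ S)
    (hM : ∀ z : Z, (z : Om K) ∈ x.p.M)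
    (τ : kb k K ≃ₐ[x.k'] kb k K) (hτ : Iner x.V τ) (hτF : Fx x.p (embM x.p hM E) τ)
    (hW : ∀ (π : ℕ → kb k K) (a : x.k'), a ≠ 0 → x.A.valuation a ≠ 1 →
      π 0 = algebraMap x.k' (kb k K) a → (∀ m, π (m + 1) ^ ℓ = π m) →
      ∀ σ : kb k K ≃ₐ[x.k'] kb k K, Wild x.V π σ → Fx x.p (embM x.p hM E) σ) :
    x.p.Fix τ ρ := by
  classical
  have hac : IsAlgClosed (kb k K) := SC2.kb_isAlgClosed
  have hgal : IsGalois x.k' (kb k K) := kb'_isGalois
  have hdvr := x.dvr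
  have hfin := x.fin
  have hG : IsDedekindDomain (WB (T.map x.V.subtype)) := hm.ded
  have hℓ0 : 0 < ℓ := hℓ.out.pos
  have hE := embM_emb x.p hM hm
  have hIT : ∀ σ : kb k K ≃ₐ[x.k'] kb k K, Iner x.V σ →
      (T.map x.V.subtype).map ((σ : kb k K ≃+* kb k K) : kb k K →+* kb k K) = T.map x.V.subtype :=
    fun σ hσ => s2_tab _ (hI σ hσ).1
  -- the Frobenius
  obtain ⟨φ₀, hφ₀⟩ := SC2.exists_frob (k := x.k') (C := kb k K) x.above
  obtain ⟨m, hm0, hφS, hφX⟩ := s2_power x.p φ₀ S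
    (insert (embM x.p hM E (WB.x _)) (Finset.univ.image fun j => embM x.p hM E (WB.f _ j)))
  have hφ := SC2.frob_pow hφ₀ m
  set q₀ := Nat.card (ResidueField x.A) with hq₀
  have hq₀2 : 2 ≤ q₀ := Finite.one_lt_card
  have hA : ((ℓ : ℕ) : ResidueField x.A) ≠ 0 := by
    intro h0
    have h1 : residue x.A ((ℓ : ℕ) : x.A) = 0 := by rw [map_natCast]; exact h0
    rw [residue_eq_zero_iff, ValuationSubring.valuation_lt_one_iff] at h1
    have h2 : ((ℓ : ℕ) : x.k') ≠ 0 := by exact_mod_cast hℓ.out.ne_zero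
    have h3 : (((ℓ : ℕ) : x.k'))⁻¹ ∉ x.A := by
      intro h4
      rw [← ValuationSubring.valuation_le_one_iff, map_inv₀] at h4
      have h5 := (inv_le_one₀ (zero_lt_iff.2 ((Valuation.ne_zero_iff _).2 h2))).1 h4
      have h6 : x.A.valuation ((ℓ : ℕ) : x.k') < 1 := by simpa using h1
      exact absurd h6 (not_lt.2 h5)
    apply h3
    rw [← x.above, map_inv₀, ← ValuationSubring.valuation_le_one_iff, map_inv₀, map_natCast, x.hℓ,
      inv_one]
  have hcop : q₀.Coprime ℓ := coprime_card hℓ.out hA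
  have hq2 : 2 ≤ q₀ ^ m := le_trans hq₀2 (Nat.le_self_pow hm0.ne' q₀)
  have hqℓ : (q₀ ^ m).Coprime ℓ := Nat.Coprime.pow_left m hcop
  have hres : ∀ y : ResidueField x.V, ∃ n : ℕ, 0 < n ∧ y ^ (q₀ ^ m) ^ n = y := by
    intro y
    obtain ⟨n, hn, hy⟩ := residue_pow x.above y
    rw [← hq₀] at hy
    refine ⟨n, hn, ?_⟩
    have h1 : ∀ i : ℕ, y ^ (q₀ ^ n) ^ i = y := by
      intro i
      induction i with
      | zero => rw [pow_zero, pow_one]
      | succ i ih => rw [pow_succ, pow_mul, ih, hy]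
    rw [← pow_mul, mul_comm, pow_mul]
    exact h1 m
  have hφT : (T.map x.V.subtype).map (((φ₀ ^ m : kb k K ≃ₐ[x.k'] kb k K) : kb k K ≃+* kb k K) :
      kb k K →+* kb k K) = T.map x.V.subtype :=
    s2_tab _ fun i j k n => hφS _ (hS i j k n)
  have hφF : Fx x.p (embM x.p hM E) (φ₀ ^ m) :=
    ⟨hφX _ (Finset.mem_insert_self _ _), fun j => hφX _ (Finset.mem_insert_of_mem
      (Finset.mem_image_of_mem _ (Finset.mem_univ j)))⟩
  -- the root
  have hEb0 : (E b : Om K) ≠ 0 := fun h0 =>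
    (map_ne_zero_iff E hm.inj).2 hb (Subtype.ext h0)
  have hJ0 : J ≠ ⊥ := by
    rintro rfl
    rw [← Ideal.zero_eq_bot, zero_pow hℓ0.ne'] at hJ
    exact ha (Ideal.span_singleton_eq_bot.1 hJ.symm)
  have hρ' : (ρ * (E b : Om K)) ^ ℓ = ((embM x.p hM E a : x.p.M) : Om K) := by
    rw [mul_pow, hρ, embM_coe, ← hab]
    rfl
  have hρM : ρ * (E b : Om K) ∈ x.p.M := root_mem hE J hJ0 ℓ hℓ0 a hJ _ hρ'
  have key := star_core (p := x.p) x.above x.hℓ (rk1_of x.above)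
    (fun D => Model.div hZ hO hm hℓ0 D) hE hIT hW (q₀ ^ m) hq2 hqℓ hres (φ₀ ^ m) hφ hφT hφF τ hτ
    hτF a J hJ0 hJ hlc (s2_bE _ _ a (hI τ hτ).2.1) ⟨_, hρM⟩ (Subtype.ext hρ')
  -- conclusion
  have hb' : x.p.toHom τ (embM x.p hM E b) = embM x.p hM E b := by
    rw [sect_emb hE τ hτF (hIT τ hτ), s2_bE _ _ b (hI τ hτ).2.2]
  have hρρ : ρ ∈ x.p.M := by
    have h1 : ρ = (ρ * (E b : Om K)) / (E b : Om K) := by rw [mul_div_cancel_right₀ _ hEb0]
    rw [h1]
    exact x.p.M.div_mem hρM (hM (E b))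
  refine ⟨hρρ, ?_⟩
  have h2 : (⟨ρ, hρρ⟩ : x.p.M) * embM x.p hM E b = ⟨ρ * (E b : Om K), hρM⟩ := Subtype.ext rfl
  have h3 : embM x.p hM E b ≠ 0 := fun h0 => hEb0 (congrArg Subtype.val h0)
  apply mul_right_cancel₀ h3
  conv_lhs => rw [← hb', ← map_mul, h2, key]
  exact h2.symm

end GT
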