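import Mathlib
import Pool.Agent.MP_c1dca2_ag.GT.A1
import Pool.Agent.MP_c1dca2_ag.GT.A3
import Pool.Agent.MP_c1dca2_ag.GT.Base
import Pool.Agent.MP_c1dca2_ag.GT.C0
import Pool.Agent.MP_c1dca2_ag.GT.Defs
import Pool.Agent.MP_c1dca2_ag.GT.GR4b
import Pool.Agent.MP_c1dca2_ag.GE.M4
import Pool.Agent.MP_c1dca2_ag.GT.N3b
import Pool.Agent.MP_c1dca2_ag.GT.P0
import Pool.Agent.MP_c1dca2_ag.GT.P8a
import Pool.Agent.MP_c1dca2_ag.GT.P8d
import Pool.Agent.MP_c1dca2_ag.GE.Q0
import Pool.Agent.MP_c1dca2_ag.GT.S1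
import Pool.Agent.MP_c1dca2_ag.GE.S2
import Pool.Agent.MP_c1dca2_ag.SC2.A7
import Pool.Agent.MP_c1dca2_ag.SC2.AB
import Pool.Agent.MP_c1dca2_ag.SC2.B1
import Pool.Agent.MP_c1dca2_ag.SEC.Defs
import Pool.Agent.MP_c1dca2_ag.SEC.S
import Pool.Agent.MP_c1dca2_ag.SUP.Defs

set_option autoImplicit false

open IsLocalRing

namespace GT

/-! ## [GT-Star] inertia acts trivially on roots of functions with orders divisible by `ℓ` -/

open Classical in
/-- The coefficients of a polynomial. -/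
noncomputable def cfs {C : Type} [Field C] (P : Polynomial C) : Finset C :=
  insert 0 ((Finset.range (P.natDegree + 1)).image P.coeff)

theorem mem_cfs {C : Type} [Field C] (P : Polynomial C) (n : ℕ) : P.coeff n ∈ cfs P := by
  classical
  unfold cfs
  by_cases h : n ≤ P.natDegree
  · exact Finset.mem_insert_of_mem (Finset.mem_image_of_mem _ (Finset.mem_range.2 (by omega)))
  · rw [Polynomial.coeff_eq_zero_of_natDegree_lt (by omega)]
    exact Finset.mem_insert_self _ _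

variable {k K : Type} [Field k] [Field K] [Algebra k K] {ℓ : ℕ}

/-- `Z / C` is a function field inside `Ω`, all orders of `t ∈ Z` are divisible by `ℓ`, `ρ ^ ℓ = t`. There are finitely many elements `X` of `Z` such that for almost all places and all partial sections with
`Z ≤ M`: if `τ` is in the inertia group and fixes `X`, and the elements of the inertia group which fix a tower of `ℓ`-power roots of some `a ∈ k` (not a unit) fix `X`, then `τ` fixes `ρ`. -/
theorem star [CharZero k] [hℓ : Fact ℓ.Prime] (Z : IntermediateField (kb k K) (Om K)) (hZ : FF (kb k K) Z)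
    (t : Z) (ht : t ≠ 0)
    (hd : ∀ (O : ValuationSubring Z) (o : Z → ℤ), IsPl (kb k K) O → IsOrd (kb k K) O o → (ℓ : ℤ) ∣ o t)
    (ρ : Om K) (hρ : ρ ^ ℓ = t) :
    ∃ X : Finset Z, AA (fun x : Loc k K ℓ => (∀ z : Z, (z : Om K) ∈ x.p.M) →
      ∀ τ : kb k K ≃ₐ[x.k'] kb k K, Iner x.V τ → (∀ z ∈ X, x.p.Fix τ z) →
      (∀ (π : ℕ → kb k K) (a : x.k'), a ≠ 0 → x.A.valuation a ≠ 1 → π 0 = algebraMap x.k' (kb k K) a →
        (∀ m, π (m + 1) ^ ℓ = π m) → ∀ σ : kb k K ≃ₐ[x.k'] kb k K, Wild x.V π σ →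
          ∀ z ∈ X, x.p.Fix σ z) →
      x.p.Fix τ ρ) := by
  classical
  have hac : IsAlgClosed (kb k K) := SC2.kb_isAlgClosed
  have hch : CharZero (kb k K) := inferInstance
  obtain ⟨O₁, hO⟩ := exists_pl hZ
  obtain ⟨d, hd0, T, E, hm⟩ := exists_model hZ hO
  have hded := hm.ded
  obtain ⟨a, b, J, ha, hb, hab, hJ⟩ := exists_root_fun hZ hO hm hℓ.out.pos ht
    (fun O o h1 _ h2 => hd O o h1 h2)
  obtain ⟨S₁, hS₁⟩ := good_red T
  let ST : Finset (kb k K) := Finset.univ.biUnion fun i : ZMod d =>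
    Finset.univ.biUnion fun j : ZMod d => Finset.univ.biUnion fun l : ZMod d => cfs (T.c i j l)
  have hST : ∀ i j l n, (T.c i j l).coeff n ∈ ST := fun i j l n =>
    Finset.mem_biUnion.2 ⟨i, Finset.mem_univ _, Finset.mem_biUnion.2 ⟨j, Finset.mem_univ _,
      Finset.mem_biUnion.2 ⟨l, Finset.mem_univ _, mem_cfs _ n⟩⟩⟩
  let Sb : WB T → Finset (kb k K) := fun b => Finset.univ.biUnion fun j : ZMod d => cfs (b.co j)
  have hSb : ∀ b j n, (b.co j).coeff n ∈ Sb b := fun b j n =>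
    Finset.mem_biUnion.2 ⟨j, Finset.mem_univ _, mem_cfs _ n⟩
  refine ⟨insert (E (WB.x T)) (Finset.univ.image fun j => E (WB.f T j)),
    S₁ ∪ ST ∪ Sb a ∪ Sb b ∪ {lc a, (lc a)⁻¹}, fun x hx hM τ hτ hX hW => ?_⟩
  have hx1 : SG x.k' S₁ x.V := hx.mono fun c hc => by simp [hc]
  have hxT : SG x.k' ST x.V := hx.mono fun c hc => by
    simp only [Finset.mem_union]
    exact Or.inl (Or.inl (Or.inl (Or.inr hc)))
  have hxa : SG x.k' (Sb a) x.V := hx.mono fun c hc => by
    simp only [Finset.mem_union]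
    exact Or.inl (Or.inl (Or.inr hc))
  have hxb : SG x.k' (Sb b) x.V := hx.mono fun c hc => by
    simp only [Finset.mem_union]
    exact Or.inl (Or.inr hc)
  have hlc1 : lc a ∈ x.V := (hx _ (by simp)).1
  have hlc2 : (lc a)⁻¹ ∈ x.V := (hx _ (by simp)).1
  have hlc0 : lc a ≠ 0 := lc_ne ha
  have hlc : x.V.valuation (lc a) = 1 := by
    refine le_antisymm ((x.V.valuation_le_one_iff _).2 hlc1) ?_
    have h1 := (x.V.valuation_le_one_iff _).2 hlc2
    rw [map_inv₀] at h1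
    exact (inv_le_one₀ (zero_lt_iff.2 ((Valuation.ne_zero_iff _).2 hlc0))).1 h1
  obtain ⟨TV, hTV⟩ := exists_tabV T x.V fun i j l n => (hxT _ (hST i j l n)).1
  have hG' : IsDedekindDomain (WB (TV.map (residue x.V))) :=
    hS₁ x.V.toSubring (fun c hc => (hx1 c hc).1) TV hTV (ResidueField x.V) (residue x.V) inferInstance
  subst hTV
  have hF : ∀ σ : kb k K ≃ₐ[x.k'] kb k K,
      (∀ z ∈ insert (E (WB.x _)) (Finset.univ.image fun j => E (WB.f _ j)), x.p.Fix σ (z : Om K)) →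
      Fx x.p (embM x.p hM E) σ := by
    intro σ h
    refine ⟨?_, fun j => ?_⟩
    · obtain ⟨h1, h2⟩ := h _ (Finset.mem_insert_self _ _)
      exact h2
    · obtain ⟨h1, h2⟩ := h _ (Finset.mem_insert_of_mem
        (Finset.mem_image_of_mem _ (Finset.mem_univ j)))
      exact h2
  exact star_loc x hZ hO hm hG' t ρ hρ a b J ha hb hab hJ hlc
    (fun σ hσ => ⟨fun i j l n => (hxT _ (hST i j l n)).2 σ hσ,
      fun j n => (hxa _ (hSb a j n)).2 σ hσ, fun j n => (hxb _ (hSb b j n)).2 σ hσ⟩)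
    ST hST hM τ hτ (hF τ hX) (fun π a' h1 h2 h3 h4 σ hσ => hF σ (hW π a' h1 h2 h3 h4 σ hσ))

end GT
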