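import Mathlib
import Pool.Agent.MP_c1dca2_ag.GT.Base
import Pool.Agent.MP_c1dca2_ag.GE.H0
import Pool.Agent.MP_c1dca2_ag.GT.P0
import Pool.Agent.MP_c1dca2_ag.GT.P8a
import Pool.Agent.MP_c1dca2_ag.GE.Q0
import Pool.Agent.MP_c1dca2_ag.GE.Star
import Pool.Agent.MP_c1dca2_ag.SC2.A7
import Pool.Agent.MP_c1dca2_ag.SC2.AB
import Pool.Agent.MP_c1dca2_ag.SC2.B1
import Pool.Agent.MP_c1dca2_ag.SEC.Defs
import Pool.Agent.MP_c1dca2_ag.SEC.S
import Pool.Agent.MP_c1dca2_ag.SUP.Defs

set_option autoImplicit false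
set_option linter.unusedVariables false

open IsLocalRing

namespace GT

/-! ## [GT-H5a] consequences of `star` -/

variable {k K : Type} [Field k] [Field K] [Algebra k K] {k' : IntermediateField k (kb k K)} {ℓ : ℕ} [hℓ : Fact ℓ.Prime]

/-- Proof. `star` for `Z = F` (`hF.ff`; the hypothesis for all orders `o` by `ord_unique` (P8a) and `od_spec`) gives `X` and an `AA`. `AA.finset` for `z ∈ X` and `hF.fix z`: at almost all places the inertia group fixes all elements of `X` (also the elements of `Wild`: `Wild.iner`). `hF.le` gives `F ≤ M`. -/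
theorem fix_root [CharZero k] {F : IntermediateField (kb k K) (Om K)} (hF : Fd ℓ F) (t : F)
    (ht : t ≠ 0) (hord : ∀ P, IsPl (kb k K) P → (ℓ : ℤ) ∣ od (kb k K) P t) (ρ : Om K)
    (hρ : ρ ^ ℓ = t) : AA (fun x : Loc k K ℓ => ∀ τ, Iner x.V τ → x.p.Fix τ ρ) := by
  have hac : IsAlgClosed (kb k K) := SC2.kb_isAlgClosed
  have hch : CharZero (kb k K) :=
    charZero_of_injective_algebraMap (algebraMap k (kb k K)).injective
  obtain ⟨X, hX⟩ := star F hF.ff t ht (fun O o hO ho => by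
    rw [ord_unique ho (od_spec hF.ff hO) ht]
    exact hord O hO) ρ hρ
  refine (hX.and (AA.finset X fun z _ => hF.fix z z.2)).mono fun x hx τ hτ => ?_
  exact hx.1 (fun z => hF.le x.k' x.p z z.2) τ hτ (fun z hz => hx.2 z hz τ hτ)
    (fun π a _ _ _ _ σ hσ z hz => hx.2 z hz σ hσ.iner)


end GT
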