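import Mathlib
import Pool.Agent.MP_c1dca2_ag.GT.Base
import Pool.Agent.MP_c1dca2_ag.GE.H0
import Pool.Agent.MP_c1dca2_ag.GE.H3a
import Pool.Agent.MP_c1dca2_ag.GE.H3b
import Pool.Agent.MP_c1dca2_ag.GE.H5b
import Pool.Agent.MP_c1dca2_ag.GE.H6a
import Pool.Agent.MP_c1dca2_ag.GE.H6b
import Pool.Agent.MP_c1dca2_ag.GE.H6d
import Pool.Agent.MP_c1dca2_ag.GT.K0
import Pool.Agent.MP_c1dca2_ag.GT.P0
import Pool.Agent.MP_c1dca2_ag.GE.Q0
import Pool.Agent.MP_c1dca2_ag.SC2.AB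
import Pool.Agent.MP_c1dca2_ag.SEC.Defs
import Pool.Agent.MP_c1dca2_ag.SEC.S
import Pool.Agent.MP_c1dca2_ag.SUP.Defs

set_option autoImplicit false
set_option linter.unusedVariables false

open IsLocalRing

namespace GT

/-! ## [GT-H6e] functions with poles and zeros on `OM`; the weights -/

variable {k K : Type} [Field k] [Field K] [Algebra k K] {k' : IntermediateField k (kb k K)} {ℓ : ℕ} [hℓ : Fact ℓ.Prime]
  {F : IntermediateField (kb k K) (Om K)}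

variable {hF : Fd ℓ F} {h : K} [Fintype (OMF hF h)]

/-- Proof. `u = D.prod ε`, orders `ε j` at `j ∈ OM` (`Td.om_prod`, `∑ ε = 0`), `0` outside. `t = D.t a / D.t b`: orders `δ_ja - δ_jb` at `j ∈ OM`, `0` outside. So at every place the order of `t` is divisible by `ℓ` or that of `u` is not (`om_eq_zero`): `fix_root_of` (H5) with `U ^ ℓ = u`, `ρ ^ ℓ = t`. At such a place, with `Tw`: `U ∈ M` by
`root_ram` (H3); `Wt u 0` by `Td.wt_prod` and `∑ ε w = 0`, so `Fix τ U` (`Wt.fix`), so `Fix τ ρ`, `Wt t 0` (`Wt.of_fix`). Also `Wt t (w a - w b)` (`Wt.mul`, `Wt.inv`). `Wt.unique`. -/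
theorem hkey [CharZero k] (hh : h ≠ 0) (D : Td hF h) (ε : OMF hF h → ZMod ℓ) (hε : ∑ i, ε i = 0)
    (a b : OMF hF h) (ha : ε a ≠ 0) (hb : ε b ≠ 0) :
    AA (fun x : Loc k K ℓ => ∀ (c : k) (y₁ : Om K), Tw x h c y₁ → ∀ τ, Iner x.V τ →
      ∀ ζ : kb k K, IsPrimitiveRoot ζ ℓ → ∀ w : OMF hF h → ZMod ℓ,
        (∀ i, Wt x τ ζ (D.t i : F) (w i)) → ∑ i, ε i * w i = 0 → w a = w b) := by
  have hpos : 0 < ℓ := hℓ.out.pos
  have hu : D.prod ε ≠ 0 := D.prod_ne ε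
  have ht : D.t a * (D.t b)⁻¹ ≠ 0 := mul_ne_zero (D.ne a) (inv_ne_zero (D.ne b))
  have homt : ∀ P, IsPl (kb k K) P → om ℓ P (D.t a * (D.t b)⁻¹) =
      om ℓ P (D.t a) - om ℓ P (D.t b) := by
    intro P hP
    rw [om_mul hF hP (D.ne a) (inv_ne_zero (D.ne b)), om_inv hF hP (D.ne b), sub_eq_add_neg]
  have hord : ∀ P, IsPl (kb k K) P → (ℓ : ℤ) ∣ od (kb k K) P (D.t a * (D.t b)⁻¹) ∨
      ¬ (ℓ : ℤ) ∣ od (kb k K) P (D.prod ε) := by
    intro P hP
    rw [← om_eq_zero, ← om_eq_zero]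
    by_cases hPO : P ∈ OMF hF h
    · have h1 := D.om_prod ε ⟨P, hPO⟩
      rw [hε, mul_zero, sub_zero] at h1
      by_cases h2 : (⟨P, hPO⟩ : OMF hF h) = a
      · right
        rw [h1, h2]
        exact ha
      · by_cases h3 : (⟨P, hPO⟩ : OMF hF h) = b
        · right
          rw [h1, h3]
          exact hb
        · left
          rw [homt P hP]
          have h4 := D.ord a ⟨P, hPO⟩
          have h5 := D.ord b ⟨P, hPO⟩
          have h6 : P ≠ (a : ValuationSubring F) := fun h => h2 (Subtype.ext h)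
          have h7 : P ≠ (b : ValuationSubring F) := fun h => h3 (Subtype.ext h)
          rw [dl_ne h6] at h4
          rw [dl_ne h7] at h5
          rw [h4, h5, sub_self]
    · left
      rw [homt P hP, D.out a P hP hPO, D.out b P hP hPO, sub_self]
  have hac : IsAlgClosed (Om K) := inferInstance
  obtain ⟨U, hU⟩ := IsAlgClosed.exists_pow_nat_eq ((D.prod ε : F) : Om K) hpos
  obtain ⟨ρ, hρ⟩ := IsAlgClosed.exists_pow_nat_eq ((D.t a * (D.t b)⁻¹ : F) : Om K) hpos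
  refine (fix_root_of hF (D.t a * (D.t b)⁻¹) (D.prod ε) ht hu U hU hord ρ hρ).mono ?_
  intro x hx c y₁ hw τ hτ ζ hζ w hwt hsum
  have hζ1 : ζ ^ ℓ = 1 := hζ.pow_eq_one
  have hUM : U ∈ x.p.M := root_ram hF hh hw (D.prod ε) hu
    (fun P hP hPO => (om_eq_zero P _).1 (D.out_prod ε P hP hPO)) U hU
  have h1 := D.wt_prod hζ1 hwt ε
  rw [hsum] at h1
  have h2 := hx hUM τ hτ (Wt.fix hτ h1 U hU)
  have h3 : Wt x τ ζ ((D.t a * (D.t b)⁻¹ : F) : Om K) 0 := Wt.of_fix ρ hρ h2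
  have h4 : Wt x τ ζ ((D.t a * (D.t b)⁻¹ : F) : Om K) (w a + -(w b)) :=
    Wt.mul hζ1 (hwt a) (Wt.inv hζ1 (hwt b))
  have h5 : ((D.t a * (D.t b)⁻¹ : F) : Om K) ≠ 0 := fun h => ht (Subtype.ext h)
  have h6 := Wt.unique hζ h5 hτ h4 h3
  linear_combination h6


end GT
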