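import Mathlib
import Pool.Agent.MP_c1dca2_ag.GT.Base
import Pool.Agent.MP_c1dca2_ag.GE.H0
import Pool.Agent.MP_c1dca2_ag.GT.Kv
import Pool.Agent.MP_c1dca2_ag.GT.P0
import Pool.Agent.MP_c1dca2_ag.GT.P8a

set_option autoImplicit false
set_option linter.unusedVariables false

open IsLocalRing

namespace GT

/-! ## [GT-H1d] orders of functions -/

variable {C N N' : Type} [Field C] [Field N] [Algebra C N] [Field N'] [Algebra C N']

/-- Moving a place by an automorphism which preserves the constants.

Proof. `IsPl`: `e.symm` preserves the constants (`hC'`); `mv e P = ⊤` would give `P = ⊤`. The order `fun z => od C P (e.symm z)` is an order at `mv e P` (`IsOrd.map` of Kv, or directly), so `ord_unique` (P8a) with `od_spec`. -/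
theorem mv_spec [CharZero C] [IsAlgClosed C] (hF : FF C N) (e : N ≃+* N)
    (hC : ∀ c : C, ∃ c' : C, e (algebraMap C N c) = algebraMap C N c')
    (hC' : ∀ c : C, ∃ c' : C, e.symm (algebraMap C N c) = algebraMap C N c')
    {P : ValuationSubring N} (hP : IsPl C P) :
    IsPl C (mv e P) ∧ ∀ z : N, z ≠ 0 → od C (mv e P) z = od C P (e.symm z) := by
  have h1 : IsPl C (mv e P) := by
    refine ⟨fun c => ?_, fun htop => hP.2 ?_⟩
    · rw [mem_mv]
      obtain ⟨c', hc'⟩ := hC' c
      rw [hc']
      exact hP.1 c'
    · rw [eq_top_iff]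
      intro w _
      have h2 : e w ∈ mv e P := by
        rw [htop]
        exact ValuationSubring.mem_top _
      rwa [mem_mv, RingEquiv.symm_apply_apply] at h2
  refine ⟨h1, fun z hz => ?_⟩
  have h2 : IsOrd C (mv e P) (fun z => od C P (e.symm z)) :=
    IsOrd.map (od_spec hF hP) e hC fun z => by rw [mem_mv, RingEquiv.symm_apply_apply]
  exact ord_unique (od_spec hF h1) h2 hz

end GT
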