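import Mathlib
import Pool.Agent.MP_c1dca2_ag.GT.Base
import Pool.Agent.MP_c1dca2_ag.GE.H0
import Pool.Agent.MP_c1dca2_ag.GE.H1b
import Pool.Agent.MP_c1dca2_ag.GE.H1d
import Pool.Agent.MP_c1dca2_ag.GE.H6d
import Pool.Agent.MP_c1dca2_ag.GT.K0
import Pool.Agent.MP_c1dca2_ag.GT.P0
import Pool.Agent.MP_c1dca2_ag.GE.Q0
import Pool.Agent.MP_c1dca2_ag.SC2.B1
import Pool.Agent.MP_c1dca2_ag.SEC.Defs
import Pool.Agent.MP_c1dca2_ag.SEC.S

set_option autoImplicit false
set_option linter.unusedVariables false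

open IsLocalRing

namespace GT

/-! ## [GT-H7a] the action of Frobenius, the core of the argument -/

variable {k K : Type} [Field k] [Field K] [Algebra k K] {ℓ : ℕ} [hℓ : Fact ℓ.Prime]
  {F : IntermediateField (kb k K) (Om K)}

theorem h7a_kb (σ : Om K ≃ₐ[K] Om K) (c : kb k K) : σ (c : Om K) ∈ kb k K := by
  have h1 : IsAlgebraic k (c : Om K) := mem_algebraicClosure_iff.1 c.2
  exact mem_algebraicClosure_iff.2 (IsAlgebraic.algHom ((σ.restrictScalars k : Om K ≃ₐ[k] Om K) : Om K →ₐ[k] Om K) h1)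

theorem h7a_const (hF : Fd ℓ F) (σ : Om K ≃ₐ[K] Om K) (c : kb k K) :
    ∃ c' : kb k K, res hF.stab σ (algebraMap (kb k K) F c) = algebraMap (kb k K) F c' :=
  ⟨⟨σ (c : Om K), h7a_kb σ c⟩, Subtype.ext rfl⟩

theorem h7a_const' (hF : Fd ℓ F) (σ : Om K ≃ₐ[K] Om K) (c : kb k K) :
    ∃ c' : kb k K, (res hF.stab σ).symm (algebraMap (kb k K) F c) = algebraMap (kb k K) F c' :=
  ⟨⟨σ.symm (c : Om K), h7a_kb σ.symm c⟩, Subtype.ext rfl⟩

/-- Proof. `mv_spec` (H1d) for `e = res hF.stab σ`: it maps constants to constants, because `σ` maps `kb k K` to itself (elements algebraic over `k`), also `σ.symm`. -/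
theorem mvF_spec [CharZero k] (hF : Fd ℓ F) (σ : Om K ≃ₐ[K] Om K) {P : ValuationSubring F}
    (hP : IsPl (kb k K) P) : IsPl (kb k K) (mv (res hF.stab σ) P) ∧
      ∀ z : F, z ≠ 0 → om ℓ (mv (res hF.stab σ) P) (res hF.stab σ z) = om ℓ P z := by
  have hac : IsAlgClosed (kb k K) := SC2.kb_isAlgClosed
  obtain ⟨h1, h2⟩ := mv_spec hF.ff (res hF.stab σ) (h7a_const hF σ) (h7a_const' hF σ) hP
  refine ⟨h1, fun z hz => ?_⟩
  have h3 := h2 (res hF.stab σ z) ((map_ne_zero (res hF.stab σ)).2 hz)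
  rw [om, om, h3, RingEquiv.symm_apply_apply]

/-- Proof. `mvF_spec` for `z = hF.emb h`, which is fixed by `res hF.stab σ`; `mem_OM_iff` (H1b), `om_eq_zero`. For the converse use `σ.symm` (`mv (res σ.symm) (mv (res σ) P) = P`). -/
theorem mv_mem_OM [CharZero k] (hF : Fd ℓ F) {h : K} (hh : h ≠ 0) (σ : Om K ≃ₐ[K] Om K)
    {P : ValuationSubring F} (hP : IsPl (kb k K) P) :
    mv (res hF.stab σ) P ∈ OMF hF h ↔ P ∈ OMF hF h := by
  have hac : IsAlgClosed (kb k K) := SC2.kb_isAlgClosed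
  have hne : hF.emb h ≠ 0 := by
    intro h0
    have h1 : algebraMap K (Om K) h = 0 := congrArg Subtype.val h0
    exact hh ((map_eq_zero _).1 h1)
  have hfix : res hF.stab σ (hF.emb h) = hF.emb h := Subtype.ext (σ.commutes h)
  obtain ⟨h1, h2⟩ := mvF_spec hF σ hP
  have h3 := h2 (hF.emb h) hne
  rw [hfix] at h3
  rw [mem_OM_iff hF.ff hne, mem_OM_iff hF.ff hne, ← om_eq_zero, ← om_eq_zero, h3]
  exact ⟨fun h => ⟨hP, h.2⟩, fun h => ⟨h1, h.2⟩⟩

/-- Proof. `z` is algebraic over `K`, `σ z` is a root of its minimal polynomial (`minpoly.aeval`, `AlgEquiv`), a finite set. -/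
theorem conj_finite (hF : Fd ℓ F) (z : F) :
    {z' : F | ∃ σ : Om K ≃ₐ[K] Om K, z' = res hF.stab σ z}.Finite := by
  have hint : IsIntegral K (z : Om K) := (Algebra.IsAlgebraic.isAlgebraic (z : Om K)).isIntegral
  have hfin : {w : Om K | w ∈ (minpoly K (z : Om K)).rootSet (Om K)}.Finite :=
    (minpoly K (z : Om K)).rootSet_finite (Om K)
  refine Set.Finite.of_finite_image (f := fun z' : F => (z' : Om K)) (hfin.subset ?_) ?_
  · rintro w ⟨z', ⟨σ, rfl⟩, rfl⟩
    show σ (z : Om K) ∈ (minpoly K (z : Om K)).rootSet (Om K)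
    rw [Polynomial.mem_rootSet]
    refine ⟨minpoly.ne_zero hint, ?_⟩
    have h1 := Polynomial.aeval_algHom_apply (σ : Om K →ₐ[K] Om K) (z : Om K) (minpoly K (z : Om K))
    rw [minpoly.aeval, map_zero] at h1
    exact h1
  · exact fun a _ b _ hab => Subtype.ext hab

variable {hF : Fd ℓ F} {h : K} [Fintype (OMF hF h)]

end GT
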