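import Mathlib
import Pool.Agent.MP_c1dca2_ag.GT.Base
import Pool.Agent.MP_c1dca2_ag.GE.H0
import Pool.Agent.MP_c1dca2_ag.GE.H1b
import Pool.Agent.MP_c1dca2_ag.GE.H3a
import Pool.Agent.MP_c1dca2_ag.GE.H3b
import Pool.Agent.MP_c1dca2_ag.GE.H4a
import Pool.Agent.MP_c1dca2_ag.GE.H5a
import Pool.Agent.MP_c1dca2_ag.GE.H6a
import Pool.Agent.MP_c1dca2_ag.GE.H6c
import Pool.Agent.MP_c1dca2_ag.GE.H6d
import Pool.Agent.MP_c1dca2_ag.GE.H6e
import Pool.Agent.MP_c1dca2_ag.GE.H7a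
import Pool.Agent.MP_c1dca2_ag.GE.H7b
import Pool.Agent.MP_c1dca2_ag.GT.K0
import Pool.Agent.MP_c1dca2_ag.GT.P0
import Pool.Agent.MP_c1dca2_ag.GE.Q0
import Pool.Agent.MP_c1dca2_ag.GT.Y1
import Pool.Agent.MP_c1dca2_ag.SC2.AB
import Pool.Agent.MP_c1dca2_ag.SC2.B1
import Pool.Agent.MP_c1dca2_ag.SEC.Defs
import Pool.Agent.MP_c1dca2_ag.SEC.S
import Pool.Agent.MP_c1dca2_ag.SUP.Defs
import Pool.Agent.MP_c1dca2_ag.SUP.K3

set_option autoImplicit false
set_option linter.unusedVariables false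

open IsLocalRing

namespace GT

/-! ## [GT-H7c] the action of Frobenius, the core of the argument -/

variable {k K : Type} [Field k] [Field K] [Algebra k K] {k' : IntermediateField k (kb k K)} {ℓ : ℕ} [hℓ : Fact ℓ.Prime]
  {F : IntermediateField (kb k K) (Om K)}

variable {hF : Fd ℓ F} {h : K} [Fintype (OMF hF h)]

theorem h7c_card {x : Loc k K ℓ} : (Nat.card (ResidueField x.A)).Coprime ℓ := by
  have hfin := x.fin
  refine y1_coprime_card hℓ.out ?_
  have hne : ((ℓ : ℕ) : kb k K) ≠ 0 := by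
    intro h0
    have h1 := x.hℓ
    rw [h0, map_zero] at h1
    exact zero_ne_one h1
  have h2 : (((ℓ : ℕ) : kb k K))⁻¹ ∈ x.V := by
    rw [← x.V.valuation_le_one_iff, map_inv₀, x.hℓ, inv_one]
  have h3 : (((ℓ : ℕ) : x.k'))⁻¹ ∈ x.A := by
    rw [← x.above, map_inv₀, map_natCast]
    exact h2
  have hk : ((ℓ : ℕ) : x.k') ≠ 0 := by
    intro h0
    apply hne
    rw [← map_natCast (algebraMap x.k' (kb k K)), h0, map_zero]
  have h4 : IsUnit ((ℓ : ℕ) : x.A) := by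
    refine IsUnit.of_mul_eq_one ⟨_, h3⟩ (Subtype.ext ?_)
    show (((ℓ : ℕ) : x.A) : x.k') * ((ℓ : ℕ) : x.k')⁻¹ = 1
    have h5 : (((ℓ : ℕ) : x.A) : x.k') = ((ℓ : ℕ) : x.k') := rfl
    rw [h5]
    exact mul_inv_cancel₀ hk
  have h6 : IsUnit (residue x.A ((ℓ : ℕ) : x.A)) := h4.map _
  rw [map_natCast] at h6
  exact h6.ne_zero

/-- The core, at least three ramification points.

Proof. `OM` is nonempty: `D` (`exists_Td`). Take the intersection of the following `AA`s: `hkey` (H6) for all `ε` with `∑ ε = 0` and all `a`, `b` (finite types, `AA.all`; for `ε` not satisfying the conditions `AA.of`), `perm_w`, `weights` (H6) for `t = hF.emb h` (orders outside `OM` are `0` by `mem_OM_iff`), `fix_root` (H5) for `D.t D.o` (all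
orders are `0`: `D.ord`, `D.out`) and `hF.fix (D.t i)` for all `i`. Let `x` be such a place. `exists_tau_of` (H4): `τ`. A primitive root of unity `ζ` of `kb k K` (algebraically closed, characteristic `0`: `y1_exists_zeta` or `HasEnoughRootsOfUnity.exists_primitiveRoot`). Roots `ρ i` of the `D.t i` are in `M` by `root_ram` (H3), so there are `w i` with
`Wt (D.t i) (w i)` (`Wt.exists`). `w D.o = 0` (`fix_root`, `Wt.of_fix`, `Wt.unique`). `w` is not constant: otherwise `w = 0` and `Wt h 0` by `weights`, contradiction to `Wt.h_ne` (H4). `q` = the number of elements of the residue field of `x.A` is prime to `ℓ` (`y1_coprime_card`: `(ℓ : ResidueField A) ≠ 0` because `x.V.valuation ℓ = 1`, `x.above`). `π i := mv (res hF.stab σ) i`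
(`mv_mem_OM`), injective (`mv_inj`). `SUP.comb_fix` (K3): `π i₀ = i₀`. -/
theorem core_ge3 [CharZero k] (hh : h ≠ 0) (h3 : 3 ≤ Fintype.card (OMF hF h)) :
    AA (fun x : Loc k K ℓ => ∀ (c : k) (y₁ : Om K), Tw x h c y₁ →
      ∀ φ : kb k K ≃ₐ[x.k'] kb k K, Frob (Nat.card (ResidueField x.A)) x.V φ →
      ∀ σ : Om K ≃ₐ[K] Om K, (∀ z : x.p.M, σ (z : Om K) = ((x.p.toHom φ z : x.p.M) : Om K)) →
        ∃ P ∈ OMF hF h, mv (res hF.stab σ) P = P) := by
  classical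
  have hac : IsAlgClosed (kb k K) := SC2.kb_isAlgClosed
  have hnon : Nonempty (OMF hF h) := Fintype.card_pos_iff.1 (by omega)
  obtain ⟨P0⟩ := hnon
  obtain ⟨D⟩ := exists_Td hF (P0 : ValuationSubring F) P0.2
  have hne : hF.emb h ≠ 0 := by
    intro h0
    have h1 : algebraMap K (Om K) h = 0 := congrArg Subtype.val h0
    exact hh ((map_eq_zero _).1 h1)
  have hA1 : AA (fun x : Loc k K ℓ => ∀ ε : OMF hF h → ZMod ℓ, ∀ a b : OMF hF h,
      ∑ i, ε i = 0 → ε a ≠ 0 → ε b ≠ 0 → ∀ (c : k) (y₁ : Om K), Tw x h c y₁ → ∀ τ, Iner x.V τ →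
      ∀ ζ : kb k K, IsPrimitiveRoot ζ ℓ → ∀ w : OMF hF h → ZMod ℓ,
        (∀ i, Wt x τ ζ (D.t i : F) (w i)) → ∑ i, ε i * w i = 0 → w a = w b) := by
    have hfin : Finite (OMF hF h → ZMod ℓ) := inferInstance
    refine AA.all fun ε => AA.all fun a => AA.all fun b => ?_
    by_cases h1 : ∑ i, ε i = 0
    · by_cases h2 : ε a ≠ 0
      · by_cases h3 : ε b ≠ 0
        · exact (hkey hh D ε h1 a b h2 h3).mono fun x hx _ _ _ => hx
        · exact AA.of fun x _ _ h3' => absurd h3' h3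
      · exact AA.of fun x _ h2' => absurd h2' h2
    · exact AA.of fun x h1' => absurd h1' h1
  have hA2 := perm_w hh D
  have hA3 := weights D hne (t := hF.emb h) (by
    intro O hO hOM
    rw [om_eq_zero]
    by_contra hd
    exact hOM ((mem_OM_iff hF.ff hne O).2 ⟨hO, hd⟩))
  have hroot : ∀ i : OMF hF h, ∃ ρ : Om K, ρ ^ ℓ = ((D.t i : F) : Om K) := fun i =>
    IsAlgClosed.exists_pow_nat_eq _ hℓ.out.pos
  choose ρ hρ using hroot
  have hA4 := fix_root hF (D.t D.o) (D.ne D.o) (by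
    intro P hP
    rw [← om_eq_zero]
    by_cases hPM : P ∈ OMF hF h
    · have h1 := D.ord D.o ⟨P, hPM⟩
      rw [sub_self] at h1
      exact h1
    · exact D.out D.o P hP hPM) (ρ D.o) (hρ D.o)
  have hA5 : AA (fun x : Loc k K ℓ => ∀ i : OMF hF h, ∀ τ, Iner x.V τ → x.p.Fix τ (D.t i : F)) :=
    AA.all fun i => hF.fix _ (D.t i).2
  refine (hA1.and (hA2.and (hA3.and (hA4.and hA5)))).mono ?_
  rintro x ⟨hx1, hx2, hx3, hx4, hx5⟩ c y₁ hTw φ hφ σ hσ
  obtain ⟨τ, hτ, hm⟩ := exists_tau_of hTw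
  obtain ⟨ζ', hζ, -⟩ := y1_exists_zeta (ℓ := ℓ) x.hℓ
  set ζ : kb k K := (ζ' : kb k K) with hζdef
  have ht0 : ∀ i : OMF hF h, ((D.t i : F) : Om K) ≠ 0 := fun i h0 => D.ne i (Subtype.ext h0)
  have hM : ∀ i : OMF hF h, ρ i ∈ x.p.M := fun i =>
    root_ram hF hh hTw (D.t i) (D.ne i) (fun P hP hPM => (om_eq_zero P _).1 (D.out i P hP hPM))
      (ρ i) (hρ i)
  have hwex : ∀ i : OMF hF h, ∃ w, Wt x τ ζ (D.t i : F) w := fun i =>
    Wt.exists hζ (ht0 i) (hx5 i τ hτ) (ρ i) (hρ i) (hM i)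
  choose w hw using hwex
  have hwo : w D.o = 0 := Wt.unique hζ (ht0 D.o) hτ (hw D.o) (Wt.of_fix (ρ D.o) (hρ D.o) (hx4 τ hτ))
  have hnc : ∃ i j, w i ≠ w j := by
    by_contra hcon
    push Not at hcon
    have h0 : ∀ i, w i = 0 := fun i => (hcon i D.o).trans hwo
    have h1 := hx3 τ hτ ζ hζ.pow_eq_one w hw
    have h2 : ∑ i : OMF hF h, om ℓ (i : ValuationSubring F) (hF.emb h) * w i = 0 :=
      Finset.sum_eq_zero fun i _ => by rw [h0 i, mul_zero]
    rw [h2] at h1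
    exact Wt.h_ne hh hTw hτ hm h1 rfl
  let π : OMF hF h → OMF hF h := fun i =>
    ⟨mv (res hF.stab σ) (i : ValuationSubring F), (mv_mem_OM hF hh σ i.2.1).2 i.2⟩
  have hπinj : Function.Injective π := by
    intro i j hij
    exact Subtype.ext (mv_inj (congrArg Subtype.val hij))
  have hperm := hx2 _ h7c_card φ hφ σ hσ π (fun i => rfl) τ hτ ζ hζ w hw
  obtain ⟨i₀, hi₀⟩ := SUP.comb_fix h3 w hnc
    (fun ε h1 h2 a b ha hb => hx1 ε a b h1 ha hb c y₁ hTw τ hτ ζ hζ w hw h2) π hπinj hperm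
  exact ⟨i₀, i₀.2, congrArg Subtype.val hi₀⟩

end GT
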