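import Mathlib
import Pool.Agent.MP_c1dca2_ag.GT.Base
import Pool.Agent.MP_c1dca2_ag.GE.H0
import Pool.Agent.MP_c1dca2_ag.GE.H1b
import Pool.Agent.MP_c1dca2_ag.GE.H6d
import Pool.Agent.MP_c1dca2_ag.GE.H7c
import Pool.Agent.MP_c1dca2_ag.GE.H8a
import Pool.Agent.MP_c1dca2_ag.GE.Q0
import Pool.Agent.MP_c1dca2_ag.SC2.AB
import Pool.Agent.MP_c1dca2_ag.SC2.B1
import Pool.Agent.MP_c1dca2_ag.SEC.Defs
import Pool.Agent.MP_c1dca2_ag.SEC.S
import Pool.Agent.MP_c1dca2_ag.SUP.Defs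

set_option autoImplicit false
set_option linter.unusedVariables false

open IsLocalRing

namespace GT

/-! ## [GT-H8b] few ramification points -/

variable {k K : Type} [Field k] [Field K] [Algebra k K] {k' : IntermediateField k (kb k K)} {ℓ : ℕ} [hℓ : Fact ℓ.Prime]
  {F : IntermediateField (kb k K) (Om K)} {hF : Fd ℓ F} {h : K} [Fintype (OMF hF h)]

omit [Fintype (OMF hF h)] in
theorem core [CharZero k] (hh : h ≠ 0) (h2 : ¬ (ℓ = 2 ∧ (OMF hF h).ncard = 2)) :
    AA (fun x : Loc k K ℓ => ∀ (c : k) (y₁ : Om K), Tw x h c y₁ →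
      ∀ φ : kb k K ≃ₐ[x.k'] kb k K, Frob (Nat.card (ResidueField x.A)) x.V φ →
      ∀ σ : Om K ≃ₐ[K] Om K, (∀ z : x.p.M, σ (z : Om K) = ((x.p.toHom φ z : x.p.M) : Om K)) →
        ∃ P ∈ OMF hF h, mv (res hF.stab σ) P = P) := by
  have hac : IsAlgClosed (kb k K) := SC2.kb_isAlgClosed
  have hh' : hF.emb h ≠ 0 := by
    intro h0
    apply hh
    have h1 := congrArg (fun z : F => (z : Om K)) h0
    exact (map_eq_zero (algebraMap K (Om K))).1 h1
  have hfin : (OMF hF h).Finite := OM_finite hF.ff hh'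
  have := hfin.fintype
  have hcard : (OMF hF h).ncard = Fintype.card (OMF hF h) := by
    rw [← Nat.card_coe_set_eq, Nat.card_eq_fintype_card]
  rw [hcard] at h2
  rcases Nat.lt_or_ge (Fintype.card (OMF hF h)) 3 with h3 | h3
  · have h4 : Fintype.card (OMF hF h) = 0 ∨ Fintype.card (OMF hF h) = 1 ∨
        Fintype.card (OMF hF h) = 2 := by omega
    rcases h4 with h4 | h4 | h4
    · exact (core_0 hh h4).mono fun x hx c y₁ hw => absurd hw (hx c y₁)
    · exact absurd h4 (core_1 hh)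
    · exact AA.of fun x c y₁ _ φ _ σ _ => core_2 hh h4 (fun h5 => h2 ⟨h5, h4⟩) σ
  · exact core_ge3 hh h3

end GT
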