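import Mathlib
import Pool.Agent.MP_c1dca2_ag.GE.Q0
import Pool.Agent.MP_c1dca2_ag.SEC.Defs
import Pool.Agent.MP_c1dca2_ag.SEC.S

set_option autoImplicit false
set_option linter.unusedVariables false

open IsLocalRing

namespace GT

/-! ## [GT-H9a] the local theorem -/

variable {k K : Type} [Field k] [Field K] [Algebra k K] {k' : IntermediateField k (kb k K)} {ℓ : ℕ} [hℓ : Fact ℓ.Prime]

/-- The automorphism of `Ω` given by a partial section.

Proof. `p.toHom σ` is a `K`-automorphism of `p.M`, `Om K` is normal over `K`: `AlgEquiv.liftNormal`, `AlgEquiv.liftNormal_commutes`. -/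
theorem PS.exists_lift (p : PS k K k') (φ : kb k K ≃ₐ[k'] kb k K) : ∃ σ : Om K ≃ₐ[K] Om K,
    ∀ z : p.M, σ (z : Om K) = ((p.toHom φ z : p.M) : Om K) := by
  have hN : Normal K (Om K) := inferInstance
  refine ⟨(p.toHom φ).liftNormal (Om K), fun z => ?_⟩
  exact AlgEquiv.liftNormal_commutes (p.toHom φ) (Om K) z

end GT
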