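import Mathlib
import Pool.Agent.MP_c1dca2_ag.GT.Base
import Pool.Agent.MP_c1dca2_ag.GT.E2a
import Pool.Agent.MP_c1dca2_ag.GT.E2d
import Pool.Agent.MP_c1dca2_ag.GE.H0
import Pool.Agent.MP_c1dca2_ag.GE.H1b
import Pool.Agent.MP_c1dca2_ag.GE.H2c
import Pool.Agent.MP_c1dca2_ag.GE.H2e
import Pool.Agent.MP_c1dca2_ag.GE.H8b
import Pool.Agent.MP_c1dca2_ag.GE.H9a
import Pool.Agent.MP_c1dca2_ag.GE.H9d
import Pool.Agent.MP_c1dca2_ag.GT.P0
import Pool.Agent.MP_c1dca2_ag.GE.Q0
import Pool.Agent.MP_c1dca2_ag.SC2.AB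
import Pool.Agent.MP_c1dca2_ag.SC2.B1
import Pool.Agent.MP_c1dca2_ag.SEC.Defs
import Pool.Agent.MP_c1dca2_ag.SEC.S
import Pool.Agent.MP_c1dca2_ag.SUP.Defs

set_option autoImplicit false
set_option linter.unusedVariables false

open IsLocalRing

namespace GT

/-! ## [GT-G1] comparison of the two models `LL` and `Lg` of the field `k^alg K` -/

variable {k K : Type} [Field k] [Field K] [Algebra k K] {k' : IntermediateField k (kb k K)}

theorem lg_mem_LL (z : Lg k K) : (z : Om K) ∈ LL k K := by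
  refine lg_ind (p := fun z => (z : Om K) ∈ LL k K) ?_ ?_ ?_ ?_ ?_ z
  · intro a
    rw [algCL_coe]
    exact (LL k K).algebraMap_mem a
  · intro a
    rw [algKL_coe]
    exact LL_base a
  · intro x y hx hy
    exact (LL k K).add_mem hx hy
  · intro x y hx hy
    exact (LL k K).mul_mem hx hy
  · intro x hx
    exact (LL k K).inv_mem hx

theorem LL_mem_lg {z : Om K} (hz : z ∈ LL k K) : z ∈ Lg k K := by
  unfold LL at hz
  induction hz using IntermediateField.adjoin_induction with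
  | mem x hx =>
    obtain ⟨a, rfl⟩ := hx
    exact (Lg k K).algebraMap_mem a
  | algebraMap a => exact IntermediateField.subset_adjoin K _ a.2
  | add x y _ _ h1 h2 => exact (Lg k K).add_mem h1 h2
  | inv x _ h1 => exact (Lg k K).inv_mem h1
  | mul x y _ _ h1 h2 => exact (Lg k K).mul_mem h1 h2

/-- The isomorphism of the two models. -/
noncomputable def lgE (k K : Type) [Field k] [Field K] [Algebra k K] : Lg k K ≃+* LL k K where
  toFun := fun z => ⟨z.1, lg_mem_LL z⟩
  invFun := fun z => ⟨z.1, LL_mem_lg z.2⟩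
  left_inv := fun z => Subtype.ext rfl
  right_inv := fun z => Subtype.ext rfl
  map_mul' := fun a b => Subtype.ext (IntermediateField.coe_mul (S := Lg k K) a b)
  map_add' := fun a b => Subtype.ext (IntermediateField.coe_add (S := Lg k K) a b)

theorem lgE_apply (z : Lg k K) : lgE k K z = ⟨z.1, lg_mem_LL z⟩ := rfl

theorem lgE_symm_apply (z : LL k K) : (lgE k K).symm z = ⟨z.1, LL_mem_lg z.2⟩ := rfl

theorem lgE_kb (a : kb k K) : lgE k K (algebraMap (kb k K) (Lg k K) a) =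
    algebraMap (kb k K) (LL k K) a := by
  rw [lgE_apply]
  apply Subtype.ext
  rfl

theorem lgE_K (a : K) : lgE k K (algebraMap K (Lg k K) a) =
    ⟨algebraMap K (Om K) a, LL_base a⟩ := by
  rw [lgE_apply]
  apply Subtype.ext
  rfl

theorem lgE_symm_kb (a : kb k K) : (lgE k K).symm (algebraMap (kb k K) (LL k K) a) =
    algebraMap (kb k K) (Lg k K) a := by
  rw [← lgE_kb, RingEquiv.symm_apply_apply]

theorem lgE_symm_K (a : K) : (lgE k K).symm ⟨algebraMap K (Om K) a, LL_base a⟩ =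
    algebraMap K (Lg k K) a := by
  rw [← lgE_K, RingEquiv.symm_apply_apply]

section transport

variable {L L' : Type} [Field L] [Field L'] (e : L ≃+* L') (P : ValuationSubring L')

theorem g1_nonunits (z : L) : z ∈ (P.comap (e : L →+* L')).nonunits ↔ e z ∈ P.nonunits := by
  rw [ValuationSubring.mem_nonunits_iff_or, ValuationSubring.mem_nonunits_iff_or,
    ValuationSubring.mem_comap, ← map_inv₀ e]
  simp

theorem g1_le (a b : L) : (P.comap (e : L →+* L')).valuation a ≤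
    (P.comap (e : L →+* L')).valuation b ↔ P.valuation (e a) ≤ P.valuation (e b) := by
  rw [ValuationSubring.valuation_le_iff, ValuationSubring.valuation_le_iff]
  constructor
  · rintro ⟨⟨u, hu⟩, h⟩
    exact ⟨⟨e u, hu⟩, by rw [← h]; exact (map_mul e _ _).symm⟩
  · rintro ⟨⟨u, hu⟩, h⟩
    refine ⟨⟨e.symm u, by rw [ValuationSubring.mem_comap]; simpa using hu⟩, ?_⟩
    apply e.injective
    rw [← h, map_mul, RingEquiv.apply_symm_apply]

theorem g1_eq (a b : L) : (P.comap (e : L →+* L')).valuation a =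
    (P.comap (e : L →+* L')).valuation b ↔ P.valuation (e a) = P.valuation (e b) := by
  rw [le_antisymm_iff, le_antisymm_iff, g1_le, g1_le]

end transport

/-- The place of `Lg` corresponding to a place of `LL`. -/
noncomputable def plE (P : ValuationSubring (LL k K)) : ValuationSubring (Lg k K) :=
  P.comap ((lgE k K : Lg k K ≃+* LL k K) : Lg k K →+* LL k K)

/-- The place of `LL` corresponding to a place of `Lg`. -/
noncomputable def plE' (P : ValuationSubring (Lg k K)) : ValuationSubring (LL k K) :=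
  P.comap ((lgE k K).symm : LL k K →+* Lg k K)

theorem mem_plE {P : ValuationSubring (LL k K)} {z : Lg k K} : z ∈ plE P ↔ lgE k K z ∈ P :=
  ValuationSubring.mem_comap

theorem mem_plE' {P : ValuationSubring (Lg k K)} {z : LL k K} :
    z ∈ plE' P ↔ (lgE k K).symm z ∈ P := ValuationSubring.mem_comap

theorem plE_plE' (P : ValuationSubring (Lg k K)) : plE (plE' P) = P := by
  ext z
  rw [mem_plE, mem_plE', RingEquiv.symm_apply_apply]

theorem plE'_plE (P : ValuationSubring (LL k K)) : plE' (plE P) = P := by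
  ext z
  rw [mem_plE', mem_plE, RingEquiv.apply_symm_apply]

theorem plE_eq {P : ValuationSubring (LL k K)} (a b : Lg k K) :
    (plE P).valuation a = (plE P).valuation b ↔
      P.valuation (lgE k K a) = P.valuation (lgE k K b) := g1_eq _ _ _ _

theorem plE'_eq {P : ValuationSubring (Lg k K)} (a b : LL k K) :
    (plE' P).valuation a = (plE' P).valuation b ↔
      P.valuation ((lgE k K).symm a) = P.valuation ((lgE k K).symm b) := g1_eq _ _ _ _

/-- Branch points in `LL` give branch points in `Lg`. -/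
theorem br_of_ram {ℓ : ℕ} {h : K} {P : ValuationSubring (LL k K)} (hP : P ∈ Ram k ℓ h) :
    plE P ∈ Br k K ℓ h := by
  obtain ⟨⟨h1, h2⟩, h3⟩ := hP
  refine ⟨⟨fun c => ?_, fun htop => h2 ?_⟩, fun z hz => ?_⟩
  · rw [mem_plE, lgE_kb]
    exact h1 c
  · ext z
    refine ⟨fun _ => trivial, fun _ => ?_⟩
    rw [← plE'_plE P, mem_plE', htop]
    trivial
  · rw [← map_pow, plE_eq, map_pow, map_pow, lgE_K] at hz
    exact h3 _ hz

theorem ram_of_br {ℓ : ℕ} {h : K} {P : ValuationSubring (Lg k K)} (hP : P ∈ Br k K ℓ h) :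
    plE' P ∈ Ram k ℓ h := by
  obtain ⟨⟨h1, h2⟩, h3⟩ := hP
  refine ⟨⟨fun c => ?_, fun htop => h2 ?_⟩, fun z hz => ?_⟩
  · rw [mem_plE', lgE_symm_kb]
    exact h1 c
  · ext z
    refine ⟨fun _ => trivial, fun _ => ?_⟩
    rw [← plE_plE' P, mem_plE, htop]
    trivial
  · rw [← map_pow, plE'_eq, map_pow, map_pow, lgE_symm_K] at hz
    exact h3 _ hz

theorem ram_finite [CharZero k] {x : K} (hx : Transcendental k x)
    (hfin : FiniteDimensional (IntermediateField.adjoin k {x}) K) (ℓ : ℕ) [hℓ : Fact ℓ.Prime]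
    {h : K} (hh : h ≠ 0) : (Ram k ℓ h).Finite := by
  have hac : IsAlgClosed (kb k K) := SC2.kb_isAlgClosed
  have hh' : (⟨algebraMap K (Om K) h, LL_base h⟩ : LL k K) ≠ 0 := by
    intro h0
    have h1 : algebraMap K (Om K) h = 0 := congrArg Subtype.val h0
    exact hh ((map_eq_zero (algebraMap K (Om K))).1 h1)
  exact OM_finite (fd_LL ℓ hx hfin).ff hh'

theorem br_finite [CharZero k] {x : K} (hx : Transcendental k x)
    (hfin : FiniteDimensional (IntermediateField.adjoin k {x}) K) (ℓ : ℕ) [hℓ : Fact ℓ.Prime]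
    {h : K} (hh : h ≠ 0) : (Br k K ℓ h).Finite := by
  have h1 := (ram_finite hx hfin ℓ hh).image (plE (k := k) (K := K))
  refine h1.subset fun P hP => ?_
  exact ⟨plE' P, ram_of_br hP, plE_plE' P⟩

/-- The numbers of branch points in the two models agree. -/
theorem br_ncard {ℓ : ℕ} {h : K} : (Ram k ℓ h).ncard = (Br k K ℓ h).ncard := by
  apply Set.ncard_congr (fun P _ => plE P)
  · intro P hP
    exact br_of_ram hP
  · intro P P' hP hP' hPP
    rw [← plE'_plE P, ← plE'_plE P', hPP]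
  · intro P hP
    exact ⟨plE' P, ram_of_br hP, plE_plE' P⟩

/-- An automorphism of `Ω` fixing a place of `LL` gives an automorphism of `Lg` fixing the
corresponding place. -/
theorem lg_of_mvL {P : ValuationSubring (LL k K)} (σ : Om K ≃ₐ[K] Om K) (hσ : mvL σ P = P)
    {φ : kb k K ≃ₐ[k'] kb k K} (hφ : ∀ z : kb k K, σ (z : Om K) = ((φ z : kb k K) : Om K)) :
    ∃ γ : Lg k K ≃ₐ[K] Lg k K,
      (∀ a : kb k K, γ (algebraMap _ _ a) = algebraMap _ _ (φ a)) ∧
      ∀ z, γ z ∈ plE P ↔ z ∈ plE P := by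
  have hst : ∀ (σ : Om K ≃ₐ[K] Om K), ∀ z ∈ Lg k K, σ z ∈ Lg k K := fun σ z hz =>
    LL_mem_lg (LL_stab σ z (lg_mem_LL ⟨z, hz⟩))
  let γ : Lg k K ≃ₐ[K] Lg k K :=
    AlgEquiv.ofRingEquiv (f :=
      { toFun := fun z => ⟨σ z.1, hst σ z z.2⟩
        invFun := fun z => ⟨σ.symm z.1, hst σ.symm z z.2⟩
        left_inv := fun z => Subtype.ext (σ.symm_apply_apply _)
        right_inv := fun z => Subtype.ext (σ.apply_symm_apply _)
        map_mul' := fun a b => Subtype.ext (map_mul σ _ _)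
        map_add' := fun a b => Subtype.ext (map_add σ _ _) }) (fun z => Subtype.ext (σ.commutes z))
  refine ⟨γ, fun a => Subtype.ext (hφ a), fun z => ?_⟩
  have h1 : ∀ w : LL k K, res LL_stab σ w ∈ P ↔ w ∈ P := by
    intro w
    conv_lhs => rw [← hσ]
    change (res LL_stab σ).symm (res LL_stab σ w) ∈ P ↔ w ∈ P
    rw [RingEquiv.symm_apply_apply]
  have h2 : lgE k K (γ z) = res LL_stab σ (lgE k K z) := by
    rw [lgE_apply, lgE_apply]
    apply Subtype.ext
    rfl
  rw [mem_plE, mem_plE, h2]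
  exact h1 _

/-- The conclusion of the local theorem, in the form for `Lg` and `Br`. -/
def LB (k K : Type) [Field k] [Field K] [Algebra k K] (ℓ : ℕ) (h : K) (x : Loc k K ℓ) : Prop :=
  ∀ (c : k) (y₁ : Om K), Tw x h c y₁ →
    ∀ φ : kb k K ≃ₐ[x.k'] kb k K, Frob (Nat.card (ResidueField x.A)) x.V φ →
      ∃ P ∈ Br k K ℓ h, ∃ γ : Lg k K ≃ₐ[K] Lg k K,
        (∀ a : kb k K, γ (algebraMap _ _ a) = algebraMap _ _ (φ a)) ∧ ∀ z, γ z ∈ P ↔ z ∈ P

/-- From the core theorem. -/
theorem lb_of_core {ℓ : ℕ} [hℓ : Fact ℓ.Prime] {h : K}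
    (hcore : AA (fun x : Loc k K ℓ => ∀ (c : k) (y₁ : Om K), Tw x h c y₁ →
      ∀ φ : kb k K ≃ₐ[x.k'] kb k K, Frob (Nat.card (ResidueField x.A)) x.V φ →
      ∀ σ : Om K ≃ₐ[K] Om K, (∀ z : x.p.M, σ (z : Om K) = ((x.p.toHom φ z : x.p.M) : Om K)) →
        ∃ P ∈ Ram k ℓ h, mvL σ P = P)) : AA (LB k K ℓ h) := by
  obtain ⟨S, hS⟩ := hcore
  refine ⟨S, fun x hx c y₁ hT φ hφ => ?_⟩
  obtain ⟨σ, hσ⟩ := x.p.exists_lift φ
  obtain ⟨P, hP, hPσ⟩ := hS x hx c y₁ hT φ hφ σ hσ
  refine ⟨_, br_of_ram hP, lg_of_mvL σ hPσ (fun z => ?_)⟩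
  have h1 := hσ (x.p.iota z)
  rw [x.p.toHom_iota] at h1
  exact h1

theorem lb_main [CharZero k] {ℓ : ℕ} [hℓ : Fact ℓ.Prime] {x : K} (hx : Transcendental k x)
    (hfin : FiniteDimensional (IntermediateField.adjoin k {x}) K) {h : K} (hh : h ≠ 0)
    (h2 : ¬ (ℓ = 2 ∧ (Br k K ℓ h).ncard = 2)) : AA (LB k K ℓ h) := by
  apply lb_of_core
  rw [← br_ncard] at h2
  exact core (hF := fd_LL ℓ hx hfin) hh h2

end GT
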