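import Mathlib
import Pool.Agent.MP_c1dca2_ag.GE.H0
import Pool.Agent.MP_c1dca2_ag.GT.P0
import Pool.Agent.MP_c1dca2_ag.GE.Q0
import Pool.Agent.MP_c1dca2_ag.SEC.Defs
import Pool.Agent.MP_c1dca2_ag.SEC.S

set_option autoImplicit false
set_option linter.unusedVariables false

open IsLocalRing

namespace GT

/-! ## [GT-J1d] the unramified cover given by the Galois orbit of `t₀` -/

variable {k K : Type} [Field k] [Field K] [Algebra k K] {ℓ : ℕ}

/-- `t₀` is not an `ℓ`-th power in `L = C K`, but all its orders are divisible by `ℓ`: it gives an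
unramified cyclic cover of `Y` of degree `ℓ`. -/
structure Unr (ℓ : ℕ) (t₀ : LL k K) : Prop where
  ne : t₀ ≠ 0
  val : ∀ P : ValuationSubring (LL k K), IsPl (kb k K) P →
    ∃ z : LL k K, P.valuation t₀ = P.valuation z ^ ℓ
  npow : ∀ z : LL k K, z ^ ℓ ≠ t₀

/-- The `ℓ`-th roots of the conjugates of `t₀`. -/
def R0 (ℓ : ℕ) (t₀ : LL k K) : Set (Om K) := {ρ | ∃ σ : Om K ≃ₐ[K] Om K, ρ ^ ℓ = σ (t₀ : Om K)}

/-- The field generated by `L` and the `ℓ`-th roots of the conjugates of `t₀`. -/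
noncomputable def L1 (ℓ : ℕ) (t₀ : LL k K) : IntermediateField (kb k K) (Om K) :=
  IntermediateField.adjoin (kb k K) ((LL k K : Set (Om K)) ∪ R0 ℓ t₀)

theorem L1_eq (t₀ : LL k K) :
    L1 ℓ t₀ = IntermediateField.adjoin (kb k K) ((LL k K : Set (Om K)) ∪ R0 ℓ t₀) := by
  unfold L1
  exact Eq.refl _

theorem subset_L1 (t₀ : LL k K) :
    ((LL k K : Set (Om K)) ∪ R0 ℓ t₀) ⊆ (L1 ℓ t₀ : Set (Om K)) :=
  IntermediateField.subset_adjoin (kb k K) ((LL k K : Set (Om K)) ∪ R0 ℓ t₀)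

theorem LL_le_L1 (t₀ : LL k K) : LL k K ≤ L1 ℓ t₀ := by
  intro z hz
  exact subset_L1 t₀ (Set.mem_union_left _ hz)

theorem R0_le_L1 (t₀ : LL k K) {ρ : Om K} (hρ : ρ ∈ R0 ℓ t₀) : ρ ∈ L1 ℓ t₀ :=
  subset_L1 t₀ (Set.mem_union_right _ hρ)

attribute [irreducible] L1

/-- The inclusion. -/
noncomputable def inc1 (ℓ : ℕ) (t₀ : LL k K) : LL k K →+* L1 ℓ t₀ :=
  (IntermediateField.inclusion (LL_le_L1 (ℓ := ℓ) t₀)).toRingHom

theorem inc1_coe (t₀ : LL k K) (z : LL k K) : ((inc1 ℓ t₀ z : L1 ℓ t₀) : Om K) = z := by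
  unfold inc1
  exact IntermediateField.coe_inclusion (LL_le_L1 (ℓ := ℓ) t₀) z

theorem inc1_const (t₀ : LL k K) (c : kb k K) :
    inc1 ℓ t₀ (algebraMap (kb k K) (LL k K) c) = algebraMap (kb k K) (L1 ℓ t₀) c := by
  unfold inc1
  exact (IntermediateField.inclusion (LL_le_L1 (ℓ := ℓ) t₀)).commutes c

end GT
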