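import Mathlib
import Pool.Agent.MP_c1dca2_ag.GT.Base
import Pool.Agent.MP_c1dca2_ag.GE.H0
import Pool.Agent.MP_c1dca2_ag.GT.H2a
import Pool.Agent.MP_c1dca2_ag.GE.H2c
import Pool.Agent.MP_c1dca2_ag.GE.H2e
import Pool.Agent.MP_c1dca2_ag.GE.H3a
import Pool.Agent.MP_c1dca2_ag.GE.H5a
import Pool.Agent.MP_c1dca2_ag.GE.J1a
import Pool.Agent.MP_c1dca2_ag.GE.J1d
import Pool.Agent.MP_c1dca2_ag.GT.P0
import Pool.Agent.MP_c1dca2_ag.GE.Q0
import Pool.Agent.MP_c1dca2_ag.SC2.AB
import Pool.Agent.MP_c1dca2_ag.SEC.Defs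
import Pool.Agent.MP_c1dca2_ag.SEC.S

set_option autoImplicit false
set_option linter.unusedVariables false

open IsLocalRing

namespace GT

/-! ## [GT-J1b] the unramified cover -/

variable {k K : Type} [Field k] [Field K] [Algebra k K] {ℓ : ℕ}

/-- Proof. `ff`: `ff_sup` (H2a) with the finite set `R0` (`Ω` is algebraic over `K`, so over `LL`) and `ff_LL`. `base`: `LL_base`, `LL_le_L1`. `stab`: `IntermediateField.adjoin_induction`; `σ` maps constants to constants, `LL` to `LL` (`LL_stab`), `R0` to `R0`. `le`: `IntermediateField.adjoin_induction`; elements of `R0`: `root_unr` (H3a) for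
`F = LL` and `t = res LL_stab σ t₀` (`Unr.om_conj`, `LL_le`). `fix`: `fix_adjoin` (H2c) with `Q := True` for the set `LL ∪ R0`: elements of `LL`: `(fd_LL ..).fix`, elements of `R0`: `fix_root` (H5a) for `fd_LL`. -/
theorem fd_L1 [CharZero k] [hℓ : Fact ℓ.Prime] {x : K} (hx : Transcendental k x)
    (hfin : FiniteDimensional (IntermediateField.adjoin k {x}) K) {t₀ : LL k K} (ht : Unr ℓ t₀) :
    Fd ℓ (L1 ℓ t₀) := by

  have hF : Fd ℓ (LL k K) := fd_LL ℓ hx hfin
  have hcz : CharZero (kb k K) := charZero_of_injective_algebraMap (algebraMap k (kb k K)).injective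
  have hroot : ∀ ρ ∈ R0 ℓ t₀, ∃ t : LL k K, t ≠ 0 ∧ ρ ^ ℓ = (t : Om K) ∧
      ∀ P, IsPl (kb k K) P → (ℓ : ℤ) ∣ od (kb k K) P t := by
    rintro ρ ⟨σ, hσ⟩
    exact ⟨res LL_stab σ t₀, (map_ne_zero (res LL_stab σ)).2 ht.ne, hσ,
      fun P hP => ht.om_conj hx hfin σ P hP⟩
  have hfinR := R0_finite hℓ.out.pos t₀
  constructor
  · have h1 := ff_sup (LL k K) hF.ff hfinR.toFinset (fun y hy => by
      have h2 : y ∈ R0 ℓ t₀ := hfinR.mem_toFinset.1 hy
      obtain ⟨t, -, h3, -⟩ := hroot y h2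
      refine ⟨Polynomial.X ^ ℓ - Polynomial.C t, Polynomial.X_pow_sub_C_ne_zero hℓ.out.pos t, ?_⟩
      rw [map_sub, map_pow, Polynomial.aeval_X, Polynomial.aeval_C, h3]
      exact sub_self _)
    rw [L1_eq]
    rw [hfinR.coe_toFinset] at h1
    exact h1
  · exact fun z => LL_le_L1 t₀ (LL_base z)
  · intro σ z hz
    rw [L1_eq] at hz
    induction hz using IntermediateField.adjoin_induction with
    | mem x hx' =>
      rcases hx' with hx' | hx'
      · exact LL_le_L1 t₀ (LL_stab σ x hx')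
      · obtain ⟨τ, hτ⟩ := hx'
        refine R0_le_L1 t₀ ⟨τ.trans σ, ?_⟩
        rw [← map_pow, hτ]
        rfl
    | algebraMap x => exact LL_le_L1 t₀ (LL_stab σ _ ((LL k K).algebraMap_mem x))
    | add x y _ _ h1 h2 =>
      rw [map_add]
      exact add_mem h1 h2
    | inv x _ h =>
      rw [map_inv₀]
      exact inv_mem h
    | mul x y _ _ h1 h2 =>
      rw [map_mul]
      exact mul_mem h1 h2
  · intro _ p z hz
    rw [L1_eq] at hz
    induction hz using IntermediateField.adjoin_induction with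
    | mem x hx' =>
      rcases hx' with hx' | hx'
      · exact LL_le p x hx'
      · obtain ⟨t, h1, h2, h3⟩ := hroot x hx'
        exact root_unr p (LL k K) hF.ff (LL_le p) t h1 h3 x h2
    | algebraMap x => exact p.hC x
    | add x y _ _ h1 h2 => exact add_mem h1 h2
    | inv x _ h => exact inv_mem h
    | mul x y _ _ h1 h2 => exact mul_mem h1 h2
  · intro z hz
    rw [L1_eq] at hz
    refine (fix_adjoin (fun _ _ => True) _ (fun w hw => ?_) z hz).mono
      fun x h τ hτ => h τ hτ trivial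
    rcases hw with hw | hw
    · exact (hF.fix w hw).mono fun x h τ hτ _ => h τ hτ
    · obtain ⟨t, h1, h2, h3⟩ := hroot w hw
      exact (fix_root hF t h1 h3 w h2).mono fun x h τ hτ _ => h τ hτ

end GT
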