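import Mathlib
import Pool.Agent.MP_c1dca2_ag.GT.Base
import Pool.Agent.MP_c1dca2_ag.GE.H0
import Pool.Agent.MP_c1dca2_ag.GE.H1c
import Pool.Agent.MP_c1dca2_ag.GE.H2c
import Pool.Agent.MP_c1dca2_ag.GE.H9d
import Pool.Agent.MP_c1dca2_ag.GE.J1d
import Pool.Agent.MP_c1dca2_ag.GT.J2a
import Pool.Agent.MP_c1dca2_ag.GT.P0
import Pool.Agent.MP_c1dca2_ag.GE.Q0
import Pool.Agent.MP_c1dca2_ag.SEC.Defs
import Pool.Agent.MP_c1dca2_ag.SEC.S

set_option autoImplicit false
set_option linter.unusedVariables false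

open IsLocalRing

namespace GT

/-! ## [GT-J2c] places of the unramified cover -/

variable {k K : Type} [Field k] [Field K] [Algebra k K] {ℓ : ℕ} {t₀ : LL k K}

/-- The place below. -/
noncomputable def down (P' : ValuationSubring (L1 ℓ t₀)) : ValuationSubring (LL k K) :=
  P'.comap (inc1 ℓ t₀)

/-- The inclusion of `K` in `LL`. -/
noncomputable def j2c_j (k K : Type) [Field k] [Field K] [Algebra k K] : K →+* LL k K :=
  (algebraMap K (Om K)).codRestrict (LL k K) (fun z => LL_base z)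

theorem j2c_j_coe (z : K) : ((j2c_j k K z : LL k K) : Om K) = algebraMap K (Om K) z := rfl

theorem j2c_comp : (algebraMap (LL k K) (Om K)).comp (j2c_j k K) = algebraMap K (Om K) :=
  RingHom.ext fun z => j2c_j_coe (k := k) z

theorem j2c_char [CharZero k] : CharZero (LL k K) := by
  have h1 : CharZero (Om K) := by
    have : CharZero K := charZero_of_injective_algebraMap (algebraMap k K).injective
    exact charZero_of_injective_algebraMap (algebraMap K (Om K)).injective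
  refine ⟨fun m n h => ?_⟩
  have h2 := congrArg (fun z : LL k K => (z : Om K)) h
  have h3 : ((m : Om K)) = n := h2
  exact_mod_cast h3

theorem j2c_alg : Algebra.IsAlgebraic (LL k K) (Om K) := by
  refine ⟨fun w => ?_⟩
  obtain ⟨p, hp0, hp⟩ := Algebra.IsAlgebraic.isAlgebraic (R := K) w
  refine ⟨p.map (j2c_j k K), Polynomial.map_ne_zero hp0, ?_⟩
  rw [Polynomial.aeval_def, Polynomial.eval₂_map, j2c_comp]
  exact hp

/-- Proof. `Ω` is algebraic over `K`, so `z` is a root of a nonzero polynomial over `K`; map it to `LL` (`LL_base`). -/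
theorem inc1_alg (z : L1 ℓ t₀) :
    ∃ p : Polynomial (LL k K), p ≠ 0 ∧ p.eval₂ (inc1 ℓ t₀) z = 0 := by
  obtain ⟨p, hp0, hp⟩ := Algebra.IsAlgebraic.isAlgebraic (R := K) (z : Om K)
  refine ⟨p.map (j2c_j k K), Polynomial.map_ne_zero hp0, ?_⟩
  apply (algebraMap (L1 ℓ t₀) (Om K)).injective
  rw [Polynomial.eval₂_map, Polynomial.hom_eval₂, map_zero]
  have h1 : (algebraMap (L1 ℓ t₀) (Om K)).comp ((inc1 ℓ t₀).comp (j2c_j k K)) =
      algebraMap K (Om K) := by
    ext w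
    exact inc1_coe (ℓ := ℓ) t₀ (j2c_j k K w)
  rw [h1]
  exact hp

/-- Proof. `pl_comap` (H1c), `inc1_const`, `inc1_alg`. -/
theorem down_pl {P' : ValuationSubring (L1 ℓ t₀)} (hP : IsPl (kb k K) P') :
    IsPl (kb k K) (down P') := by
  exact pl_comap (inc1 ℓ t₀) (inc1_const t₀) inc1_alg hP

/-- Proof. `pl_up` (J2a), `inc1_const`. -/
theorem exists_up {P : ValuationSubring (LL k K)} (hP : IsPl (kb k K) P) :
    ∃ P' : ValuationSubring (L1 ℓ t₀), IsPl (kb k K) P' ∧ down P' = P := by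
  exact pl_up (inc1 ℓ t₀) (inc1_const t₀) hP

theorem j2c_mem_down (P' : ValuationSubring (L1 ℓ t₀)) (z : LL k K) :
    z ∈ down P' ↔ inc1 ℓ t₀ z ∈ P' := by
  unfold down
  exact ValuationSubring.mem_comap

theorem j2c_symm (hst : ∀ (σ : Om K ≃ₐ[K] Om K), ∀ z ∈ L1 ℓ t₀, σ z ∈ L1 ℓ t₀)
    (σ : Om K ≃ₐ[K] Om K) (z : LL k K) :
    (res hst σ).symm (inc1 ℓ t₀ z) = inc1 ℓ t₀ ((res LL_stab σ).symm z) := by
  apply Subtype.ext
  rw [res_symm_coe, inc1_coe, inc1_coe, res_symm_coe]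

/-- Proof. Both sides: `z ∈ ... ↔ σ.symm z ∈ P'` (`mem_mv`, `res_symm_coe`, `inc1_coe`). -/
theorem down_mv (hst : ∀ (σ : Om K ≃ₐ[K] Om K), ∀ z ∈ L1 ℓ t₀, σ z ∈ L1 ℓ t₀) (σ : Om K ≃ₐ[K] Om K)
    (P' : ValuationSubring (L1 ℓ t₀)) : down (mv (res hst σ) P') = mvL σ (down P') := by
  ext z
  rw [j2c_mem_down, mem_mv, j2c_symm]
  unfold mvL
  rw [mem_mv, j2c_mem_down]

/-- Proof. `Ω` is Galois over `LL` (characteristic `0`, algebraic, algebraically closed), so the fixed field of all `LL`-automorphisms of `Ω` is `⊥` and some `LL`-automorphism of `Ω` moves `z`. It fixes `K ⊆ LL` (`LL_base`): restrict scalars to `K`. -/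
theorem exists_alpha [CharZero k] {z : Om K} (hz : z ∉ LL k K) :
    ∃ α : Om K ≃ₐ[K] Om K, (∀ w ∈ LL k K, α w = w) ∧ α z ≠ z := by
  have hchar : CharZero (LL k K) := j2c_char
  have halg : Algebra.IsAlgebraic (LL k K) (Om K) := j2c_alg
  have hcl : IsAlgClosed (Om K) := inferInstance
  have hC : IsAlgClosure (LL k K) (Om K) := ⟨hcl, halg⟩
  have hnorm : Normal (LL k K) (Om K) := IsAlgClosure.normal (LL k K) (Om K)
  have hsep : Algebra.IsSeparable (LL k K) (Om K) := inferInstance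
  have hgal : IsGalois (LL k K) (Om K) := ⟨⟩
  have h1 : ¬ ∀ f : Om K ≃ₐ[LL k K] Om K, f z = z := by
    intro hall
    have h2 := (InfiniteGalois.mem_bot_iff_fixed (k := LL k K) z).2 hall
    rw [IntermediateField.mem_bot] at h2
    obtain ⟨w, hw⟩ := h2
    apply hz
    rw [← hw]
    exact w.2
  push Not at h1
  obtain ⟨f, hf⟩ := h1
  refine ⟨AlgEquiv.ofRingEquiv (f := f.toRingEquiv) (fun r => ?_), fun w hw => ?_, hf⟩
  · exact f.commutes (j2c_j k K r)
  · exact f.commutes ⟨w, hw⟩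

end GT
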