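import Mathlib
import Pool.Agent.MP_c1dca2_ag.GT.Base
import Pool.Agent.MP_c1dca2_ag.GE.H0
import Pool.Agent.MP_c1dca2_ag.GE.H2b
import Pool.Agent.MP_c1dca2_ag.GE.H2c
import Pool.Agent.MP_c1dca2_ag.GE.J1a
import Pool.Agent.MP_c1dca2_ag.GE.J1b
import Pool.Agent.MP_c1dca2_ag.GE.J1d
import Pool.Agent.MP_c1dca2_ag.GT.J2a
import Pool.Agent.MP_c1dca2_ag.GE.J2b
import Pool.Agent.MP_c1dca2_ag.GE.J2c
import Pool.Agent.MP_c1dca2_ag.GE.J2e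
import Pool.Agent.MP_c1dca2_ag.GT.P0
import Pool.Agent.MP_c1dca2_ag.GE.Q0
import Pool.Agent.MP_c1dca2_ag.SC2.B1
import Pool.Agent.MP_c1dca2_ag.SEC.Defs
import Pool.Agent.MP_c1dca2_ag.SEC.S

set_option autoImplicit false
set_option linter.unusedVariables false

open IsLocalRing

namespace GT

/-! ## [GT-J2f] the unramified cover is unramified (modulo `ℓ`) -/

variable {k K : Type} [Field k] [Field K] [Algebra k K] {ℓ : ℕ} {t₀ : LL k K}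

/-- Proof. `IntermediateField.adjoin_induction` (`L1_eq`): an automorphism which fixes `LL` and the roots is the identity. -/
theorem eq_one_of_fix (e : L1 ℓ t₀ ≃+* L1 ℓ t₀) (he : ∀ z : LL k K, e (inc1 ℓ t₀ z) = inc1 ℓ t₀ z)
    (h : ∀ ρ : L1 ℓ t₀, (ρ : Om K) ∈ R0 ℓ t₀ → e ρ = ρ) : e = 1 := by
  have key : ∀ w : Om K, ∀ hw : w ∈ IntermediateField.adjoin (kb k K) ((LL k K : Set (Om K)) ∪ R0 ℓ t₀),
      ∀ h1 : w ∈ L1 ℓ t₀, e ⟨w, h1⟩ = ⟨w, h1⟩ := by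
    intro w hw
    induction hw using IntermediateField.adjoin_induction with
    | mem x hx =>
      intro h1
      rcases hx with hx | hx
      · have h2 : (⟨x, h1⟩ : L1 ℓ t₀) = inc1 ℓ t₀ ⟨x, hx⟩ := Subtype.ext (inc1_coe t₀ ⟨x, hx⟩).symm
        rw [h2, he]
      · exact h ⟨x, h1⟩ hx
    | algebraMap x =>
      intro h1
      have h2 : (⟨algebraMap (kb k K) (Om K) x, h1⟩ : L1 ℓ t₀) =
          inc1 ℓ t₀ (algebraMap (kb k K) (LL k K) x) := by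
        apply Subtype.ext
        rw [inc1_coe]
        rfl
      rw [h2, he]
    | add x y hx hy h2 h3 =>
      intro h1
      rw [← L1_eq] at hx hy
      have h4 : (⟨x + y, h1⟩ : L1 ℓ t₀) = ⟨x, hx⟩ + ⟨y, hy⟩ := rfl
      rw [h4, map_add, h2 hx, h3 hy]
    | inv x hx h2 =>
      intro h1
      rw [← L1_eq] at hx
      have h4 : (⟨x⁻¹, h1⟩ : L1 ℓ t₀) = (⟨x, hx⟩ : L1 ℓ t₀)⁻¹ := rfl
      rw [h4, map_inv₀, h2 hx]
    | mul x y hx hy h2 h3 =>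
      intro h1
      rw [← L1_eq] at hx hy
      have h4 : (⟨x * y, h1⟩ : L1 ℓ t₀) = ⟨x, hx⟩ * ⟨y, hy⟩ := rfl
      rw [h4, map_mul, h2 hx, h3 hy]
  ext z
  have hz : (z : Om K) ∈ IntermediateField.adjoin (kb k K) ((LL k K : Set (Om K)) ∪ R0 ℓ t₀) := by
    rw [← L1_eq]
    exact z.2
  have h5 := key z hz z.2
  exact congrArg Subtype.val h5

/-- The automorphisms over `LL`. -/
def j2fG (ℓ : ℕ) (t₀ : LL k K) : Subgroup (L1 ℓ t₀ ≃+* L1 ℓ t₀) where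
  carrier := {e | ∀ z : LL k K, e (inc1 ℓ t₀ z) = inc1 ℓ t₀ z}
  mul_mem' := by
    intro a b ha hb z
    show a (b (inc1 ℓ t₀ z)) = _
    rw [hb z, ha z]
  one_mem' := fun z => rfl
  inv_mem' := by
    intro a ha z
    show a.symm (inc1 ℓ t₀ z) = _
    rw [RingEquiv.symm_apply_eq, ha z]

theorem j2f_mem (e : L1 ℓ t₀ ≃+* L1 ℓ t₀) :
    e ∈ j2fG ℓ t₀ ↔ ∀ z : LL k K, e (inc1 ℓ t₀ z) = inc1 ℓ t₀ z := Iff.rfl

theorem j2f_root (e : L1 ℓ t₀ ≃+* L1 ℓ t₀) (he : ∀ z : LL k K, e (inc1 ℓ t₀ z) = inc1 ℓ t₀ z)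
    (ρ : L1 ℓ t₀) (hρ : (ρ : Om K) ∈ R0 ℓ t₀) : ((e ρ : L1 ℓ t₀) : Om K) ∈ R0 ℓ t₀ := by
  obtain ⟨σ, hσ⟩ := hρ
  refine ⟨σ, ?_⟩
  have h1 : ρ ^ ℓ = inc1 ℓ t₀ (res LL_stab σ t₀) := by
    apply Subtype.ext
    rw [inc1_coe, res_coe, ← hσ]
    rfl
  have h2 : (e ρ) ^ ℓ = inc1 ℓ t₀ (res LL_stab σ t₀) := by
    rw [← map_pow, h1, he]
  have h3 := congrArg (fun z : L1 ℓ t₀ => (z : Om K)) h2
  simp only [inc1_coe, res_coe] at h3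
  rw [← h3]
  rfl

theorem j2f_finite (hℓ : 0 < ℓ) : Finite (j2fG ℓ t₀) := by
  have hS : {ρ : L1 ℓ t₀ | (ρ : Om K) ∈ R0 ℓ t₀}.Finite :=
    (R0_finite hℓ t₀).preimage Subtype.val_injective.injOn
  have hSf : Finite {ρ : L1 ℓ t₀ // (ρ : Om K) ∈ R0 ℓ t₀} := hS.to_subtype
  let Φ : j2fG ℓ t₀ → ({ρ : L1 ℓ t₀ // (ρ : Om K) ∈ R0 ℓ t₀} →
      {ρ : L1 ℓ t₀ // (ρ : Om K) ∈ R0 ℓ t₀}) :=
    fun g ρ => ⟨g.1 ρ.1, j2f_root g.1 g.2 ρ.1 ρ.2⟩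
  refine Finite.of_injective Φ ?_
  intro g g' hgg
  have h1 : ∀ ρ : L1 ℓ t₀, (ρ : Om K) ∈ R0 ℓ t₀ → g.1 ρ = g'.1 ρ := by
    intro ρ hρ
    have h2 := congrFun hgg ⟨ρ, hρ⟩
    exact congrArg Subtype.val h2
  have h3 : g'.1⁻¹ * g.1 = 1 := by
    apply eq_one_of_fix
    · exact (j2fG ℓ t₀).mul_mem ((j2fG ℓ t₀).inv_mem g'.2) g.2
    · intro ρ hρ
      show g'.1.symm (g.1 ρ) = ρ
      rw [RingEquiv.symm_apply_eq]
      exact h1 ρ hρ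
  apply Subtype.ext
  exact (inv_mul_eq_one.1 h3).symm

/-- The cover is unramified (modulo `ℓ`).

Proof. `ord_of_free` (J2b) for `G = {e : L1 ≃+* L1 | ∀ z, e (inc1 z) = inc1 z}` (a subgroup).
`Finite G`: `e` is determined by its values on the finite set `R0` (`R0_finite`, `eq_one_of_fix` for
`e⁻¹ e'`), and `e` maps `R0` (as a subset of `L1`, `R0_le_L1`) to itself: if `ρ ^ ℓ = σ t₀ =: t`, `t = res LL_stab σ t₀ ∈ LL`,
then `(e ρ) ^ ℓ = e (inc1 t) = inc1 t = ρ ^ ℓ`. `hG`: `z ∈ L1`, `z ∉ LL`: `exists_alpha` gives `α`, and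
`res (fd_L1 ..).stab α ∈ G` moves `z`. `hQ`, `hne`: `exists_other` (J2a) for `down P'` and `exists_up`. `hfree`: `g ≠ 1` moves some `ρ ∈ R0`
(`eq_one_of_fix`), `mv_ne` (J2e). -/
theorem down_ord [CharZero k] [hℓ : Fact ℓ.Prime] {x : K} (hx : Transcendental k x)
    (hfin : FiniteDimensional (IntermediateField.adjoin k {x}) K) (ht : Unr ℓ t₀)
    {P' : ValuationSubring (L1 ℓ t₀)} (hP : IsPl (kb k K) P') {f : LL k K} (hf : f ≠ 0) :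
    (ℓ : ℤ) ∣ od (kb k K) P' (inc1 ℓ t₀ f) ↔ (ℓ : ℤ) ∣ od (kb k K) (down P') f := by
  have hac : IsAlgClosed (kb k K) := SC2.kb_isAlgClosed
  have hcz : CharZero (kb k K) :=
    charZero_of_injective_algebraMap (algebraMap k (kb k K)).injective
  obtain ⟨Q, hQ, hQne⟩ := exists_other (down_pl hP)
  obtain ⟨Q', hQ', hdown⟩ := exists_up (ℓ := ℓ) (t₀ := t₀) hQ
  refine ord_of_free (C := kb k K) (ff_LL hx hfin) (fd_L1 hx hfin ht).ff (inc1 ℓ t₀)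
    (inc1_const t₀) inc1_alg hℓ.out (j2fG ℓ t₀) (j2f_finite hℓ.out.pos) (fun g hg z => hg z) ?_ hP
    hQ' ?_ ?_ hf
  · intro z hz
    by_cases h1 : (z : Om K) ∈ LL k K
    · exact ⟨⟨z, h1⟩, Subtype.ext (inc1_coe t₀ ⟨z, h1⟩)⟩
    · exfalso
      obtain ⟨α, hα, hαz⟩ := exists_alpha h1
      have h2 : res (fd_L1 hx hfin ht).stab α ∈ j2fG ℓ t₀ := by
        intro w
        apply Subtype.ext
        rw [res_coe, inc1_coe]
        exact hα w w.2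
      have h3 := hz _ h2
      apply hαz
      rw [← res_coe (fd_L1 hx hfin ht).stab α z, h3]
  · intro h1
    apply hQne
    rw [← hdown]
    exact h1
  · intro g hg hne
    have h1 : ∃ ρ : L1 ℓ t₀, (ρ : Om K) ∈ R0 ℓ t₀ ∧ g ρ ≠ ρ := by
      by_contra h2
      push Not at h2
      exact hne (eq_one_of_fix g hg h2)
    obtain ⟨ρ, hρ, hgρ⟩ := h1
    exact mv_ne hx hfin ht g hg ρ hρ hgρ hP

end GT
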