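import Mathlib
import Pool.Agent.MP_c1dca2_ag.GT.Base
import Pool.Agent.MP_c1dca2_ag.GE.H0
import Pool.Agent.MP_c1dca2_ag.GE.H1b
import Pool.Agent.MP_c1dca2_ag.GE.H1d
import Pool.Agent.MP_c1dca2_ag.GE.H2b
import Pool.Agent.MP_c1dca2_ag.GE.H2c
import Pool.Agent.MP_c1dca2_ag.GE.H6d
import Pool.Agent.MP_c1dca2_ag.GE.H9d
import Pool.Agent.MP_c1dca2_ag.GE.J1b
import Pool.Agent.MP_c1dca2_ag.GE.J1d
import Pool.Agent.MP_c1dca2_ag.GE.J2c
import Pool.Agent.MP_c1dca2_ag.GE.J2e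
import Pool.Agent.MP_c1dca2_ag.GE.J2f
import Pool.Agent.MP_c1dca2_ag.GT.K0
import Pool.Agent.MP_c1dca2_ag.GT.P0
import Pool.Agent.MP_c1dca2_ag.GE.Q0
import Pool.Agent.MP_c1dca2_ag.SC2.B1
import Pool.Agent.MP_c1dca2_ag.SEC.Defs
import Pool.Agent.MP_c1dca2_ag.SEC.S

set_option autoImplicit false
set_option linter.unusedVariables false

open IsLocalRing

namespace GT

/-! ## [GT-J3a] three ramification points on the cover -/

variable {k K : Type} [Field k] [Field K] [Algebra k K] {ℓ : ℕ} [hℓ : Fact ℓ.Prime] {t₀ : LL k K}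

omit hℓ in
theorem j3a_emb {F : IntermediateField (kb k K) (Om K)} (hF : Fd ℓ F) {h : K} (hh : h ≠ 0) :
    hF.emb h ≠ 0 := by
  intro h0
  have h1 : algebraMap K (Om K) h = 0 := congrArg Subtype.val h0
  exact hh ((map_eq_zero _).1 h1)

/-- Proof. `mem_OM_iff` (H1b) for `LL` and `L1`, `down_pl`, `down_ord` (J2). -/
theorem down_mem [CharZero k] {x : K} (hx : Transcendental k x)
    (hfin : FiniteDimensional (IntermediateField.adjoin k {x}) K) (ht : Unr ℓ t₀) {h : K}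
    (hh : h ≠ 0) {P' : ValuationSubring (L1 ℓ t₀)} (hP : IsPl (kb k K) P') :
    P' ∈ OMF (fd_L1 hx hfin ht) h ↔ down P' ∈ Ram k ℓ h := by
  have hac : IsAlgClosed (kb k K) := SC2.kb_isAlgClosed
  have hne1 := j3a_emb (fd_L1 hx hfin ht) hh
  have hne : (⟨algebraMap K (Om K) h, LL_base h⟩ : LL k K) ≠ 0 := by
    intro h0
    have h1 : algebraMap K (Om K) h = 0 := congrArg Subtype.val h0
    exact hh ((map_eq_zero _).1 h1)
  have h1 : (inc1 ℓ t₀ ⟨algebraMap K (Om K) h, LL_base h⟩) = (fd_L1 hx hfin ht).emb h := by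
    apply Subtype.ext
    rw [inc1_coe]
    rfl
  have h2 := down_ord hx hfin ht hP hne
  rw [h1] at h2
  unfold Ram
  rw [OMF, mem_OM_iff (fd_L1 hx hfin ht).ff hne1, mem_OM_iff (ff_LL hx hfin) hne, h2]
  exact ⟨fun h => ⟨down_pl hP, h.2⟩, fun h => ⟨hP, h.2⟩⟩

theorem j3a_mvL (α : Om K ≃ₐ[K] Om K) (hα : ∀ w ∈ LL k K, α w = w)
    (P : ValuationSubring (LL k K)) : mvL α P = P := by
  ext z
  unfold mvL
  rw [mem_mv]
  have h1 : (res LL_stab α).symm z = z := by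
    apply Subtype.ext
    rw [res_symm_coe]
    have h2 := hα z z.2
    exact (AlgEquiv.symm_apply_eq α).2 h2.symm
  rw [h1]

omit hℓ in
theorem j3a_e (hst : ∀ (σ : Om K ≃ₐ[K] Om K), ∀ z ∈ L1 ℓ t₀, σ z ∈ L1 ℓ t₀)
    (α : Om K ≃ₐ[K] Om K) (hα : ∀ w ∈ LL k K, α w = w) (z : LL k K) :
    res hst α (inc1 ℓ t₀ z) = inc1 ℓ t₀ z := by
  apply Subtype.ext
  rw [res_coe, inc1_coe]
  exact hα z z.2

theorem j3a_up (hst : ∀ (σ : Om K ≃ₐ[K] Om K), ∀ z ∈ L1 ℓ t₀, σ z ∈ L1 ℓ t₀) [CharZero k]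
    (hff : FF (kb k K) (L1 ℓ t₀))
    (α : Om K ≃ₐ[K] Om K) (hα : ∀ w ∈ LL k K, α w = w) {P' : ValuationSubring (L1 ℓ t₀)}
    (hP : IsPl (kb k K) P') : IsPl (kb k K) (mv (res hst α) P') ∧
      down (mv (res hst α) P') = down P' := by
  have hac : IsAlgClosed (kb k K) := SC2.kb_isAlgClosed
  have he := j3a_e hst α hα
  have hC : ∀ c : kb k K, ∃ c' : kb k K, res hst α (algebraMap (kb k K) (L1 ℓ t₀) c) =
      algebraMap (kb k K) (L1 ℓ t₀) c' := by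
    intro c
    refine ⟨c, ?_⟩
    rw [← inc1_const]
    exact he _
  have hC' : ∀ c : kb k K, ∃ c' : kb k K, (res hst α).symm (algebraMap (kb k K) (L1 ℓ t₀) c) =
      algebraMap (kb k K) (L1 ℓ t₀) c' := by
    intro c
    refine ⟨c, ?_⟩
    rw [← inc1_const, RingEquiv.symm_apply_eq]
    exact (he _).symm
  refine ⟨(mv_spec hff (res hst α) hC hC' hP).1, ?_⟩
  rw [down_mv, j3a_mvL α hα]

/-- Proof. Let `P ≠ Q` be the elements of `Ram`. `exists_up`: `P'`, `Q'` above them. Choose `ρ` with `ρ ^ ℓ = t₀` (`ρ ∈ R0` with `σ = 1`, so `ρ ∈ L1`); `ρ ∉ LL` (`ht.npow`); `α` by `exists_alpha`. `P'' = mv (res α) P'` is different from `P'` (`mv_ne` for `e = res α`) and above `mvL α P = P` (`down_mv`; `α` fixes `LL`). So `P'`, `P''`, `Q'` are three different elements of `OMF` (`down_mem`). -/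
theorem card_L1 [CharZero k] {x : K} (hx : Transcendental k x)
    (hfin : FiniteDimensional (IntermediateField.adjoin k {x}) K) (ht : Unr ℓ t₀) {h : K}
    (hh : h ≠ 0) (h2 : (Ram k ℓ h).ncard = 2) [Fintype (OMF (fd_L1 hx hfin ht) h)] :
    3 ≤ Fintype.card (OMF (fd_L1 hx hfin ht) h) := by
  obtain ⟨P, Q, hPQ, hRam⟩ := Set.ncard_eq_two.1 h2
  have hPR : P ∈ Ram k ℓ h := by
    rw [hRam]
    exact Set.mem_insert _ _
  have hQR : Q ∈ Ram k ℓ h := by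
    rw [hRam]
    exact Set.mem_insert_of_mem _ (Set.mem_singleton _)
  have hPpl : IsPl (kb k K) P := hPR.1
  have hQpl : IsPl (kb k K) Q := hQR.1
  obtain ⟨P', hP', hdP⟩ := exists_up (ℓ := ℓ) (t₀ := t₀) hPpl
  obtain ⟨Q', hQ', hdQ⟩ := exists_up (ℓ := ℓ) (t₀ := t₀) hQpl
  have hOm : IsAlgClosed (Om K) := inferInstance
  obtain ⟨ρ, hρ⟩ := IsAlgClosed.exists_pow_nat_eq (t₀ : Om K) hℓ.out.pos
  have hρR : ρ ∈ R0 ℓ t₀ := ⟨AlgEquiv.refl, hρ⟩
  have hρL : ρ ∉ LL k K := by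
    intro hmem
    exact ht.npow ⟨ρ, hmem⟩ (Subtype.ext hρ)
  obtain ⟨α, hα, hαρ⟩ := exists_alpha hρL
  have hst := (fd_L1 hx hfin ht).stab
  obtain ⟨hP''pl, hdP''⟩ := j3a_up hst (fd_L1 hx hfin ht).ff α hα hP'
  have hmvne : mv (res hst α) P' ≠ P' := by
    refine mv_ne hx hfin ht (res hst α) (j3a_e hst α hα) ⟨ρ, R0_le_L1 t₀ hρR⟩ hρR ?_ hP'
    intro h0
    have h1 := congrArg (fun z : L1 ℓ t₀ => (z : Om K)) h0
    exact hαρ h1
  have hmP : P' ∈ OMF (fd_L1 hx hfin ht) h := by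
    rw [down_mem hx hfin ht hh hP', hdP]
    exact hPR
  have hmQ : Q' ∈ OMF (fd_L1 hx hfin ht) h := by
    rw [down_mem hx hfin ht hh hQ', hdQ]
    exact hQR
  have hmP'' : mv (res hst α) P' ∈ OMF (fd_L1 hx hfin ht) h := by
    rw [down_mem hx hfin ht hh hP''pl, hdP'', hdP]
    exact hPR
  have h3 : 2 < Fintype.card (OMF (fd_L1 hx hfin ht) h) := by
    rw [Fintype.two_lt_card_iff]
    refine ⟨⟨P', hmP⟩, ⟨mv (res hst α) P', hmP''⟩, ⟨Q', hmQ⟩, ?_, ?_, ?_⟩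
    · intro h0
      exact hmvne (congrArg Subtype.val h0).symm
    · intro h0
      have h1 : P' = Q' := congrArg Subtype.val h0
      apply hPQ
      rw [← hdP, ← hdQ, h1]
    · intro h0
      have h1 : mv (res hst α) P' = Q' := congrArg Subtype.val h0
      apply hPQ
      rw [← hdP, ← hdQ, ← h1, hdP'']
  exact h3

end GT
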