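import Mathlib
import Pool.Agent.MP_c1dca2_ag.GE.Q0
import Pool.Agent.MP_c1dca2_ag.SEC.Defs

set_option autoImplicit false

open IsLocalRing

namespace GT

/-! ## [GT-Q1a] the embedding of the algebraic closures -/

variable {k K₁ K : Type} [Field k] [Field K₁] [Field K] [Algebra k K₁] [Algebra k K] [Algebra K₁ K]
  [IsScalarTower k K₁ K]

/-- Proof. `IsAlgClosed.lift : Om K₁ →ₐ[K₁] Om K` (`Om K` is a `K₁`-algebra by the instances of `AlgebraicClosure`, `IsScalarTower K₁ K (Om K)`; `Om K₁` is algebraic over `K₁`). -/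
theorem exists_emb : ∃ ι : Om K₁ →+* Om K,
    ∀ z : K₁, ι (algebraMap K₁ (Om K₁) z) = algebraMap K (Om K) (algebraMap K₁ K z) := by
  let f : Om K₁ →ₐ[K₁] Om K := IsAlgClosed.lift
  refine ⟨f.toRingHom, fun z => ?_⟩
  have h := f.commutes z
  rw [IsScalarTower.algebraMap_apply K₁ K (Om K)] at h
  exact h

variable (ι : Om K₁ →+* Om K)
  (hι : ∀ z : K₁, ι (algebraMap K₁ (Om K₁) z) = algebraMap K (Om K) (algebraMap K₁ K z))

include hι in
theorem q1a_k (c : k) : ι (algebraMap k (Om K₁) c) = algebraMap k (Om K) c := by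
  rw [IsScalarTower.algebraMap_apply k K₁ (Om K₁), hι, ← IsScalarTower.algebraMap_apply k K₁ K,
    ← IsScalarTower.algebraMap_apply k K (Om K)]

include hι in
/-- Proof. `ι` is compatible with the maps from `k` (`IsScalarTower.algebraMap_apply`). `z ∈ kb` iff `z` is algebraic over `k` (`mem_algebraicClosure_iff`), iff a nonzero polynomial over `k` vanishes at `z`, iff it vanishes at `ι z` (`ι` is injective; `Polynomial.hom_eval₂`). -/
theorem mem_kb_iff (z : Om K₁) : ι z ∈ kb k K ↔ z ∈ kb k K₁ := by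
  let ιk : Om K₁ →ₐ[k] Om K := { ι with commutes' := fun c => q1a_k ι hι c }
  have h : IsAlgebraic k (ιk z) ↔ IsAlgebraic k z := isAlgebraic_algHom_iff ιk ιk.toRingHom.injective
  rw [mem_algebraicClosure_iff, mem_algebraicClosure_iff]
  exact h

/-- Proof. `p` splits in the algebraically closed field `Om K₁` (`IsAlgClosed.splits`), so the image of `p` in `(Om K)[X]` is a product of `X - ι a` and a nonzero constant: every root of it is some `ι a`. -/
theorem exists_pre (p : Polynomial (Om K₁)) (hp : p ≠ 0) (w : Om K) (hw : p.eval₂ ι w = 0) :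
    ∃ z, ι z = w := by
  have h := (IsAlgClosed.splits p).mem_range_of_isRoot (i := ι) hp (x := w)
  rw [Polynomial.IsRoot, Polynomial.eval_map] at h
  exact h hw

include hι in
/-- Proof. `w` is algebraic over `k`: `exists_pre` for the image in `(Om K₁)[X]` of a nonzero polynomial over `k`; then `mem_kb_iff`. -/
theorem exists_kb (w : kb k K) : ∃ z : kb k K₁, ι (z : Om K₁) = w := by
  have hw : IsAlgebraic k (w : Om K) := mem_algebraicClosure_iff.1 w.2
  obtain ⟨p, hp, hpw⟩ := hw
  obtain ⟨z, hz⟩ := exists_pre ι (p.map (algebraMap k (Om K₁)))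
    ((Polynomial.map_ne_zero_iff (algebraMap k (Om K₁)).injective).2 hp) (w : Om K) (by
      rw [Polynomial.eval₂_map]
      have e : ι.comp (algebraMap k (Om K₁)) = algebraMap k (Om K) :=
        RingHom.ext fun c => q1a_k ι hι c
      rw [e]
      exact hpw)
  refine ⟨⟨z, (mem_kb_iff ι hι z).1 ?_⟩, hz⟩
  rw [hz]
  exact w.2

end GT
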