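import Mathlib
import Pool.Agent.MP_c1dca2_ag.GE.Q0
import Pool.Agent.MP_c1dca2_ag.GE.Q1a
import Pool.Agent.MP_c1dca2_ag.SEC.Defs

set_option autoImplicit false

open IsLocalRing

namespace GT

/-! ## [GE-Q1b] the embedding of the algebraic closures, with an extension `E` of `k` -/

variable {k E K₁ K : Type} [Field k] [Field E] [Field K₁] [Field K] [Algebra k E] [Algebra k K₁]
  [Algebra k K] [Algebra E K] [Algebra K₁ K] [IsScalarTower k K₁ K] [IsScalarTower k E K]

variable (ι : Om K₁ →+* Om K)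
  (hι : ∀ z : K₁, ι (algebraMap K₁ (Om K₁) z) = algebraMap K (Om K) (algebraMap K₁ K z))

include hι in
/-- The copy of `E` in `kb k K₁`. -/
theorem exists_copy [Algebra.IsAlgebraic k E] : ∃ f : E →ₐ[k] kb k K₁,
    ∀ t : E, ι ((f t : kb k K₁) : Om K₁) = algebraMap E (Om K) t := by
  have h1 : ∀ t : E, ∃ z : kb k K₁, ι (z : Om K₁) = algebraMap E (Om K) t := by
    intro t
    have ht : IsAlgebraic k (algebraMap E (Om K) t) :=
      IsAlgebraic.algHom (IsScalarTower.toAlgHom k E (Om K))
        (Algebra.IsAlgebraic.isAlgebraic (R := k) t)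
    obtain ⟨z, hz⟩ := exists_kb ι hι ⟨algebraMap E (Om K) t, mem_algebraicClosure_iff.2 ht⟩
    exact ⟨z, hz⟩
  choose g hg using h1
  have inj : ∀ a b : kb k K₁, ι (a : Om K₁) = ι (b : Om K₁) → a = b :=
    fun a b h => Subtype.ext (ι.injective h)
  refine ⟨{ toFun := g, map_one' := ?_, map_mul' := ?_, map_zero' := ?_, map_add' := ?_,
            commutes' := ?_ }, hg⟩
  · apply inj
    rw [hg, map_one]
    exact (map_one ι).symm
  · intro a b
    apply inj
    rw [hg, map_mul, ← hg, ← hg]
    exact (map_mul ι _ _).symm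
  · apply inj
    rw [hg, map_zero]
    exact (map_zero ι).symm
  · intro a b
    apply inj
    rw [hg, map_add, ← hg, ← hg]
    exact (map_add ι _ _).symm
  · intro c
    apply inj
    rw [hg, ← IsScalarTower.algebraMap_apply k E (Om K)]
    exact (q1a_k ι hι c).symm

include hι in
/-- The bijection of the two algebraic closures. -/
theorem exists_kbE [Algebra.IsAlgebraic k E] : ∃ φ : kb k K₁ ≃+* kb E K,
    ∀ a : kb k K₁, ((φ a : kb E K) : Om K) = ι (a : Om K₁) := by
  have hmem : ∀ a : kb k K₁, ι (a : Om K₁) ∈ kb E K := by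
    intro a
    have h1 : ι (a : Om K₁) ∈ kb k K := (mem_kb_iff ι hι (a : Om K₁)).2 a.2
    exact mem_algebraicClosure_iff.2 ((mem_algebraicClosure_iff.1 h1).tower_top E)
  let φ : kb k K₁ →+* kb E K :=
    { toFun := fun a => ⟨ι (a : Om K₁), hmem a⟩
      map_one' := Subtype.ext (map_one ι)
      map_mul' := fun a b => Subtype.ext (map_mul ι _ _)
      map_zero' := Subtype.ext (map_zero ι)
      map_add' := fun a b => Subtype.ext (map_add ι _ _) }
  have hbij : Function.Bijective φ := by
    refine ⟨φ.injective, fun w => ?_⟩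
    have hw : IsAlgebraic k (w : Om K) :=
      IsAlgebraic.restrictScalars k (mem_algebraicClosure_iff.1 w.2)
    obtain ⟨z, hz⟩ := exists_kb ι hι ⟨(w : Om K), mem_algebraicClosure_iff.2 hw⟩
    exact ⟨z, Subtype.ext hz⟩
  exact ⟨RingEquiv.ofBijective φ hbij, fun a => rfl⟩

include hι in
/-- Conjugation of the automorphisms by `kb k K₁ ≃ kb E K`. -/
theorem exists_conj [Algebra.IsAlgebraic k E] (f : E →ₐ[k] kb k K₁)
    (hf : ∀ t : E, ι ((f t : kb k K₁) : Om K₁) = algebraMap E (Om K) t) :
    ∃ c : (kb k K₁ ≃ₐ[f.fieldRange] kb k K₁) →* (kb E K ≃ₐ[E] kb E K),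
    (∀ (σ : kb k K₁ ≃ₐ[f.fieldRange] kb k K₁) (a : kb k K₁) (b : kb E K), ι (a : Om K₁) = b →
      ι ((σ a : kb k K₁) : Om K₁) = ((c σ b : kb E K) : Om K)) ∧
    ∀ E' : IntermediateField E (kb E K), FiniteDimensional E E' →
      ∃ F : IntermediateField f.fieldRange (kb k K₁), FiniteDimensional f.fieldRange F ∧
        ∀ σ ∈ F.fixingSubgroup, c σ ∈ E'.fixingSubgroup := by
  classical
  obtain ⟨φ, hφ⟩ := exists_kbE (k := k) (E := E) ι hι
  have hφf : ∀ t : E, φ (f t) = algebraMap E (kb E K) t := by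
    intro t
    apply Subtype.ext
    rw [hφ, hf]
    rfl
  have hfix : ∀ (σ : kb k K₁ ≃ₐ[f.fieldRange] kb k K₁) (t : E), σ (f t) = f t := by
    intro σ t
    exact σ.commutes ⟨f t, ⟨t, rfl⟩⟩
  have hsymm : ∀ t : E, φ.symm (algebraMap E (kb E K) t) = f t := by
    intro t
    rw [← hφf, φ.symm_apply_apply]
  let c : (kb k K₁ ≃ₐ[f.fieldRange] kb k K₁) →* (kb E K ≃ₐ[E] kb E K) :=
    { toFun := fun σ => AlgEquiv.ofRingEquiv (f := (φ.symm.trans (σ : kb k K₁ ≃+* kb k K₁)).trans φ)
        (fun t => by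
          change φ (σ (φ.symm (algebraMap E (kb E K) t))) = algebraMap E (kb E K) t
          rw [hsymm, hfix, hφf])
      map_one' := by
        apply AlgEquiv.ext
        intro z
        change φ (φ.symm z) = z
        exact φ.apply_symm_apply z
      map_mul' := by
        intro σ τ
        apply AlgEquiv.ext
        intro z
        change φ (σ (τ (φ.symm z))) = φ (σ (φ.symm (φ (τ (φ.symm z)))))
        rw [φ.symm_apply_apply] }
  have hc : ∀ σ z, c σ z = φ (σ (φ.symm z)) := fun σ z => rfl
  refine ⟨c, ?_, ?_⟩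
  · intro σ a b hab
    have h1 : φ a = b := Subtype.ext ((hφ a).trans hab)
    rw [hc, ← h1, φ.symm_apply_apply, hφ]
  · intro E' hE'
    let B := Module.finBasis E E'
    let S : Finset (kb k K₁) := Finset.univ.image fun i => φ.symm (B i : kb E K)
    have halg : Algebra.IsAlgebraic f.fieldRange (kb k K₁) := kb'_isAlgebraic
    refine ⟨IntermediateField.adjoin f.fieldRange (S : Set (kb k K₁)), ?_, ?_⟩
    · have : Finite (S : Set (kb k K₁)) := S.finite_toSet
      exact IntermediateField.finiteDimensional_adjoin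
        fun x _ => (Algebra.IsAlgebraic.isAlgebraic (R := f.fieldRange) x).isIntegral
    · intro σ hσ
      rw [IntermediateField.mem_fixingSubgroup_iff] at hσ ⊢
      intro b hb
      have h1 : (⟨b, hb⟩ : E') = ∑ i, B.repr ⟨b, hb⟩ i • B i := (B.sum_repr _).symm
      have h2 : b = ∑ i, B.repr ⟨b, hb⟩ i • (B i : kb E K) := by
        have h3 := congrArg E'.val h1
        rw [map_sum] at h3
        exact h3
      rw [h2, map_sum]
      refine Finset.sum_congr rfl fun i _ => ?_
      rw [map_smul]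
      congr 1
      have h4 : σ (φ.symm (B i : kb E K)) = φ.symm (B i : kb E K) := by
        apply hσ
        apply IntermediateField.subset_adjoin
        exact Finset.mem_coe.2 (Finset.mem_image_of_mem _ (Finset.mem_univ i))
      rw [hc, h4, φ.apply_symm_apply]

end GT
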