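import Mathlib
import Pool.Agent.MP_c1dca2_ag.GE.Q0
import Pool.Agent.MP_c1dca2_ag.GE.Q2d
import Pool.Agent.MP_c1dca2_ag.GT.Y1
import Pool.Agent.MP_c1dca2_ag.SEC.Defs

set_option autoImplicit false

open IsLocalRing

namespace GT

/-! ## [GT-Q2b] the partial section of a section -/

variable {k E K₁ K : Type} [Field k] [Field E] [Field K₁] [Field K] [Algebra k E] [Algebra k K₁]
  [Algebra k K] [Algebra E K] [Algebra K₁ K] [IsScalarTower k K₁ K] [IsScalarTower k E K]

variable (ι : Om K₁ →+* Om K)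
  (hι : ∀ z : K₁, ι (algebraMap K₁ (Om K₁) z) = algebraMap K (Om K) (algebraMap K₁ K z))

theorem q2b_le {F F' : Type} [Field F] [Field F'] (i : F →+* F') (B : ValuationSubring F')
    (x w : F) (h : (B.comap i).valuation x ≤ (B.comap i).valuation w) :
    B.valuation (i x) ≤ B.valuation (i w) := by
  by_cases hw : w = 0
  · subst hw
    rw [map_zero] at h
    have h1 : (B.comap i).valuation x = 0 := le_antisymm h zero_le
    have h2 : x = 0 := (Valuation.zero_iff _).1 h1
    rw [h2]
  · have hv : (B.comap i).valuation w ≠ 0 := (Valuation.ne_zero_iff _).2 hw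
    have h1 : (B.comap i).valuation (x / w) ≤ 1 := by
      rw [map_div₀]
      exact div_le_one_of_le₀ h zero_le
    have h2 : x / w ∈ B.comap i := ((B.comap i).valuation_le_one_iff _).1 h1
    have h3 : i (x / w) ∈ B := h2
    have h4 : B.valuation (i (x / w)) ≤ 1 := (B.valuation_le_one_iff _).2 h3
    have hw' : i w ≠ 0 := (map_ne_zero i).2 hw
    have hv' : B.valuation (i w) ≠ 0 := (Valuation.ne_zero_iff _).2 hw'
    rw [map_div₀, map_div₀] at h4
    calc B.valuation (i x) = B.valuation (i x) / B.valuation (i w) * B.valuation (i w) := by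
          rw [div_mul_cancel₀ _ hv']
      _ ≤ 1 * B.valuation (i w) := by gcongr
      _ = B.valuation (i w) := one_mul _

/-- Proof. `y1_mem_of_val` for `ι z`, `ι ρ`. Let `B` be a place of `Om K`; `B' = B.comap ι` contains `k`. If `B' = ⊤` then `B.valuation (ι z) = 1` for `z ≠ 0` (`ι z`, `ι z⁻¹ ∈ B`), take `y = 1` (if `z = 0` take `y = 0`). Otherwise `B'` is a place of `Om K₁`, there is `y` with `B'.valuation z = B'.valuation y ^ N`, i.e. (for `z ≠ 0`)
`z / y ^ N` and its inverse are in `B'`, so `ι (z / y ^ N)` is a unit of `B`: `B.valuation (ι z) = B.valuation (ι y) ^ N`. -/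
theorem QM_root [CharZero E] (z : QM E ι hι) (N : ℕ) (hN : 0 < N) (ρ : Om K₁)
    (hρ : ρ ^ N = (z : Om K₁))
    (hz : ∀ B, IsPlace k K₁ B → ∃ y : QM E ι hι,
      B.valuation (z : Om K₁) = B.valuation (y : Om K₁) ^ N) : ρ ∈ QM E ι hι := by
  show ι ρ ∈ Mnr E K
  refine y1_mem_of_val (⟨ι (z : Om K₁), z.2⟩ : Mnr E K) N hN ?_ (ι ρ) (by rw [← map_pow, hρ])
  intro B hB
  have hk : ∀ a : k, algebraMap k (Om K₁) a ∈ B.comap ι := by
    intro a
    show ι (algebraMap k (Om K₁) a) ∈ B
    rw [IsScalarTower.algebraMap_apply k K₁ (Om K₁), hι, ← IsScalarTower.algebraMap_apply k K₁ K,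
      ← IsScalarTower.algebraMap_apply k K (Om K), IsScalarTower.algebraMap_apply k E (Om K)]
    exact hB.1 (algebraMap k E a)
  have key : ∀ y : QM E ι hι, (B.comap ι).valuation (z : Om K₁) =
      (B.comap ι).valuation (y : Om K₁) ^ N → ∃ y : Mnr E K,
      B.valuation (ι (z : Om K₁)) = B.valuation (y : Om K) ^ N := by
    intro y hy
    rw [← map_pow] at hy
    refine ⟨⟨ι (y : Om K₁), y.2⟩, ?_⟩
    show B.valuation (ι (z : Om K₁)) = B.valuation (ι (y : Om K₁)) ^ N
    rw [← map_pow, ← map_pow]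
    exact le_antisymm (q2b_le ι B _ _ hy.le) (q2b_le ι B _ _ hy.ge)
  by_cases hT : B.comap ι = ⊤
  · by_cases hz0 : (z : Om K₁) = 0
    · refine key 0 ?_
      rw [hz0]
      show (B.comap ι).valuation 0 = (B.comap ι).valuation 0 ^ N
      rw [map_zero, zero_pow hN.ne']
    · refine key 1 ?_
      show (B.comap ι).valuation (z : Om K₁) = (B.comap ι).valuation 1 ^ N
      have h1 : ∀ w : Om K₁, w ∈ B.comap ι := by
        intro w
        rw [hT]
        exact ValuationSubring.mem_top w
      rw [map_one, one_pow]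
      refine le_antisymm (((B.comap ι).valuation_le_one_iff _).2 (h1 _)) ?_
      have h2 : (B.comap ι).valuation (z : Om K₁)⁻¹ ≤ 1 :=
        ((B.comap ι).valuation_le_one_iff _).2 (h1 _)
      rw [map_inv₀] at h2
      have hv : (B.comap ι).valuation (z : Om K₁) ≠ 0 := (Valuation.ne_zero_iff _).2 hz0
      exact (inv_le_one₀ (zero_lt_iff.2 hv)).1 h2
  · obtain ⟨y, hy⟩ := hz (B.comap ι) ⟨hk, hT⟩
    exact key y hy

end GT
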