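import Mathlib
import Pool.Agent.MP_c1dca2_ag.GE.Q0
import Pool.Agent.MP_c1dca2_ag.GE.Q1a
import Pool.Agent.MP_c1dca2_ag.GE.Q1b
import Pool.Agent.MP_c1dca2_ag.GE.Q2a
import Pool.Agent.MP_c1dca2_ag.GE.Q2b
import Pool.Agent.MP_c1dca2_ag.GE.Q2d
import Pool.Agent.MP_c1dca2_ag.SC2.B3
import Pool.Agent.MP_c1dca2_ag.SEC.Defs
import Pool.Agent.MP_c1dca2_ag.SEC.M1

set_option autoImplicit false

open IsLocalRing

namespace GT

/-! ## [GE-Q3] the partial section of a section over an extension `E` of `k` -/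

variable {k E K₁ K : Type} [Field k] [Field E] [Field K₁] [Field K] [Algebra k E] [Algebra k K₁]
  [Algebra k K] [Algebra E K] [Algebra K₁ K] [IsScalarTower k K₁ K] [IsScalarTower k E K]

theorem exists_ps [CharZero k] [CharZero E] [Algebra.IsAlgebraic k E] (s : Sect E K) :
    ∃ (ι : Om K₁ →+* Om K) (f : E →ₐ[k] kb k K₁) (p : PS k K₁ f.fieldRange),
    (∀ z : K₁, ι (algebraMap K₁ (Om K₁) z) = algebraMap K (Om K) (algebraMap K₁ K z)) ∧
    (∀ z, z ∈ p.M ↔ ι z ∈ Mnr E K) ∧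
    ∀ (z : p.M) (y : K), ι (z : Om K₁) = algebraMap K (Om K) y → ∀ σ, p.toHom σ z = z := by
  obtain ⟨ι, hι⟩ := exists_emb (K₁ := K₁) (K := K)
  obtain ⟨f, hf⟩ := exists_copy (k := k) (E := E) ι hι
  obtain ⟨φ, hφ⟩ := exists_kbE (k := k) (E := E) ι hι
  obtain ⟨c, hc, hc'⟩ := exists_conj ι hι f hf
  obtain ⟨T, hT⟩ := exists_toHom ι hι s c
  have hmem : ∀ a : kb k K₁, ι (a : Om K₁) ∈ kb E K := fun a => by
    rw [← hφ]
    exact (φ a).2
  refine ⟨ι, f, ⟨QM E ι hι, ?_, T, ?_, ?_, ?_⟩, hι, fun z => Iff.rfl, ?_⟩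
  · intro z
    exact SEC.kb_le _ (hmem z)
  · intro σ a
    apply ι.injective
    have hb : ι (a : Om K₁) ∈ kb E K := hmem a
    rw [hT]
    exact (s.split (c σ) ⟨ι (a : Om K₁), hb⟩ _).trans (hc σ a ⟨_, hb⟩ rfl).symm
  · intro z
    obtain ⟨E', hE'f, hE'⟩ := SC2.open_stab s ⟨ι (z : Om K₁), z.2⟩
    obtain ⟨F, hFf, hF⟩ := hc' E' hE'f
    refine ⟨F, hFf, fun σ hσ => Subtype.ext (ι.injective ?_)⟩
    rw [hT, hE' (c σ) (hF σ hσ)]
  · intro z N hN ρ hρ hz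
    exact QM_root (k := k) ι hι z N hN ρ hρ hz
  · intro z y hy σ
    refine Subtype.ext (ι.injective ?_)
    have h1 : ι ((T σ z : QM E ι hι) : Om K₁) = (s.toHom (c σ) ⟨ι (z : Om K₁), z.2⟩ : Mnr E K) :=
      hT σ z
    refine h1.trans ?_
    have h2 : (⟨ι (z : Om K₁), z.2⟩ : Mnr E K) = algebraMap K (Mnr E K) y := Subtype.ext hy
    rw [h2, AlgEquiv.commutes]
    exact hy.symm

/-- A section of `π₁(X)` over `E`, `X → Y` nonconstant, `y ^ ℓ = g` in the function field of `X`,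
gives a partial section over the copy of `E` in `kb k K₁` with a fixed root. -/
theorem ps_of_sect [CharZero k] [CharZero E] [Algebra.IsAlgebraic k E] (s : Sect E K) {ℓ : ℕ}
    (hℓ : 0 < ℓ) (g : K₁) (y : K) (hy : y ^ ℓ = algebraMap K₁ K g) :
    ∃ (f : E →ₐ[k] kb k K₁) (p : PS k K₁ f.fieldRange) (y₁ : Om K₁),
      y₁ ^ ℓ = algebraMap K₁ (Om K₁) g ∧ ∀ σ, p.Fix σ y₁ := by
  obtain ⟨ι, f, p, hι, hM, hfix⟩ := exists_ps (k := k) (K₁ := K₁) s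
  obtain ⟨y₁, hy₁⟩ := exists_pre ι (Polynomial.X ^ ℓ - Polynomial.C (algebraMap K₁ (Om K₁) g))
    (Polynomial.X_pow_sub_C_ne_zero hℓ _) (algebraMap K (Om K) y) (by
      simp only [Polynomial.eval₂_sub, Polynomial.eval₂_X_pow, Polynomial.eval₂_C]
      rw [hι, ← hy, map_pow, sub_self])
  refine ⟨f, p, y₁, ι.injective ?_, fun σ => ?_⟩
  · rw [map_pow, hy₁, hι, ← hy, map_pow]
  · have h1 : y₁ ∈ p.M := by
      rw [hM, hy₁]
      exact (Mnr E K).algebraMap_mem _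
    exact ⟨h1, hfix ⟨y₁, h1⟩ y hy₁ σ⟩

end GT
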