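import Mathlib
import Pool.Agent.MP_c1dca2_ag.GT.Base
import Pool.Agent.MP_c1dca2_ag.GT.E0
import Pool.Agent.MP_c1dca2_ag.GT.E2a
import Pool.Agent.MP_c1dca2_ag.GT.E2c
import Pool.Agent.MP_c1dca2_ag.GT.E2d
import Pool.Agent.MP_c1dca2_ag.GT.Y1
import Pool.Agent.MP_c1dca2_ag.GE.G1
import Pool.Agent.MP_c1dca2_ag.GE.H0
import Pool.Agent.MP_c1dca2_ag.GE.Q0
import Pool.Agent.MP_c1dca2_ag.GE.Q3
import Pool.Agent.MP_c1dca2_ag.SC2.A1
import Pool.Agent.MP_c1dca2_ag.SC2.A4
import Pool.Agent.MP_c1dca2_ag.SC2.AB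
import Pool.Agent.MP_c1dca2_ag.SC2.B1
import Pool.Agent.MP_c1dca2_ag.SC2.C2

set_option autoImplicit false
set_option linter.unusedVariables false

open IsLocalRing Polynomial

namespace GT

open SEC SC2

/-! ## [GE-R1] the local theorem over an extension, at the primes of good reduction of a polynomial -/

variable {k K₁ : Type} [Field k] [Field K₁] [Algebra k K₁]

/-- The polynomial `G` over `k` has good reduction at the valuation ring `A` of the extension `E`. -/
def GoodE {k E : Type} [Field k] [Field E] [Algebra k E] (G : k[X]) (A : ValuationSubring E) : Prop :=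
  ∃ G' : A[X], G'.map A.subtype = G.map (algebraMap k E) ∧ (G'.map (residue A)).Separable ∧
    (G'.map (residue A)).natDegree = G'.natDegree

/-- Moreover there is no root in the residue field. -/
def GoodR {k E : Type} [Field k] [Field E] [Algebra k E] (g : k[X]) (A : ValuationSubring E) : Prop :=
  ∃ g' : A[X], g'.map A.subtype = g.map (algebraMap k E) ∧ (g'.map (residue A)).Separable ∧
    (g'.map (residue A)).natDegree = g'.natDegree ∧ ∀ a, (g'.map (residue A)).eval a ≠ 0

/-- If `G` has good reduction its roots are in `V` and fixed by inertia. -/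
theorem r1_SG [CharZero k] {k' : IntermediateField k (kb k K₁)} (S : Finset (kb k K₁)) (G : k[X])
    (hG : ∀ z ∈ S, aeval z G = 0) (A : ValuationSubring k') (V : ValuationSubring (kb k K₁))
    (hV : Above A V) (hGA : GoodE G A) : SG k' S V := by
  classical
  have hac : IsAlgClosed (kb k K₁) := kb_isAlgClosed
  obtain ⟨G', hG', hsep, hdeg⟩ := hGA
  intro c hc
  obtain ⟨r, l, hl, hgr, hr, hd⟩ := exists_roots hV G' hsep hdeg
  have hl0 : l ≠ 0 := by
    rintro rfl
    rw [map_zero, map_zero] at hl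
    exact zero_ne_one hl
  have h1 : ((G'.map A.subtype).map (algebraMap k' (kb k K₁))).eval c = 0 := by
    rw [hG', Polynomial.map_map, ← IsScalarTower.algebraMap_eq, Polynomial.eval_map, ← aeval_def]
    exact hG c hc
  rw [hgr, eval_mul, eval_prod] at h1
  rcases mul_eq_zero.1 h1 with h2 | h2
  · rw [eval_C, map_eq_zero] at h2
    exact absurd h2 hl0
  · obtain ⟨i, -, hi⟩ := Finset.prod_eq_zero_iff.1 h2
    rw [eval_sub, eval_X, eval_C, sub_eq_zero] at hi
    rw [hi]
    exact ⟨hr i, fun σ hσ => y1_f_iner_root r hr hd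
      (fun σ i => y1_f_perm (G'.map A.subtype) l hl0 r hgr σ i) σ hσ i⟩

/-- No partial sections over `k'` at a good prime. -/
theorem r1_local [CharZero k] {ℓ : ℕ} (hℓ : ℓ.Prime) {h : K₁} (S : Finset (kb k K₁))
    (hS : ∀ x : Loc k K₁ ℓ, SG x.k' S x.V → LB k K₁ ℓ h x) (g : k[X]) (x₀ : K₁)
    (hg : ∀ P ∈ Br k K₁ ℓ h, ∃ a : kb k K₁,
      algebraMap K₁ (Lg k K₁) x₀ - algebraMap _ _ a ∈ P.nonunits ∧ aeval a g = 0)
    (G : k[X]) (hG : ∀ z ∈ S, aeval z G = 0) (k' : IntermediateField k (kb k K₁))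
    (A : ValuationSubring k') [IsDiscreteValuationRing A] [Finite (ResidueField A)]
    (hA : (ℓ : ResidueField A) ≠ 0) (hGA : GoodE G A) (hgA : GoodR g A)
    (c : k) (hc : ∀ b : k', A.valuation (algebraMap k k' c) ≠ A.valuation b ^ ℓ)
    (p : PS k K₁ k') (y₁ : Om K₁)
    (hy₁ : y₁ ^ ℓ = algebraMap K₁ (Om K₁) (algebraMap k K₁ c * h)) (hfix : ∀ σ, p.Fix σ y₁) :
    False := by
  classical
  have hℓ' : Fact ℓ.Prime := ⟨hℓ⟩
  have hac : IsAlgClosed (kb k K₁) := kb_isAlgClosed
  have hgal : IsGalois k' (kb k K₁) := kb'_isGalois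
  obtain ⟨V, hV⟩ := exists_above (C := kb k K₁) A
  have hVℓ : V.valuation ((ℓ : ℕ) : kb k K₁) = 1 := y1_val_ell hV ℓ hA
  let L : Loc k K₁ ℓ :=
    { k' := k'
      A := A
      dvr := inferInstance
      fin := inferInstance
      V := V
      above := hV
      hℓ := hVℓ
      p := p }
  have hLA := hS L (r1_SG S G hG A V hV hGA)
  obtain ⟨φ, hφ⟩ := exists_frob (k := k') (C := kb k K₁) hV
  obtain ⟨P, hP, γ, hγ, hγP⟩ := hLA c y₁ ⟨hc, hy₁, hfix⟩ φ hφ
  -- the value at `P` is fixed by `φ`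
  obtain ⟨a, ha, hag⟩ := hg P hP
  have hnu : ∀ w, w ∈ P.nonunits → γ w ∈ P.nonunits := by
    intro w hw
    rw [P.mem_nonunits_iff_or] at hw ⊢
    rcases hw with hw | hw
    · left
      rw [hw, map_zero]
    · right
      rw [← map_inv₀, hγP]
      exact hw
  have h1 := hnu _ ha
  rw [map_sub, AlgEquiv.commutes, hγ] at h1
  have h2 : a = φ a := pl_unique hP.1 ha h1
  -- contradiction
  obtain ⟨g', hg', hsep, hdeg, hroot⟩ := hgA
  obtain ⟨r, l, hl, hgr, hr, hd⟩ := exists_roots hV g' hsep hdeg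
  have hl0 : l ≠ 0 := by
    rintro rfl
    rw [map_zero, map_zero] at hl
    exact zero_ne_one hl
  have h3 : ((g'.map A.subtype).map (algebraMap k' (kb k K₁))).eval a = 0 := by
    rw [hg', Polynomial.map_map, ← IsScalarTower.algebraMap_eq, Polynomial.eval_map, ← aeval_def]
    exact hag
  have h4 : a ∈ V := by
    have h3' := h3
    rw [hgr, eval_mul, eval_prod] at h3'
    rcases mul_eq_zero.1 h3' with h5 | h5
    · rw [eval_C, map_eq_zero] at h5
      exact absurd h5 hl0
    · obtain ⟨i, -, hi⟩ := Finset.prod_eq_zero_iff.1 h5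
      rw [eval_sub, eval_X, eval_C, sub_eq_zero] at hi
      rw [hi]
      exact hr i
  have h5 := hφ.frob a h4
  rw [← h2] at h5
  refine root_not_fixed hV g' hroot a h4 h3 ?_
  rw [V.mem_nonunits_iff] at h5 ⊢
  rw [← Valuation.map_neg, neg_sub]
  exact h5

end GT
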