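import Mathlib
import Pool.Agent.MP_c1dca2_ag.GT.E2e
import Pool.Agent.MP_c1dca2_ag.GT.E2d
import Pool.Agent.MP_c1dca2_ag.GE.G1
import Pool.Agent.MP_c1dca2_ag.GE.J1d
import Pool.Agent.MP_c1dca2_ag.GE.J3

set_option autoImplicit false
set_option linter.unusedVariables false

open IsLocalRing Polynomial NumberField

namespace GT

open SEC SC2

/-! ## [GE-R7] the local theorem for all branch loci -/

/-- `Y` over the algebraic closure has an unramified cyclic cover of degree `ℓ`: there is a `t` which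
is not an `ℓ`-th power, but has the valuation of an `ℓ`-th power at all places. -/
def UnrCover (k K₁ : Type) [Field k] [Field K₁] [Algebra k K₁] (ℓ : ℕ) : Prop :=
  ∃ t : Lg k K₁, t ≠ 0 ∧ (∀ P : ValuationSubring (Lg k K₁), IsPl (kb k K₁) P →
    ∃ z : Lg k K₁, P.valuation t = P.valuation z ^ ℓ) ∧ ∀ z : Lg k K₁, z ^ ℓ ≠ t

section

variable {k K₁ : Type} [Field k] [Field K₁] [Algebra k K₁]

theorem exists_unr {ℓ : ℕ} (h : UnrCover k K₁ ℓ) : ∃ t₀ : LL k K₁, Unr ℓ t₀ := by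
  obtain ⟨t, ht0, ht1, ht2⟩ := h
  refine ⟨lgE k K₁ t, ?_, ?_, ?_⟩
  · exact fun h0 => ht0 ((map_eq_zero_iff _ (lgE k K₁).injective).1 h0)
  · intro P hP
    have hP' : IsPl (kb k K₁) (plE P) := by
      refine ⟨fun c => ?_, fun htop => hP.2 ?_⟩
      · rw [mem_plE, lgE_kb]
        exact hP.1 c
      · ext z
        refine ⟨fun _ => trivial, fun _ => ?_⟩
        rw [← plE'_plE P, mem_plE', htop]
        trivial
    obtain ⟨z, hz⟩ := ht1 (plE P) hP'
    refine ⟨lgE k K₁ z, ?_⟩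
    rw [← map_pow, plE_eq] at hz
    rw [hz, map_pow, map_pow]
  · intro z hz
    refine ht2 ((lgE k K₁).symm z) ?_
    apply (lgE k K₁).injective
    rw [map_pow, RingEquiv.apply_symm_apply, hz]

theorem lb_all [CharZero k] {ℓ : ℕ} [hℓ : Fact ℓ.Prime]
    (hK : ∃ x : K₁, Transcendental k x ∧ FiniteDimensional (IntermediateField.adjoin k {x}) K₁)
    {h : K₁} (hh : h ≠ 0) (h2 : ¬ (ℓ = 2 ∧ (Br k K₁ ℓ h).ncard = 2) ∨ UnrCover k K₁ ℓ) :
    AA (LB k K₁ ℓ h) := by
  obtain ⟨x, hx, hfin⟩ := hK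
  apply lb_of_core
  exact core_all hx hfin hh (by rw [br_ncard]; exact h2.imp id exists_unr)

end

end GT
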