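import Mathlib
import Pool.Agent.MP_c1dca2_ag.GE.R1

set_option autoImplicit false
set_option linter.unusedVariables false

open IsLocalRing Polynomial

namespace GT

open SEC SC2

/-! ## [GE-R2] transport of valuation rings; the local theorem over an extension -/

section transport

variable {k E E' : Type} [Field k] [Field E] [Field E'] [Algebra k E] [Algebra k E'] (e : E ≃ₐ[k] E')
  (A : ValuationSubring E)

/-- The image of `A` under `e`. -/
def trA : ValuationSubring E' := A.comap ((e.symm : E' →ₐ[k] E) : E' →+* E)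

theorem mem_tr (z : E') : z ∈ trA e A ↔ e.symm z ∈ A := Iff.rfl

/-- The isomorphism of the valuation rings. -/
def trEq : A ≃+* trA e A where
  toFun a := ⟨e a, by
    rw [mem_tr, e.symm_apply_apply]
    exact a.2⟩
  invFun a := ⟨e.symm a, a.2⟩
  left_inv a := Subtype.ext (e.symm_apply_apply _)
  right_inv a := Subtype.ext (e.apply_symm_apply _)
  map_mul' a b := Subtype.ext (map_mul e _ _)
  map_add' a b := Subtype.ext (map_add e _ _)

theorem trE_coe (a : A) : ((trEq e A a : trA e A) : E') = e a := rfl

theorem trA_dvr [IsDiscreteValuationRing A] : IsDiscreteValuationRing (trA e A) :=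
  IsDiscreteValuationRing.RingEquivClass.isDiscreteValuationRing (trEq e A)

/-- The isomorphism of the residue fields. -/
noncomputable def trR : ResidueField A ≃+* ResidueField (trA e A) :=
  IsLocalRing.ResidueField.mapEquiv (trEq e A)

theorem trR_residue (a : A) : trR e A (residue A a) = residue (trA e A) (trEq e A a) := rfl

theorem trA_finite [Finite (ResidueField A)] : Finite (ResidueField (trA e A)) :=
  Finite.of_equiv _ (trR e A).toEquiv

theorem trA_ell (n : ℕ) (h : (n : ResidueField A) ≠ 0) : (n : ResidueField (trA e A)) ≠ 0 := by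
  intro h0
  apply h
  apply (trR e A).injective
  rw [map_natCast, map_zero]
  exact h0

theorem trA_goodR (g : k[X]) (h : GoodR g A) : GoodR g (trA e A) := by
  obtain ⟨g', h1, h2, h3, h4⟩ := h
  have h5 : (g'.map (trEq e A : A →+* trA e A)).map (residue (trA e A)) =
      (g'.map (residue A)).map (trR e A : ResidueField A →+* ResidueField (trA e A)) := by
    rw [Polynomial.map_map, Polynomial.map_map]
    rfl
  refine ⟨g'.map (trEq e A : A →+* trA e A), ?_, ?_, ?_, ?_⟩
  · have h6 : (g'.map (trEq e A : A →+* trA e A)).map (trA e A).subtype =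
        (g'.map A.subtype).map ((e : E →ₐ[k] E') : E →+* E') := by
      rw [Polynomial.map_map, Polynomial.map_map]
      rfl
    rw [h6, h1, Polynomial.map_map]
    congr 1
    exact RingHom.ext fun x => e.commutes x
  · rw [h5]
    exact h2.map
  · rw [h5, natDegree_map, h3, natDegree_map_eq_of_injective (trEq e A).injective]
  · intro a ha
    obtain ⟨b, rfl⟩ := (trR e A).surjective a
    rw [h5] at ha
    apply h4 b
    apply (trR e A).injective
    rw [map_zero, ← ha]
    exact (Polynomial.eval_map_apply (trR e A : ResidueField A →+* ResidueField (trA e A)) b).symm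

theorem trA_goodE (g : k[X]) (h : GoodE g A) : GoodE g (trA e A) := by
  obtain ⟨g', h1, h2, h3⟩ := h
  have h5 : (g'.map (trEq e A : A →+* trA e A)).map (residue (trA e A)) =
      (g'.map (residue A)).map (trR e A : ResidueField A →+* ResidueField (trA e A)) := by
    rw [Polynomial.map_map, Polynomial.map_map]
    rfl
  refine ⟨g'.map (trEq e A : A →+* trA e A), ?_, ?_, ?_⟩
  · have h6 : (g'.map (trEq e A : A →+* trA e A)).map (trA e A).subtype =
        (g'.map A.subtype).map ((e : E →ₐ[k] E') : E →+* E') := by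
      rw [Polynomial.map_map, Polynomial.map_map]
      rfl
    rw [h6, h1, Polynomial.map_map]
    congr 1
    exact RingHom.ext fun x => e.commutes x
  · rw [h5]
    exact h2.map
  · rw [h5, natDegree_map, h3, natDegree_map_eq_of_injective (trEq e A).injective]

theorem trA_val (ℓ : ℕ) (c : k) (hc : ∀ b : E, A.valuation (algebraMap k E c) ≠ A.valuation b ^ ℓ)
    (b : E') : (trA e A).valuation (algebraMap k E' c) ≠ (trA e A).valuation b ^ ℓ := by
  intro h
  rw [← map_pow] at h
  have h1 := (g1_eq (e.symm : E' ≃+* E) A (algebraMap k E' c) (b ^ ℓ)).1 h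
  have h2 : (e.symm : E' ≃+* E) (algebraMap k E' c) = algebraMap k E c := e.symm.commutes c
  rw [h2, map_pow, map_pow] at h1
  exact hc _ h1

end transport

variable {k K₁ : Type} [Field k] [Field K₁] [Algebra k K₁]

/-- No sections over the extension `E` at a good prime. -/
theorem r2_local [CharZero k] {ℓ : ℕ} (hℓ : ℓ.Prime) {h : K₁} (S : Finset (kb k K₁))
    (hS : ∀ x : Loc k K₁ ℓ, SG x.k' S x.V → LB k K₁ ℓ h x) (g : k[X]) (x₀ : K₁)
    (hg : ∀ P ∈ Br k K₁ ℓ h, ∃ a : kb k K₁,
      algebraMap K₁ (Lg k K₁) x₀ - algebraMap _ _ a ∈ P.nonunits ∧ aeval a g = 0)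
    (G : k[X]) (hG : ∀ z ∈ S, aeval z G = 0) (E : Type) [Field E] [Algebra k E]
    [Algebra.IsAlgebraic k E]
    (A : ValuationSubring E) [IsDiscreteValuationRing A] [Finite (ResidueField A)]
    (hA : (ℓ : ResidueField A) ≠ 0) (hGA : GoodE G A) (hgA : GoodR g A)
    (c : k) (hc : ∀ b : E, A.valuation (algebraMap k E c) ≠ A.valuation b ^ ℓ)
    {K : Type} [Field K] [Algebra k K] [Algebra E K] [Algebra K₁ K] [IsScalarTower k K₁ K]
    [IsScalarTower k E K] (y : K)
    (hy : y ^ ℓ = algebraMap k K c * algebraMap K₁ K h) : IsEmpty (Sect E K) := by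
  refine ⟨fun s => ?_⟩
  have hE : CharZero E := charZero_of_injective_algebraMap (algebraMap k E).injective
  obtain ⟨f, p, y₁, hy₁, hfix⟩ := ps_of_sect (k := k) (K₁ := K₁) s hℓ.pos
    (algebraMap k K₁ c * h) y (by rw [hy, map_mul, ← IsScalarTower.algebraMap_apply])
  let e : E ≃ₐ[k] f.fieldRange := AlgEquiv.ofInjectiveField f
  have h1 : IsDiscreteValuationRing (trA e A) := trA_dvr e A
  have h2 : Finite (ResidueField (trA e A)) := trA_finite e A
  exact r1_local hℓ S hS g x₀ hg G hG f.fieldRange (trA e A) (trA_ell e A ℓ hA) (trA_goodE e A G hGA)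
    (trA_goodR e A g hgA) c (trA_val e A ℓ c hc) p y₁ hy₁ hfix

end GT
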