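import Mathlib
import Pool.Agent.MP_c1dca2_ag.GE.R2
import Pool.Agent.MP_c1dca2_ag.SUE.V3

set_option autoImplicit false
set_option linter.unusedVariables false

open IsLocalRing Polynomial NumberField IsDedekindDomain

namespace GT

open SEC SC2 SUE

/-! ## [GE-R3] no sections over all extensions whose degree is not in a semigroup -/

variable {k : Type} [Field k] [NumberField k]

section models

variable {E : Type} [Field E] [NumberField E] [Algebra k E] (v : HeightOneSpectrum (𝓞 k))
  (w : HeightOneSpectrum (𝓞 E)) [w.asIdeal.LiesOver v.asIdeal]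

theorem r3_goodE (G : k[X]) (h : GoodE (E := k) G (AP v)) : GoodE G (AP w) := by
  obtain ⟨G', h1, h2, h3⟩ := h
  rw [Algebra.algebraMap_self, Polynomial.map_id] at h1
  have hmr : (G'.map (jj v w)).map (residue (AP w)) = (G'.map (residue (AP v))).map (jr v w) := by
    rw [Polynomial.map_map, Polynomial.map_map]
    rfl
  have hjinj : Function.Injective (jj v w) := by
    intro a b hab
    apply Subtype.ext
    apply (algebraMap k E).injective
    exact congrArg Subtype.val hab
  refine ⟨G'.map (jj v w), ?_, ?_, ?_⟩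
  · rw [← h1, Polynomial.map_map, Polynomial.map_map]
    rfl
  · rw [hmr]
    exact h2.map
  · rw [hmr, natDegree_map, h3, natDegree_map_eq_of_injective hjinj]

theorem r3_goodR (S : Set ℕ) (g : k[X]) (h : GoodFor S g (AP v))
    (hs : ∀ s ∈ S, ¬ s ∣ v.asIdeal.inertiaDeg' w.asIdeal) : GoodR g (AP w) := by
  obtain ⟨g', h1, h2, h3, h4⟩ := h
  have hmr : (g'.map (jj v w)).map (residue (AP w)) = (g'.map (residue (AP v))).map (jr v w) := by
    rw [Polynomial.map_map, Polynomial.map_map]
    rfl
  have hjinj : Function.Injective (jj v w) := by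
    intro a b hab
    apply Subtype.ext
    apply (algebraMap k E).injective
    exact congrArg Subtype.val hab
  refine ⟨g'.map (jj v w), ?_, ?_, ?_, ?_⟩
  · rw [← h1, Polynomial.map_map, Polynomial.map_map]
    rfl
  · rw [hmr]
    exact h2.map
  · rw [hmr, natDegree_map, h3, natDegree_map_eq_of_injective hjinj]
  · exact no_root_of v w g' fun q hq1 hq2 hq3 => by
      obtain ⟨s, hs1, hs2⟩ := h4 q hq1 hq2
      exact hs s hs1 (hs2.trans hq3)

end models

variable {K₁ : Type} [Field K₁] [Algebra k K₁]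

theorem r3_ext {ℓ : ℕ} (hℓ : ℓ.Prime) {h : K₁} (S : Finset (kb k K₁))
    (hS : ∀ x : Loc k K₁ ℓ, SG x.k' S x.V → LB k K₁ ℓ h x) (g : k[X]) (x₀ : K₁)
    (hg : ∀ P ∈ Br k K₁ ℓ h, ∃ a : kb k K₁,
      algebraMap K₁ (Lg k K₁) x₀ - algebraMap _ _ a ∈ P.nonunits ∧ aeval a g = 0)
    (G : k[X]) (hG : ∀ z ∈ S, aeval z G = 0) (v : HeightOneSpectrum (𝓞 k)) (Per : Set ℕ)
    (hA : (ℓ : ResidueField (AP v)) ≠ 0) (hgv : GoodFor Per g (AP v))
    (hGv : GoodE (E := k) G (AP v)) (c : k) (μ : ℕ) (hμ : ¬ ℓ ∣ μ)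
    (hc : v.valuation k c = WithZero.exp (-(μ : ℤ)))
    (E : Type) [Field E] [Algebra k E] [FiniteDimensional k E]
    (hd : Module.finrank k E ∉ AddSubmonoid.closure (insert ℓ Per))
    {K : Type} [Field K] [Algebra k K] [Algebra E K] [Algebra K₁ K] [IsScalarTower k K₁ K]
    [IsScalarTower k E K] (y : K)
    (hy : y ^ ℓ = algebraMap k K c * algebraMap K₁ K h) : IsEmpty (Sect E K) := by
  have hnf : NumberField E := NumberField.of_module_finite k E
  obtain ⟨w, hw, he, hs⟩ := exists_prime_above (L := E) v ℓ Per hd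
  refine r2_local hℓ S hS g x₀ hg G hG E (AP w) ?_ (r3_goodE v w G hGv)
    (r3_goodR v w Per g hgv hs) c ?_ y hy
  · intro h0
    apply hA
    apply (jr v w).injective
    rw [map_natCast, map_zero]
    exact h0
  · refine not_pow v w ℓ μ ?_ c hc
    intro h1
    rcases hℓ.dvd_mul.1 h1 with h2 | h2
    · exact he h2
    · exact hμ h2

end GT
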