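import Mathlib
import Pool.Agent.MP_c1dca2_ag.GT.E2b
import Pool.Agent.MP_c1dca2_ag.GT.E2c
import Pool.Agent.MP_c1dca2_ag.GT.E2d
import Pool.Agent.MP_c1dca2_ag.SUE.V6

set_option autoImplicit false
set_option linter.unusedVariables false

open IsLocalRing Polynomial

namespace GT

open SEC

/-! ## [GE-R4] a function which separates the branch points in the orbits -/

variable {k K₁ : Type} [Field k] [Field K₁] [Algebra k K₁]

/-- A version of `e2_exists_x` with a finite family of automorphisms. -/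
theorem r4_exists_x [CharZero k] (hF : FF (kb k K₁) (Lg k K₁))
    (OM : Finset (ValuationSubring (Lg k K₁))) (hOM : ∀ P ∈ OM, IsPl (kb k K₁) P)
    {J : Type} [Finite J] (Q : J → ValuationSubring (Lg k K₁)) (hQ : ∀ j, Q j ∈ OM)
    (σ : J → (Lg k K₁ ≃ₐ[K₁] Lg k K₁)) (hσ : ∀ j, ¬ ∀ z, σ j z ∈ Q j ↔ z ∈ Q j) :
    ∃ x : K₁, (∀ P ∈ OM, algebraMap K₁ (Lg k K₁) x ∈ P) ∧
      ∀ j, ∀ a : kb k K₁, algebraMap K₁ (Lg k K₁) x - algebraMap _ _ a ∈ (Q j).nonunits →
        σ j (algebraMap _ _ a) ≠ algebraMap _ _ a := by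
  classical
  have hcl : IsAlgClosed (kb k K₁) := SC2.kb_isAlgClosed
  -- the subspaces are proper
  have hne : ∀ j : J, (e2V (Q j) (hOM _ (hQ j)) (σ j)).comap (e2W OM hOM).subtype ≠ ⊤ := by
    intro j htop
    obtain ⟨P, hPeq⟩ : ∃ P, P = Q j := ⟨_, rfl⟩
    have hP : P ∈ OM := by
      rw [hPeq]
      exact hQ j
    obtain ⟨z, a, hza, hσa⟩ : ∃ (z : K₁) (a : kb k K₁),
        algebraMap K₁ (Lg k K₁) z - algebraMap _ _ a ∈ P.nonunits ∧
        σ j (algebraMap _ _ a) ≠ algebraMap _ _ a := by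
      by_contra hcon
      push Not at hcon
      refine hσ j ?_
      rw [← hPeq]
      exact e2_conj hF (hOM P hP) (σ j) hcon
    -- the constant
    obtain ⟨c, hc⟩ : ∃ c : k, ∀ P' ∈ OM, algebraMap K₁ (Lg k K₁) (z - algebraMap k K₁ c) ∉
        P'.nonunits := by
      have hfin : {c : k | ∃ P' ∈ OM, algebraMap K₁ (Lg k K₁) (z - algebraMap k K₁ c) ∈
          P'.nonunits}.Finite := by
        have h1 : {c : k | ∃ P' ∈ OM, algebraMap K₁ (Lg k K₁) (z - algebraMap k K₁ c) ∈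
          P'.nonunits} = ⋃ P' ∈ OM, {c : k | algebraMap K₁ (Lg k K₁) (z - algebraMap k K₁ c) ∈
          P'.nonunits} := by
          ext c
          simp
        rw [h1]
        refine Set.Finite.biUnion OM.finite_toSet fun P' hP' => ?_
        apply Set.Subsingleton.finite
        intro c hc c' hc'
        have h2 : ∀ c : k, algebraMap K₁ (Lg k K₁) (z - algebraMap k K₁ c) =
            algebraMap K₁ (Lg k K₁) z - algebraMap _ _ (algebraMap k (kb k K₁) c) := by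
          intro c
          rw [map_sub, ← algkL_eq, ← algkL_eq']
        have h3 : algebraMap k (kb k K₁) c = algebraMap k (kb k K₁) c' := by
          apply pl_unique (hOM P' hP') (z := algebraMap K₁ (Lg k K₁) z)
          · rw [← h2]
            exact hc
          · rw [← h2]
            exact hc'
        exact (algebraMap k (kb k K₁)).injective h3
      have h2 := hfin.infinite_compl.nonempty
      obtain ⟨c, hc⟩ := h2
      refine ⟨c, fun P' hP' hcon => hc ⟨P', hP', hcon⟩⟩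
    have hw : ∀ P' ∈ OM, algebraMap K₁ (Lg k K₁) (z - algebraMap k K₁ c)⁻¹ ∈ P' := by
      intro P' hP'
      have h1 := hc P' hP'
      rw [P'.mem_nonunits_iff_or] at h1
      push Not at h1
      rw [map_inv₀]
      exact h1.2
    have hmem : (⟨(z - algebraMap k K₁ c)⁻¹, hw⟩ : e2W OM hOM) ∈
        (e2V (Q j) (hOM _ (hQ j)) (σ j)).comap (e2W OM hOM).subtype := by
      rw [htop]
      trivial
    obtain ⟨b, hb1, hb2⟩ := hmem
    rw [← hPeq] at hb2
    change algebraMap K₁ (Lg k K₁) (z - algebraMap k K₁ c)⁻¹ - _ ∈ P.nonunits at hb2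
    -- `b (a - c) = 1`
    have h1 := hc P hP
    rw [P.mem_nonunits_iff_or] at h1
    push Not at h1
    set w : Lg k K₁ := algebraMap K₁ (Lg k K₁) (z - algebraMap k K₁ c) with hwdef
    have hw0 : w ≠ 0 := h1.1
    have hwP : w ∈ P := by
      rw [hwdef, map_sub, ← algkL_eq', algkL_eq]
      exact P.sub_mem (pl_mem (hOM P hP) hza) ((hOM P hP).1 _)
    have h3 : w - algebraMap _ _ (a - algebraMap k (kb k K₁) c) ∈ P.nonunits := by
      have h4 : w - algebraMap _ _ (a - algebraMap k (kb k K₁) c) =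
          algebraMap K₁ (Lg k K₁) z - algebraMap _ _ a := by
        rw [hwdef, map_sub, map_sub, ← algkL_eq', ← algkL_eq]
        ring
      rw [h4]
      exact hza
    have h5 : b * (a - algebraMap k (kb k K₁) c) = 1 := by
      have h6 : algebraMap (kb k K₁) (Lg k K₁) (1 - b * (a - algebraMap k (kb k K₁) c)) ∈
          P.nonunits := by
        have h7 : algebraMap (kb k K₁) (Lg k K₁) (1 - b * (a - algebraMap k (kb k K₁) c)) =
            w * (w⁻¹ - algebraMap _ _ b) + algebraMap _ _ b *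
              (w - algebraMap _ _ (a - algebraMap k (kb k K₁) c)) := by
          rw [map_sub, map_mul, map_one, mul_sub, mul_inv_cancel₀ hw0]
          ring
        rw [h7]
        apply P.nonunits.add_mem
        · rw [map_inv₀, P.mem_nonunits_iff] at hb2
          rw [P.mem_nonunits_iff, map_mul, mul_comm]
          exact mul_lt_one_of_lt_of_le hb2 ((P.valuation_le_one_iff _).2 hwP)
        · rw [P.mem_nonunits_iff] at h3 ⊢
          rw [map_mul, mul_comm]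
          exact mul_lt_one_of_lt_of_le h3 ((P.valuation_le_one_iff _).2 ((hOM P hP).1 b))
      exact (sub_eq_zero.1 (pl_zero (hOM P hP) h6)).symm
    apply hσa
    have h8 : a = b⁻¹ + algebraMap k (kb k K₁) c := by
      rw [← eq_inv_of_mul_eq_one_right h5]
      ring
    rw [h8, map_add, map_add, map_inv₀, map_inv₀, hb1, ← algkL_eq, algkL_eq', AlgEquiv.commutes]
  have hcov : ⋃ j : J, ((e2V (Q j) (hOM _ (hQ j)) (σ j)).comap (e2W OM hOM).subtype :
      Set (e2W OM hOM)) ≠ Set.univ := by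
    intro h
    have hinf : Infinite k := inferInstance
    obtain ⟨j, hj⟩ := Subspace.exists_eq_top_of_iUnion_eq_univ h
    exact hne j hj
  rw [Set.ne_univ_iff_exists_notMem] at hcov
  obtain ⟨⟨x, hx⟩, hx2⟩ := hcov
  refine ⟨x, fun P hP => hx P hP, fun j a ha hσa => hx2 ?_⟩
  rw [Set.mem_iUnion]
  exact ⟨j, a, hσa, ha⟩


/-- The automorphism `σ` fixes the place `P`. -/
def Fxs (σ : Lg k K₁ ≃ₐ[K₁] Lg k K₁) (P : ValuationSubring (Lg k K₁)) : Prop :=
  ∀ z, σ z ∈ P ↔ z ∈ P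

theorem Fxs.mul {σ τ : Lg k K₁ ≃ₐ[K₁] Lg k K₁} {P : ValuationSubring (Lg k K₁)} (h : Fxs σ P)
    (h' : Fxs τ P) : Fxs (σ * τ) P := fun z => by
  rw [AlgEquiv.mul_apply, h, h']

theorem Fxs.pow {σ : Lg k K₁ ≃ₐ[K₁] Lg k K₁} {P : ValuationSubring (Lg k K₁)} (h : Fxs σ P)
    (n : ℕ) : Fxs (σ ^ n) P := by
  induction n with
  | zero => intro z; rw [pow_zero, AlgEquiv.one_apply]
  | succ n ih => rw [pow_succ]; exact ih.mul h

/-- The lengths of the orbits of `σ` on the branch points. -/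
def Len (k K₁ : Type) [Field k] [Field K₁] [Algebra k K₁] (ℓ : ℕ) (h : K₁)
    (σ : Lg k K₁ ≃ₐ[K₁] Lg k K₁) : Set ℕ :=
  {d | ∃ P ∈ Br k K₁ ℓ h, IsLeast {n : ℕ | 0 < n ∧ ∀ z, (σ ^ n) z ∈ P ↔ z ∈ P} d}

theorem r4_period {ℓ : ℕ} {h : K₁} (hfin : (Br k K₁ ℓ h).Finite) (σ : Lg k K₁ ≃ₐ[K₁] Lg k K₁) :
    ∃ M : ℕ, 0 < M ∧ ∀ P ∈ Br k K₁ ℓ h, Fxs (σ ^ M) P := by
  classical
  have h1 : ∀ P : ValuationSubring (Lg k K₁), ∃ d : ℕ, 0 < d ∧ (P ∈ Br k K₁ ℓ h → Fxs (σ ^ d) P) := by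
    intro P
    by_cases hP : P ∈ Br k K₁ ℓ h
    swap
    · exact ⟨1, one_pos, fun h => absurd h hP⟩
    · have hfin' : Finite (Br k K₁ ℓ h) := hfin
      let f : ℕ → Br k K₁ ℓ h := fun n =>
        ⟨pcj P ((σ ^ n : Lg k K₁ ≃ₐ[K₁] Lg k K₁) : Lg k K₁ ≃+* Lg k K₁), pcj_br hP (σ ^ n)⟩
      obtain ⟨i, j, hij, hf⟩ : ∃ i j : ℕ, i < j ∧ f i = f j := by
        obtain ⟨i, j, hne, hf⟩ := Finite.exists_ne_map_eq_of_infinite f
        rcases lt_or_gt_of_ne hne with h | h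
        · exact ⟨i, j, h, hf⟩
        · exact ⟨j, i, h, hf.symm⟩
      refine ⟨j - i, Nat.sub_pos_of_lt hij, fun _ => ?_⟩
      intro w
      have h2 : pcj P ((σ ^ i : Lg k K₁ ≃ₐ[K₁] Lg k K₁) : Lg k K₁ ≃+* Lg k K₁) =
          pcj P ((σ ^ j : Lg k K₁ ≃ₐ[K₁] Lg k K₁) : Lg k K₁ ≃+* Lg k K₁) :=
        congrArg Subtype.val hf
      have h3 : (σ ^ j) w ∈ pcj P ((σ ^ i : Lg k K₁ ≃ₐ[K₁] Lg k K₁) : Lg k K₁ ≃+* Lg k K₁) ↔
          (σ ^ j) w ∈ pcj P ((σ ^ j : Lg k K₁ ≃ₐ[K₁] Lg k K₁) : Lg k K₁ ≃+* Lg k K₁) := by rw [h2]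
      have h4 : (σ ^ j) w ∈ pcj P ((σ ^ j : Lg k K₁ ≃ₐ[K₁] Lg k K₁) : Lg k K₁ ≃+* Lg k K₁) ↔
          w ∈ P := map_mem_pcj P _ w
      have h5 : (σ ^ j) w = (σ ^ i) ((σ ^ (j - i)) w) := by
        rw [← AlgEquiv.mul_apply, ← pow_add, Nat.add_sub_cancel' hij.le]
      have h6 : (σ ^ j) w ∈ pcj P ((σ ^ i : Lg k K₁ ≃ₐ[K₁] Lg k K₁) : Lg k K₁ ≃+* Lg k K₁) ↔
          (σ ^ (j - i)) w ∈ P := by
        rw [h5]
        exact map_mem_pcj P _ _
      rw [← h6, h3, h4]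
  choose d hd0 hd using h1
  refine ⟨∏ P ∈ hfin.toFinset, d P, Finset.prod_pos fun P _ => hd0 P, fun P hP => ?_⟩
  obtain ⟨m, hm⟩ := Finset.dvd_prod_of_mem d (hfin.mem_toFinset.2 hP)
  rw [hm, pow_mul]
  exact (hd P hP).pow m

end GT
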