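import Mathlib
import Pool.Agent.MP_c1dca2_ag.GE.R4

set_option autoImplicit false
set_option linter.unusedVariables false

open IsLocalRing Polynomial

namespace GT

open SEC

/-! ## [GE-R5] the polynomial of the branch points -/

variable {k K₁ : Type} [Field k] [Field K₁] [Algebra k K₁]

theorem r5_pow_kb {σ : Lg k K₁ ≃ₐ[K₁] Lg k K₁} {τ : kb k K₁ ≃ₐ[k] kb k K₁}
    (hτ : ∀ a : kb k K₁, σ (algebraMap _ _ a) = algebraMap _ _ (τ a)) (n : ℕ) (a : kb k K₁) :
    (σ ^ n) (algebraMap _ _ a) = algebraMap (kb k K₁) (Lg k K₁) ((τ ^ n) a) := by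
  induction n with
  | zero => rw [pow_zero, pow_zero, AlgEquiv.one_apply, AlgEquiv.one_apply]
  | succ n ih => rw [pow_succ', pow_succ', AlgEquiv.mul_apply, AlgEquiv.mul_apply, ih, hτ]

/-- If `σ` fixes `P`, it fixes the values at `P` of the elements of `K₁`. -/
theorem r5_value {σ : Lg k K₁ ≃ₐ[K₁] Lg k K₁} {τ : kb k K₁ ≃ₐ[k] kb k K₁}
    (hτ : ∀ a : kb k K₁, σ (algebraMap _ _ a) = algebraMap _ _ (τ a))
    {P : ValuationSubring (Lg k K₁)} (hP : IsPl (kb k K₁) P) (hσ : Fxs σ P) {x : K₁} {a : kb k K₁}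
    (h : algebraMap K₁ (Lg k K₁) x - algebraMap _ _ a ∈ P.nonunits) : τ a = a := by
  have hnu : ∀ w, w ∈ P.nonunits → σ w ∈ P.nonunits := by
    intro w hw
    rw [P.mem_nonunits_iff_or] at hw ⊢
    rcases hw with hw | hw
    · left
      rw [hw, map_zero]
    · right
      rw [← map_inv₀, hσ]
      exact hw
  have h1 := hnu _ h
  rw [map_sub, AlgEquiv.commutes, hτ] at h1
  exact (pl_unique hP h h1).symm

/-- A function `x` and a polynomial `g` over `k` whose roots are the values of `x` at the branch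
points, with an element of its Galois group which has only periods which are lengths of orbits of
`σ` on the branch points. -/
theorem r5_main [CharZero k] (hcl : ∀ a : K₁, IsIntegral k a → a ∈ Set.range (algebraMap k K₁))
    (hF : FF (kb k K₁) (Lg k K₁)) {ℓ : ℕ} {h : K₁} (hfin : (Br k K₁ ℓ h).Finite)
    (σ : Lg k K₁ ≃ₐ[K₁] Lg k K₁) :
    ∃ (g : k[X]) (x : K₁), g.Separable ∧ (∃ σ₀ : g.SplittingField ≃ₐ[k] g.SplittingField,
      SUE.periods g σ₀ ⊆ Len k K₁ ℓ h σ) ∧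
      ∀ P ∈ Br k K₁ ℓ h, ∃ a : kb k K₁,
        algebraMap K₁ (Lg k K₁) x - algebraMap _ _ a ∈ P.nonunits ∧ aeval a g = 0 := by
  classical
  have hac : IsAlgClosed (kb k K₁) := SC2.kb_isAlgClosed
  have hgal : IsGalois k (kb k K₁) := SC2.kb_isGalois
  obtain ⟨M, hM0, hM⟩ := r4_period hfin σ
  have hJfin : Finite (Br k K₁ ℓ h) := hfin
  let J : Type := {j : Br k K₁ ℓ h × Fin (M + 1) // ¬ Fxs (σ ^ (j.2 : ℕ)) j.1.1}
  have hJ : Finite J := inferInstance
  obtain ⟨x, hx1, hx2⟩ := r4_exists_x hF hfin.toFinset (fun P hP => (hfin.mem_toFinset.1 hP).1)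
    (J := J) (fun j => j.1.1.1) (fun j => hfin.mem_toFinset.2 j.1.1.2)
    (fun j => σ ^ (j.1.2 : ℕ)) (fun j => j.2)
  have hsep : ∀ P ∈ Br k K₁ ℓ h, ∀ n : ℕ, n ≤ M → ∀ a : kb k K₁,
      algebraMap K₁ (Lg k K₁) x - algebraMap _ _ a ∈ P.nonunits →
      (σ ^ n) (algebraMap _ _ a) = algebraMap (kb k K₁) (Lg k K₁) a → Fxs (σ ^ n) P := by
    intro P hP n hn a ha hσa
    by_contra hcon
    exact hx2 ⟨(⟨P, hP⟩, ⟨n, by omega⟩), hcon⟩ a ha hσa
  have hval : ∀ P : ValuationSubring (Lg k K₁), ∃ a : kb k K₁, P ∈ Br k K₁ ℓ h →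
      algebraMap K₁ (Lg k K₁) x - algebraMap _ _ a ∈ P.nonunits := by
    intro P
    by_cases hP : P ∈ Br k K₁ ℓ h
    · obtain ⟨a, ha⟩ := pl_res hF hP.1 _ (hx1 P (hfin.mem_toFinset.2 hP))
      exact ⟨a, fun _ => ha⟩
    · exact ⟨0, fun h => absurd h hP⟩
  choose a ha using hval
  obtain ⟨g, hg1, hg2, hg3⟩ := e2_poly (k := k) (hfin.toFinset.image a)
  refine ⟨g, x, hg1, ?_, ?_⟩
  · obtain ⟨τ, hτ⟩ := e2_res_kb σ
    let ψ : g.SplittingField →ₐ[k] kb k K₁ := IsAlgClosed.lift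
    let _ : Algebra g.SplittingField (kb k K₁) := ψ.toRingHom.toAlgebra
    have _ : IsScalarTower k g.SplittingField (kb k K₁) := IsScalarTower.of_algebraMap_eq fun x =>
      (ψ.commutes x).symm
    let σ₀ : g.SplittingField ≃ₐ[k] g.SplittingField := AlgEquiv.restrictNormal τ g.SplittingField
    have hσ₀ : ∀ r, ψ (σ₀ r) = τ (ψ r) := fun r =>
      AlgEquiv.restrictNormal_commutes τ g.SplittingField r
    have hiter : ∀ (n : ℕ) r, ψ (σ₀^[n] r) = (τ ^ n) (ψ r) := by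
      intro n
      induction n with
      | zero => intro r; rfl
      | succ n ih =>
        intro r
        rw [Function.iterate_succ_apply', hσ₀, ih, pow_succ', AlgEquiv.mul_apply]
    refine ⟨σ₀, ?_⟩
    rintro d ⟨r, hr, hd⟩
    set w : kb k K₁ := ψ r with hw
    have hwg : aeval w g = 0 := by
      rw [hw, aeval_algHom_apply, hr, map_zero]
    obtain ⟨z, hz, hwz⟩ := hg3 (kb k K₁) w hwg
    obtain ⟨P, hP, rfl⟩ := Finset.mem_image.1 hz
    obtain ⟨τ', hτ'⟩ := minpoly.exists_algEquiv_of_root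
      (Algebra.IsAlgebraic.isAlgebraic (R := k) (a P)) hwz
    obtain ⟨γ', hγ'⟩ := e2_lift hcl τ'.symm
    have hτ'' : τ'.symm (a P) = w := by
      rw [← hτ', AlgEquiv.symm_apply_apply]
    have hPB := hfin.mem_toFinset.1 hP
    have h1 := pcj_value γ' hγ' (ha P hPB)
    rw [hτ''] at h1
    set P' := pcj P (γ' : Lg k K₁ ≃+* Lg k K₁) with hP'
    have hP'B : P' ∈ Br k K₁ ℓ h := pcj_br hPB γ'
    have hfix : ∀ n : ℕ, Fxs (σ ^ n) P' → Function.IsPeriodicPt σ₀ n r := by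
      intro n hn
      have h2 := r5_value (fun a => r5_pow_kb hτ n a) hP'B.1 hn h1
      apply ψ.toRingHom.injective
      change ψ (σ₀^[n] r) = ψ r
      rw [hiter]
      exact h2
    have hper : Function.IsPeriodicPt σ₀ M r := hfix M (hM P' hP'B)
    have hdM : d ∣ M := by
      rw [← hd]
      exact hper.minimalPeriod_dvd
    have hd0 : 0 < d := by
      rw [← hd]
      exact hper.minimalPeriod_pos hM0
    refine ⟨P', hP'B, ⟨hd0, ?_⟩, ?_⟩
    · refine hsep P' hP'B d (Nat.le_of_dvd hM0 hdM) w h1 ?_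
      rw [r5_pow_kb hτ]
      congr 1
      have h2 : Function.IsPeriodicPt σ₀ d r := by
        rw [← hd]
        exact Function.isPeriodicPt_minimalPeriod _ _
      have h3 : ψ (σ₀^[d] r) = ψ r := by rw [h2]
      rw [hiter] at h3
      exact h3
    · rintro n ⟨hn0, hn⟩
      rw [← hd]
      exact (hfix n hn).minimalPeriod_le hn0
  · intro P hP
    exact ⟨a P, ha P hP, hg2 _ (Finset.mem_image_of_mem _ (hfin.mem_toFinset.2 hP))⟩

end GT
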