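import Mathlib
import Pool.Agent.MP_c1dca2_ag.GE.R3
import Pool.Agent.MP_c1dca2_ag.GE.R5
import Pool.Agent.MP_c1dca2_ag.GT.BC4
import Pool.Agent.MP_c1dca2_ag.GT.Y1
import Pool.Agent.MP_c1dca2_ag.SEC.S
import Pool.Agent.MP_c1dca2_ag.SUE.V6

set_option autoImplicit false
set_option linter.unusedVariables false

open IsLocalRing Polynomial NumberField IsDedekindDomain

namespace GT

open SEC SC2 SUE

/-! ## [GE-R6] forms over a subfield, extensions -/

/-- No sections, no rational points, the section conjecture. -/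
def NoSec (k K : Type) [Field k] [Field K] [Algebra k K] : Prop :=
  SCJ.SectionConjecture k K ∧ IsEmpty (SCJ.Sect k K) ∧ IsEmpty (SCJ.RatPlace k K)

theorem r6_of_sect {k K : Type} [Field k] [CharZero k] [Field K] [Algebra k K]
    (h : IsEmpty (Sect k K)) : NoSec k K := by
  have h1 : IsEmpty (SCJ.Sect k K) := ⟨fun s => h.elim (y1_sect s)⟩
  have h2 : IsEmpty (SCJ.RatPlace k K) := ⟨fun P => by
    obtain ⟨s⟩ := sect_of_ratPlace (y1_rat P)
    exact h.elim s⟩
  exact ⟨⟨fun P => h2.elim P, fun s => h1.elim s⟩, h1, h2⟩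

theorem noSec_of_base {k₀ k K₀ K : Type} [Field k₀] [CharZero k₀] [Field k] [Field K₀] [Field K]
    [Algebra k₀ k] [Algebra.IsAlgebraic k₀ k] [Algebra k₀ K₀] [Algebra k₀ K] [Algebra k K]
    [Algebra K₀ K] [IsScalarTower k₀ k K] [IsScalarTower k₀ K₀ K]
    (hK : ∀ z : K, z ∈ IntermediateField.adjoin K₀ (Set.range (algebraMap k K)))
    (h : IsEmpty (Sect k K)) : NoSec k₀ K₀ := by
  apply r6_of_sect
  refine ⟨fun s => ?_⟩
  obtain ⟨s'⟩ := sect_base_change (k₀ := k₀) (k := k) (K₀ := K₀) (K := K) hK s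
  exact h.elim s'

section compositum

variable {k₀ k k' K : Type} [Field k₀] [Field k] [Field k'] [Field K] [Algebra k₀ k] [Algebra k₀ k']
  [Algebra k₀ K] [Algebra k K] [Algebra k' K] [IsScalarTower k₀ k K] [IsScalarTower k₀ k' K]

/-- The compositum of `k` and `k'` in `K`. -/
def Cmp (k k' K : Type) [Field k] [Field k'] [Field K] [Algebra k K] [Algebra k' K] :
    IntermediateField k K :=
  IntermediateField.adjoin k (Set.range (algebraMap k' K))

theorem cmp_finite [FiniteDimensional k₀ k'] : FiniteDimensional k (Cmp k k' K) := by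
  classical
  let B := Module.finBasis k₀ k'
  let S : Finset K := Finset.univ.image fun i => algebraMap k' K (B i)
  have hint : ∀ t : k', IsIntegral k (algebraMap k' K t) := by
    intro t
    have h1 : IsIntegral k₀ t := Algebra.IsIntegral.isIntegral t
    exact (h1.map (IsScalarTower.toAlgHom k₀ k' K)).tower_top
  have hle : Cmp k k' K ≤ IntermediateField.adjoin k (S : Set K) := by
    rw [Cmp, IntermediateField.adjoin_le_iff]
    rintro _ ⟨t, rfl⟩
    have h2 : algebraMap k' K t = ∑ i, algebraMap k K (algebraMap k₀ k (B.repr t i)) *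
        algebraMap k' K (B i) := by
      conv_lhs => rw [← B.sum_repr t]
      rw [map_sum]
      refine Finset.sum_congr rfl fun i _ => ?_
      rw [Algebra.smul_def, map_mul, ← IsScalarTower.algebraMap_apply k₀ k' K,
        ← IsScalarTower.algebraMap_apply k₀ k K]
    rw [SetLike.mem_coe, h2]
    refine sum_mem fun i _ => mul_mem (IntermediateField.algebraMap_mem _ _) ?_
    apply IntermediateField.subset_adjoin
    exact Finset.mem_coe.2 (Finset.mem_image_of_mem _ (Finset.mem_univ i))
  have hfin : Finite (S : Set K) := S.finite_toSet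
  have h3 : FiniteDimensional k (IntermediateField.adjoin k (S : Set K)) := by
    refine IntermediateField.finiteDimensional_adjoin fun x hx => ?_
    obtain ⟨i, -, rfl⟩ := Finset.mem_image.1 (Finset.mem_coe.1 hx)
    exact hint _
  exact FiniteDimensional.of_injective (IntermediateField.inclusion hle).toLinearMap
    (IntermediateField.inclusion hle).injective

/-- The embedding of `k'` in the compositum. -/
def toCmp (k k' K : Type) [Field k] [Field k'] [Field K] [Algebra k K] [Algebra k' K] :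
    k' →+* Cmp k k' K :=
  (algebraMap k' K).codRestrict (Cmp k k' K) fun t => IntermediateField.subset_adjoin _ _ ⟨t, rfl⟩

end compositum

/-- For all finite extensions `k'` of `k₀` such that the degree of the compositum `k' k` over `k` is
not in the semigroup generated by `ℓ` and `Per`, for all fields `K₀` over `k'` such that the
compositum `K` of `K₀` and `k` contains `K₁` and a root of `y ^ ℓ = c h`. -/
def NoSecAll (k₀ k K₁ : Type) [Field k₀] [Field k] [Algebra k₀ k] [Field K₁] [Algebra k K₁]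
    (ℓ : ℕ) (h : K₁) (Per : Set ℕ) (c : k) : Prop :=
  ∀ (k' K₀ K : Type) [Field k'] [Field K₀] [Field K] [Algebra k₀ k'] [FiniteDimensional k₀ k']
    [Algebra k' K₀] [Algebra k₀ K] [Algebra k K] [Algebra k' K] [Algebra K₀ K] [Algebra K₁ K]
    [IsScalarTower k₀ k K] [IsScalarTower k₀ k' K] [IsScalarTower k' K₀ K] [IsScalarTower k K₁ K],
    (∀ z : K, z ∈ IntermediateField.adjoin K₀ (Set.range (algebraMap k K))) →
    Module.finrank k (IntermediateField.adjoin k (Set.range (algebraMap k' K))) ∉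
      AddSubmonoid.closure (insert ℓ Per) →
    ∀ y : K, y ^ ℓ = algebraMap k K c * algebraMap K₁ K h → NoSec k' K₀

/-- The forms over extensions, at a good prime. -/
theorem r6_good {k₀ k : Type} [Field k₀] [CharZero k₀] [Field k] [NumberField k] [Algebra k₀ k]
    [FiniteDimensional k₀ k] {K₁ : Type} [Field K₁] [Algebra k K₁] {ℓ : ℕ} (hℓ : ℓ.Prime) {h : K₁}
    (S : Finset (kb k K₁)) (hS : ∀ x : Loc k K₁ ℓ, SG x.k' S x.V → LB k K₁ ℓ h x) (g : k[X])
    (x₀ : K₁) (hg : ∀ P ∈ Br k K₁ ℓ h, ∃ a : kb k K₁,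
      algebraMap K₁ (Lg k K₁) x₀ - algebraMap _ _ a ∈ P.nonunits ∧ aeval a g = 0)
    (G : k[X]) (hG : ∀ z ∈ S, aeval z G = 0) (v : HeightOneSpectrum (𝓞 k)) (Per : Set ℕ)
    (hA : (ℓ : ResidueField (AP v)) ≠ 0) (hgv : GoodFor Per g (AP v))
    (hGv : GoodE (E := k) G (AP v)) (c : k) (μ : ℕ) (hμ : ¬ ℓ ∣ μ)
    (hc : v.valuation k c = WithZero.exp (-(μ : ℤ))) : NoSecAll k₀ k K₁ ℓ h Per c := by
  intro k' K₀ K _ _ _ _ _ _ _ _ _ _ _ _ _ _ _ hK hd y hy
  have hk' : CharZero k' := charZero_of_injective_algebraMap (algebraMap k₀ k').injective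
  have hfin : FiniteDimensional k (Cmp k k' K) := cmp_finite (k₀ := k₀)
  letI : Algebra k' (Cmp k k' K) := (toCmp k k' K).toAlgebra
  have htow : IsScalarTower k' (Cmp k k' K) K := IsScalarTower.of_algebraMap_eq fun t => rfl
  have halg : Algebra.IsAlgebraic k' (Cmp k k' K) := by
    refine ⟨fun z => ?_⟩
    have h1 : IsAlgebraic k (z : K) := by
      have h2 : IsAlgebraic k z := Algebra.IsAlgebraic.isAlgebraic z
      exact IsAlgebraic.algHom (Cmp k k' K).val h2
    have h2 : IsAlgebraic k₀ (z : K) := IsAlgebraic.restrictScalars k₀ h1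
    have h3 : IsAlgebraic k' (algebraMap (Cmp k k' K) K z) := h2.tower_top k'
    exact (isAlgebraic_algebraMap_iff (algebraMap (Cmp k k' K) K).injective).1 h3
  refine noSec_of_base (k₀ := k') (k := Cmp k k' K) (K₀ := K₀) (K := K) (fun z => ?_) ?_
  · have hle : IntermediateField.adjoin K₀ (Set.range (algebraMap k K)) ≤
        IntermediateField.adjoin K₀ (Set.range (algebraMap (Cmp k k' K) K)) := by
      apply IntermediateField.adjoin.mono
      rintro _ ⟨t, rfl⟩
      exact ⟨algebraMap k (Cmp k k' K) t, rfl⟩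
    exact hle (hK z)
  · exact r3_ext hℓ S hS g x₀ hg G hG v Per hA hgv hGv c μ hμ hc (Cmp k k' K) hd y hy

end GT
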