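import Mathlib
import Pool.Agent.MP_c1dca2_ag.GE.R6
import Pool.Agent.MP_c1dca2_ag.GT.G3
import Pool.Agent.MP_c1dca2_ag.GT.G4
import Pool.Agent.MP_c1dca2_ag.GT.E2a
import Pool.Agent.MP_c1dca2_ag.GT.E2c
import Pool.Agent.MP_c1dca2_ag.SC4.X5
import Pool.Agent.MP_c1dca2_ag.SUE.V1
import Pool.Agent.MP_c1dca2_ag.SUE.V6
import Pool.Agent.MP_c1dca2_ag.SUE.V10

set_option autoImplicit false
set_option linter.unusedVariables false

open IsLocalRing Polynomial NumberField IsDedekindDomain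

namespace GT

open SEC SC2 SUE

/-! ## [GE-R8] density for one automorphism -/

/-- The exact valuation of the twisting parameter. -/
theorem val_cc' {k₀ k : Type} [Field k₀] [Field k] [NumberField k] [Algebra k₀ k]
    [FiniteDimensional k₀ k] (n : (k ≃ₐ[k₀] k) → ℕ) (v : HeightOneSpectrum (𝓞 k)) (x : 𝓞 k)
    (hx1 : x ∈ v.asIdeal) (hx2 : x ∉ v.asIdeal ^ 2)
    (hx : ∀ σ : k ≃ₐ[k₀] k, σ ≠ 1 → x ∉ v.asIdeal.comap (og σ : 𝓞 k →+* 𝓞 k)) :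
    v.valuation k (cc n (x : k)) = WithZero.exp (-(n 1 : ℤ)) := by
  classical
  rw [cc, map_prod, Finset.prod_eq_single (1 : k ≃ₐ[k₀] k)]
  · rw [map_pow]
    have h1 : v.valuation k ((1 : k ≃ₐ[k₀] k) (x : k)) = WithZero.exp (-1 : ℤ) :=
      SUE.val_one v x hx1 hx2
    rw [h1, ← WithZero.exp_nsmul]
    simp
  · intro σ _ hσ
    have h1 : v.valuation k (σ (x : k)) = 1 := by
      rw [← og_coe]
      have h2 : v.valuation k (algebraMap (𝓞 k) k (og σ x)) ≤ 1 := v.valuation_le_one _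
      have h3 : ¬ v.valuation k (algebraMap (𝓞 k) k (og σ x)) < 1 := by
        rw [v.valuation_lt_one_iff_mem]
        exact hx σ hσ
      exact le_antisymm h2 (not_lt.1 h3)
    rw [map_pow, h1, one_pow]
  · intro h
    exact absurd (Finset.mem_univ _) h

theorem r8_goodE {k : Type} [Field k] [NumberField k] (G : k[X]) (hG : G.Separable) :
    ∃ B : Set (Ideal (𝓞 k)), B.Finite ∧ ∀ v : HeightOneSpectrum (𝓞 k), v.asIdeal ∉ B →
      GoodE (E := k) G (AP v) := by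
  have hfin : Module.Finite k G.SplittingField := inferInstance
  have hnf : NumberField G.SplittingField := NumberField.of_module_finite k G.SplittingField
  obtain ⟨B, hB, h⟩ := SC4.good_primes G hG (SplittingField.splits G)
  refine ⟨B, hB, fun v hv => ?_⟩
  obtain ⟨g, h1, h2, h3, -⟩ := h v.asIdeal v.isPrime v.ne_bot hv (AP v) (AP_int v) (AP_lt v)
  exact ⟨g, by rw [h1, Algebra.algebraMap_self, Polynomial.map_id], h2, h3⟩

theorem NoSecAll.mono {k₀ k K₁ : Type} [Field k₀] [Field k] [Algebra k₀ k] [Field K₁]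
    [Algebra k K₁] {ℓ : ℕ} {h : K₁} {Per Per' : Set ℕ} (hP : Per ⊆ Per') {c : k}
    (hc : NoSecAll k₀ k K₁ ℓ h Per c) : NoSecAll k₀ k K₁ ℓ h Per' c := by
  intro k' K₀ K _ _ _ _ _ _ _ _ _ _ _ _ _ _ _ hK hd y hy
  refine hc k' K₀ K hK (fun hcon => hd ?_) y hy
  exact AddSubmonoid.closure_mono (Set.insert_subset_insert hP) hcon

theorem r8_not_summable {A B : Set ℕ} (h : A ⊆ B)
    (hA : ¬ Summable (fun p : A => ((p : ℕ) : ℝ)⁻¹)) :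
    ¬ Summable (fun p : B => ((p : ℕ) : ℝ)⁻¹) := by
  intro hB
  apply hA
  exact Summable.comp_injective hB (i := Set.inclusion h) (Set.inclusion_injective h)

theorem r8_one {k₀ k : Type} [Field k₀] [CharZero k₀] [Field k] [NumberField k] [Algebra k₀ k]
    [FiniteDimensional k₀ k] {K₁ : Type} [Field K₁] [Algebra k K₁]
    (hcl : ∀ a : K₁, IsIntegral k a → a ∈ Set.range (algebraMap k K₁))
    (hF : FF (kb k K₁) (Lg k K₁)) {ℓ : ℕ} (hℓ : ℓ.Prime) {h : K₁} (hfin : (Br k K₁ ℓ h).Finite)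
    (hLB : AA (LB k K₁ ℓ h)) (σ : Lg k K₁ ≃ₐ[K₁] Lg k K₁)
    (n : (k ≃ₐ[k₀] k) → ℕ) (hn : ¬ ℓ ∣ n 1)
    {ι : Type} [Fintype ι] (b : Module.Basis ι ℤ (𝓞 k)) (ε : ℝ) (hε : 0 < ε) :
    ∃ M : ℕ, ∀ (u : ι → ℤ) (N : ι → ℕ), (∀ i, M ≤ N i) →
      (Nat.card {z : ι → ℤ // (∀ i, u i ≤ z i ∧ z i < u i + N i) ∧
        ¬ NoSecAll k₀ k K₁ ℓ h (Len k K₁ ℓ h σ) (cc n ((∑ i, z i • b i : 𝓞 k) : k))} : ℝ) ≤
          ε * ∏ i, (N i : ℝ) := by
  classical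
  obtain ⟨S, hS⟩ := hLB
  obtain ⟨g, x₀, hg, ⟨σ₀, hσ₀⟩, hgB⟩ := r5_main hcl hF hfin σ
  obtain ⟨G, hG, hGS, -⟩ := e2_poly (k := k) S
  obtain ⟨B₀, hB₀, hGB⟩ := r8_goodE G hG
  let s : Finset (k ≃ₐ[k₀] k) := Finset.univ.erase 1
  obtain ⟨q₁, hq₁⟩ := conj_coprime s (Finset.notMem_erase _ _)
  obtain ⟨q₀, hq₀⟩ : ∃ q₀, q₀ = ℓ + q₁ + 2 * (Fintype.card s + 1) + 1 := ⟨_, rfl⟩
  have hsum := SUE.good_set g hg σ₀ q₀ B₀ hB₀
  let Good : Ideal (𝓞 k) → Prop := fun P => ∃ v : HeightOneSpectrum (𝓞 k), v.asIdeal = P ∧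
    q₀ ≤ Ideal.absNorm P ∧ GoodFor (periods g σ₀) g (AP v) ∧ GoodE (E := k) G (AP v)
  have hsub : {p : ℕ | p.Prime ∧ q₀ ≤ p ∧ ∃ v : HeightOneSpectrum (𝓞 k),
      Ideal.absNorm v.asIdeal = p ∧ v.asIdeal ∉ B₀ ∧ GoodFor (periods g σ₀) g (AP v)} ⊆
      {p : ℕ | p.Prime ∧ ∃ P : Ideal (𝓞 k), Ideal.absNorm P = p ∧ Good P} := by
    rintro p ⟨hp, hqp, v, hv, hvB, hvg⟩
    exact ⟨hp, v.asIdeal, hv, v, rfl, by rw [hv]; exact hqp, hvg, hGB v hvB⟩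
  have hsum' := r8_not_summable hsub hsum
  obtain ⟨M, hM⟩ := g3_density b (J := s)
    (fun P σ => P.comap (og (σ : k ≃ₐ[k₀] k) : 𝓞 k →+* 𝓞 k)) Good
    (by
      rintro P hPp ⟨v, hv, hqP, -, -⟩
      exact ⟨by omega, fun j => ⟨og_norm _ _, hq₁ P hPp (by omega) _ j.2⟩⟩)
    (fun x => ¬ NoSecAll k₀ k K₁ ℓ h (Len k K₁ ℓ h σ) (cc n (x : k)))
    hsum' (by
      rintro P hPp ⟨v, rfl, hqP, hvg, hvG⟩ x hx hx2 hxs
      rw [not_not]
      refine NoSecAll.mono hσ₀ ?_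
      have hne : (ℓ : ResidueField (AP v)) ≠ 0 :=
        SUE.natCast_ne_zero v _ ℓ hPp rfl hℓ (by omega)
      exact r6_good hℓ S hS g x₀ hgB G hGS v (periods g σ₀) hne hvg hvG _ (n 1) hn
        (val_cc' n v x hx hx2 (fun σ hσ => hxs ⟨σ, by simp [s, hσ]⟩))) ε hε
  exact ⟨M, hM⟩

end GT
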