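import Mathlib
import Pool.Agent.MP_c1dca2_ag.GE.R7
import Pool.Agent.MP_c1dca2_ag.GE.R8
import Pool.Agent.MP_c1dca2_ag.SUE.V11

set_option autoImplicit false
set_option linter.unusedVariables false

open IsLocalRing Polynomial NumberField IsDedekindDomain

namespace GT

open SEC SC2 SUE

/-! ## [GE-R9] density for all automorphisms -/

section lengths

variable {k K₁ : Type} [Field k] [Field K₁] [Algebra k K₁]

/-- The orbits are not longer than the number of branch points. -/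
theorem len_le {ℓ : ℕ} {h : K₁} (hfin : (Br k K₁ ℓ h).Finite) (σ : Lg k K₁ ≃ₐ[K₁] Lg k K₁) :
    Len k K₁ ℓ h σ ⊆ Set.Iic (Br k K₁ ℓ h).ncard := by
  classical
  rintro d ⟨P, hP, hd⟩
  have hfin' : Finite (Br k K₁ ℓ h) := hfin
  have hfT : Fintype (Br k K₁ ℓ h) := Fintype.ofFinite _
  set m := (Br k K₁ ℓ h).ncard with hm
  let f : Fin (m + 1) → Br k K₁ ℓ h := fun n =>
    ⟨pcj P ((σ ^ (n : ℕ) : Lg k K₁ ≃ₐ[K₁] Lg k K₁) : Lg k K₁ ≃+* Lg k K₁), pcj_br hP (σ ^ (n : ℕ))⟩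
  have hcard : Fintype.card (Br k K₁ ℓ h) < Fintype.card (Fin (m + 1)) := by
    rw [Fintype.card_fin, ← Nat.card_eq_fintype_card, hm]
    exact Nat.lt_succ_self _
  obtain ⟨i, j, hij, hf⟩ : ∃ i j : Fin (m + 1), i < j ∧ f i = f j := by
    obtain ⟨i, j, hne, hf⟩ := Fintype.exists_ne_map_eq_of_card_lt f hcard
    rcases lt_or_gt_of_ne hne with h | h
    · exact ⟨i, j, h, hf⟩
    · exact ⟨j, i, h, hf.symm⟩
  have hij' : (i : ℕ) < j := hij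
  have h2 : pcj P ((σ ^ (i : ℕ) : Lg k K₁ ≃ₐ[K₁] Lg k K₁) : Lg k K₁ ≃+* Lg k K₁) =
      pcj P ((σ ^ (j : ℕ) : Lg k K₁ ≃ₐ[K₁] Lg k K₁) : Lg k K₁ ≃+* Lg k K₁) :=
    congrArg Subtype.val hf
  have hfix : ∀ w, (σ ^ ((j : ℕ) - i)) w ∈ P ↔ w ∈ P := by
    intro w
    have h3 : (σ ^ (j : ℕ)) w ∈ pcj P ((σ ^ (i : ℕ) : Lg k K₁ ≃ₐ[K₁] Lg k K₁) :
          Lg k K₁ ≃+* Lg k K₁) ↔
        (σ ^ (j : ℕ)) w ∈ pcj P ((σ ^ (j : ℕ) : Lg k K₁ ≃ₐ[K₁] Lg k K₁) : Lg k K₁ ≃+* Lg k K₁) := by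
      rw [h2]
    have h4 : (σ ^ (j : ℕ)) w ∈ pcj P ((σ ^ (j : ℕ) : Lg k K₁ ≃ₐ[K₁] Lg k K₁) :
        Lg k K₁ ≃+* Lg k K₁) ↔ w ∈ P := map_mem_pcj P _ w
    have h5 : (σ ^ (j : ℕ)) w = (σ ^ (i : ℕ)) ((σ ^ ((j : ℕ) - i)) w) := by
      rw [← AlgEquiv.mul_apply, ← pow_add, Nat.add_sub_cancel' hij'.le]
    have h6 : (σ ^ (j : ℕ)) w ∈ pcj P ((σ ^ (i : ℕ) : Lg k K₁ ≃ₐ[K₁] Lg k K₁) :
        Lg k K₁ ≃+* Lg k K₁) ↔ (σ ^ ((j : ℕ) - i)) w ∈ P := by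
      rw [h5]
      exact map_mem_pcj P _ _
    rw [← h6, h3, h4]
  have h7 : d ≤ (j : ℕ) - i := hd.2 ⟨Nat.sub_pos_of_lt hij', hfix⟩
  have h8 : (j : ℕ) < m + 1 := j.2
  rw [Set.mem_Iic]
  omega

/-- There are finitely many sets of lengths. -/
theorem len_range {ℓ : ℕ} {h : K₁} (hfin : (Br k K₁ ℓ h).Finite) :
    (Set.range fun σ : Lg k K₁ ≃ₐ[K₁] Lg k K₁ => Len k K₁ ℓ h σ).Finite := by
  refine ((Set.finite_Iic (Br k K₁ ℓ h).ncard).finite_subsets).subset ?_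
  rintro _ ⟨σ, rfl⟩
  exact len_le hfin σ

end lengths

theorem r9_union {ι : Type} [Fintype ι] {T : Type} (X : Set T) (hX : X.Finite)
    (A : T → (ι → ℤ) → Prop)
    (hA : ∀ t ∈ X, ∀ ε : ℝ, 0 < ε → ∃ M : ℕ, ∀ (u : ι → ℤ) (N : ι → ℕ), (∀ i, M ≤ N i) →
      (Nat.card {z : ι → ℤ // (∀ i, u i ≤ z i ∧ z i < u i + N i) ∧ A t z} : ℝ) ≤
        ε * ∏ i, (N i : ℝ)) (ε : ℝ) (hε : 0 < ε) :
    ∃ M : ℕ, ∀ (u : ι → ℤ) (N : ι → ℕ), (∀ i, M ≤ N i) →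
      (Nat.card {z : ι → ℤ // (∀ i, u i ≤ z i ∧ z i < u i + N i) ∧ ∃ t ∈ X, A t z} : ℝ) ≤
        ε * ∏ i, (N i : ℝ) := by
  classical
  induction X, hX using Set.Finite.induction_on generalizing ε with
  | empty =>
    refine ⟨0, fun u N _ => ?_⟩
    have h1 : IsEmpty {z : ι → ℤ // (∀ i, u i ≤ z i ∧ z i < u i + N i) ∧
        ∃ t ∈ (∅ : Set T), A t z} := ⟨fun z => by
      obtain ⟨t, ht, -⟩ := z.2.2
      exact ht⟩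
    rw [Nat.card_of_isEmpty, Nat.cast_zero]
    exact mul_nonneg hε.le (Finset.prod_nonneg fun i _ => Nat.cast_nonneg _)
  | @insert t X ht hX ih =>
    obtain ⟨M₁, hM₁⟩ := ih (fun t' ht' => hA t' (Set.mem_insert_of_mem _ ht')) (ε / 2)
      (by positivity)
    obtain ⟨M₂, hM₂⟩ := hA t (Set.mem_insert _ _) (ε / 2) (by positivity)
    refine ⟨max M₁ M₂, fun u N hN => ?_⟩
    have h1 := hM₁ u N fun i => (le_max_left _ _).trans (hN i)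
    have h2 := hM₂ u N fun i => (le_max_right _ _).trans (hN i)
    have h3 := SUE.card_union_le (fun z : ι → ℤ => ∀ i, u i ≤ z i ∧ z i < u i + N i)
      (fun z => ∃ t ∈ X, A t z) (A t) (fun z => ∃ t' ∈ insert t X, A t' z)
      (SUE.box_finite u N) (by
        rintro z ⟨t', ht', hz⟩
        rcases ht' with rfl | ht'
        · exact Or.inr hz
        · exact Or.inl ⟨t', ht', hz⟩)
    refine h3.trans ?_
    have h4 : ε * ∏ i, (N i : ℝ) = ε / 2 * ∏ i, (N i : ℝ) + ε / 2 * ∏ i, (N i : ℝ) := by ring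
    rw [h4]
    exact add_le_add h1 h2

/-- `NoSecAll` with respect to the lengths of the orbits of all automorphisms. -/
theorem r9_all {k₀ k : Type} [Field k₀] [CharZero k₀] [Field k] [NumberField k] [Algebra k₀ k]
    [FiniteDimensional k₀ k] {K₁ : Type} [Field K₁] [Algebra k K₁]
    (hcl : ∀ a : K₁, IsIntegral k a → a ∈ Set.range (algebraMap k K₁))
    (hF : FF (kb k K₁) (Lg k K₁)) {ℓ : ℕ} (hℓ : ℓ.Prime) {h : K₁} (hfin : (Br k K₁ ℓ h).Finite)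
    (hLB : AA (LB k K₁ ℓ h))
    (n : (k ≃ₐ[k₀] k) → ℕ) (hn : ¬ ℓ ∣ n 1)
    {ι : Type} [Fintype ι] (b : Module.Basis ι ℤ (𝓞 k)) (ε : ℝ) (hε : 0 < ε) :
    ∃ M : ℕ, ∀ (u : ι → ℤ) (N : ι → ℕ), (∀ i, M ≤ N i) →
      (Nat.card {z : ι → ℤ // (∀ i, u i ≤ z i ∧ z i < u i + N i) ∧
        ¬ ∀ σ : Lg k K₁ ≃ₐ[K₁] Lg k K₁, NoSecAll k₀ k K₁ ℓ h (Len k K₁ ℓ h σ)
          (cc n ((∑ i, z i • b i : 𝓞 k) : k))} : ℝ) ≤ ε * ∏ i, (N i : ℝ) := by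
  classical
  obtain ⟨M, hM⟩ := r9_union (Set.range fun σ : Lg k K₁ ≃ₐ[K₁] Lg k K₁ => Len k K₁ ℓ h σ)
    (len_range hfin) (fun Per (z : ι → ℤ) => ¬ NoSecAll k₀ k K₁ ℓ h Per
      (cc n ((∑ i, z i • b i : 𝓞 k) : k))) (by
      rintro _ ⟨σ, rfl⟩ ε hε
      exact r8_one hcl hF hℓ hfin hLB σ n hn b ε hε) ε hε
  refine ⟨M, fun u N hN => le_trans ?_ (hM u N hN)⟩
  have hfin : Finite {z : ι → ℤ // (∀ i, u i ≤ z i ∧ z i < u i + N i) ∧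
      ∃ Per ∈ Set.range fun σ : Lg k K₁ ≃ₐ[K₁] Lg k K₁ => Len k K₁ ℓ h σ,
        ¬ NoSecAll k₀ k K₁ ℓ h Per (cc n ((∑ i, z i • b i : 𝓞 k) : k))} :=
    ((SUE.box_finite u N).subset fun z hz => hz.1).to_subtype
  have h7 : Nat.card {z : ι → ℤ // (∀ i, u i ≤ z i ∧ z i < u i + N i) ∧
        ¬ ∀ σ : Lg k K₁ ≃ₐ[K₁] Lg k K₁, NoSecAll k₀ k K₁ ℓ h (Len k K₁ ℓ h σ)
          (cc n ((∑ i, z i • b i : 𝓞 k) : k))} ≤
      Nat.card {z : ι → ℤ // (∀ i, u i ≤ z i ∧ z i < u i + N i) ∧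
      ∃ Per ∈ Set.range fun σ : Lg k K₁ ≃ₐ[K₁] Lg k K₁ => Len k K₁ ℓ h σ,
        ¬ NoSecAll k₀ k K₁ ℓ h Per (cc n ((∑ i, z i • b i : 𝓞 k) : k))} := by
    refine Nat.card_le_card_of_injective (fun z => ⟨z.1, z.2.1, ?_⟩) ?_
    · have h8 := z.2.2
      push Not at h8
      obtain ⟨σ, hσ⟩ := h8
      exact ⟨_, ⟨σ, rfl⟩, hσ⟩
    · intro z z' hz
      have := congrArg Subtype.val hz
      exact Subtype.ext this
  exact_mod_cast h7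

end GT
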