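import Pool.Agent.MP_c1dca2_ag.GT.S

/-!
# Twists of curves over all extensions (MP_c1dca2_ag): statement-level definitions

`K₁` is the function field of a curve `Y` over `k`, `ℓ` a prime number, `h ∈ K₁`, `c ∈ k`: the curve
`y ^ ℓ = c h` over `Y` is a twist of the curve `y ^ ℓ = h`.
-/

set_option autoImplicit false

noncomputable section

namespace GTS

section Geometric

variable (k K₁ : Type) [Field k] [Field K₁] [Algebra k K₁]

/-- The lengths of the orbits of `σ ∈ Gal (k^alg K₁ / K₁)` on the branch points. -/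
def Lengths (ℓ : ℕ) (h : K₁) (σ : Geo k K₁ ≃ₐ[K₁] Geo k K₁) : Set ℕ :=
  {m | ∃ P ∈ Branch k K₁ ℓ h, IsLeast {n : ℕ | 0 < n ∧ ∀ z, (σ ^ n) z ∈ P ↔ z ∈ P} m}

/-- The admissible degrees `d`: for some `σ ∈ Gal (k^alg K₁ / K₁)`, `d` is not a sum of terms which
are `ℓ` or the lengths of orbits of `σ` on the branch points; also `d = 1`, if there are at least two
branch points, and they are all above the same place of `K₁`. -/
def Admissible (ℓ : ℕ) (h : K₁) (d : ℕ) : Prop :=
  (∃ σ : Geo k K₁ ≃ₐ[K₁] Geo k K₁, d ∉ AddSubmonoid.closure (insert ℓ (Lengths k K₁ ℓ h σ))) ∨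
  (d = 1 ∧ 2 ≤ (Branch k K₁ ℓ h).ncard ∧
    ∀ P ∈ Branch k K₁ ℓ h, ∀ Q ∈ Branch k K₁ ℓ h, ∀ z : K₁,
      algebraMap K₁ (Geo k K₁) z ∈ P ↔ algebraMap K₁ (Geo k K₁) z ∈ Q)

/-- `K₁` is the function field of a geometrically irreducible curve over `k`: it is a function field
of one variable, and `k` is algebraically closed in it. -/
def IsRegularFunctionField : Prop :=
  IsFunctionField k K₁ ∧ ∀ a : K₁, IsAlgebraic k a → a ∈ Set.range (algebraMap k K₁)

end Geometric

/-- `NoSection` over `k'` for all finite extensions `k'` of `k₀` and all fields `K₀` over `k'` such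
that the compositum `K` of `K₀` and `k` contains `K₁` and a root `y` of `y ^ ℓ = c h`, and the degree
of the compositum `k' k ⊆ K` over `k` is admissible: all curves over `k'` which have over `k' k` a
nonconstant map to the curve `y ^ ℓ = c h`, in particular all its forms over `k'`. -/
def NoSectionExtensions (k₀ k K₁ : Type) [Field k₀] [Field k] [Algebra k₀ k] [Field K₁]
    [Algebra k K₁] (ℓ : ℕ) (h : K₁) (c : k) : Prop :=
  ∀ (k' K₀ K : Type) [Field k'] [Field K₀] [Field K] [Algebra k₀ k'] [FiniteDimensional k₀ k']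
    [Algebra k' K₀] [Algebra k₀ K] [Algebra k K] [Algebra k' K] [Algebra K₀ K] [Algebra K₁ K]
    [IsScalarTower k₀ k K] [IsScalarTower k₀ k' K] [IsScalarTower k' K₀ K] [IsScalarTower k K₁ K]
    (y : K),
    IntermediateField.adjoin K₀ (Set.range (algebraMap k K)) = ⊤ →
    Admissible k K₁ ℓ h
      (Module.finrank k (IntermediateField.adjoin k (Set.range (algebraMap k' K)))) →
    y ^ ℓ = algebraMap k K c * algebraMap K₁ K h → NoSection k' K₀

end GTS
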