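import Mathlib
import Pool.Agent.MP_c1dca2_ag.GE.SD
import Pool.Agent.MP_c1dca2_ag.GE.R9
import Pool.Agent.MP_c1dca2_ag.GT.E5
import Pool.Agent.MP_c1dca2_ag.GT.E2e

set_option autoImplicit false
set_option linter.unusedVariables false

open IsLocalRing Polynomial NumberField

namespace GT

open SEC SC2

/-! ## [GE-R10] comparison with the statement-level definitions -/

section

variable {k K₁ : Type} [Field k] [Field K₁] [Algebra k K₁]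

theorem g7_pl (P : ValuationSubring (Lg k K₁)) : IsPl (kb k K₁) P ↔
    (∀ a : k, algebraMap K₁ (Lg k K₁) (algebraMap k K₁ a) ∈ P) ∧ P ≠ ⊤ := by
  constructor
  · rintro ⟨h1, h2⟩
    refine ⟨fun a => ?_, h2⟩
    have h3 := h1 (algebraMap k (kb k K₁) a)
    rwa [← algkL_eq, algkL_eq'] at h3
  · rintro ⟨h1, h2⟩
    refine ⟨fun c => ?_, h2⟩
    have hc : IsIntegral k c := Algebra.IsIntegral.isIntegral (R := k) c
    obtain ⟨p, hp, hpc⟩ := hc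
    let φ : k →+* P := ((algebraMap K₁ (Lg k K₁)).comp (algebraMap k K₁)).codRestrict P.toSubring h1
    have h3 : IsIntegral P (algebraMap (kb k K₁) (Lg k K₁) c) := by
      refine ⟨p.map φ, hp.map φ, ?_⟩
      rw [eval₂_map]
      have h4 : (algebraMap P (Lg k K₁)).comp φ =
          (algebraMap (kb k K₁) (Lg k K₁)).comp (algebraMap k (kb k K₁)) := by
        refine RingHom.ext fun a => ?_
        change algebraMap K₁ (Lg k K₁) (algebraMap k K₁ a) =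
          algebraMap (kb k K₁) (Lg k K₁) (algebraMap k (kb k K₁) a)
        rw [← algkL_eq', algkL_eq]
      rw [h4, ← Polynomial.hom_eval₂, hpc, map_zero]
    obtain ⟨b, hb⟩ := IsIntegrallyClosed.isIntegral_iff.1 h3
    rw [← hb]
    exact b.2

theorem g7_branch (ℓ : ℕ) (h : K₁) : GTS.Branch k K₁ ℓ h = Br k K₁ ℓ h := by
  ext P
  constructor
  · rintro ⟨h1, h2⟩
    exact ⟨(g7_pl P).2 h1, h2⟩
  · rintro ⟨h1, h2⟩
    exact ⟨(g7_pl P).1 h1, h2⟩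

theorem g7_unr {ℓ : ℕ} (hu : GTS.UnrCover k K₁ ℓ) : UnrCover k K₁ ℓ := by
  obtain ⟨t, h1, h2, h3⟩ := hu
  exact ⟨t, h1, fun P hP => h2 P ((g7_pl P).1 hP), h3⟩

theorem g7_param {k₀ k : Type} [Field k₀] [Field k] [Algebra k₀ k] [FiniteDimensional k₀ k]
    (n : (k ≃ₐ[k₀] k) → ℕ) (a : k) : GTS.param n a = cc n a := by
  unfold GTS.param cc
  exact finprod_eq_prod_of_fintype _

theorem g7_lengths (ℓ : ℕ) (h : K₁) (σ : Lg k K₁ ≃ₐ[K₁] Lg k K₁) :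
    GTS.Lengths k K₁ ℓ h σ = Len k K₁ ℓ h σ := by
  unfold GTS.Lengths
  rw [g7_branch]
  rfl

theorem one_notMem_closure {S : Set ℕ} (hS : ∀ s ∈ S, 2 ≤ s) : 1 ∉ AddSubmonoid.closure S := by
  have h1 : ∀ m ∈ AddSubmonoid.closure S, m = 0 ∨ 2 ≤ m := by
    intro m hm
    induction hm using AddSubmonoid.closure_induction with
    | mem x hx => exact Or.inr (hS x hx)
    | zero => exact Or.inl rfl
    | add x y _ _ hx hy => omega
  intro h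
  have := h1 1 h
  omega

theorem g7_adm [CharZero k] {ℓ : ℕ} (hℓ : ℓ.Prime) {h : K₁} (hfin : (Br k K₁ ℓ h).Finite) {d : ℕ}
    (hd : GTS.Admissible k K₁ ℓ h d) : ∃ σ : Lg k K₁ ≃ₐ[K₁] Lg k K₁,
      d ∉ AddSubmonoid.closure (insert ℓ (Len k K₁ ℓ h σ)) := by
  rcases hd with ⟨σ, hσ⟩ | ⟨rfl, h1, h2⟩
  · refine ⟨σ, ?_⟩
    rw [← g7_lengths]
    exact hσ
  · rw [g7_branch] at h1 h2
    obtain ⟨σ, hσ⟩ := e5_jordan hfin h1 h2
    refine ⟨σ, one_notMem_closure ?_⟩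
    intro s hs
    rcases hs with rfl | ⟨P, hP, h3⟩
    · exact hℓ.two_le
    · by_contra hcon
      have h4 : s = 1 := by
        have := h3.1.1
        omega
      have h5 := h3.1.2
      rw [h4, pow_one] at h5
      exact hσ P hP h5

theorem g7_ext [CharZero k] {k₀ : Type} [Field k₀] [Algebra k₀ k] {ℓ : ℕ} (hℓ : ℓ.Prime) {h : K₁}
    (hfin : (Br k K₁ ℓ h).Finite) {c : k}
    (hn : ∀ σ : Lg k K₁ ≃ₐ[K₁] Lg k K₁, NoSecAll k₀ k K₁ ℓ h (Len k K₁ ℓ h σ) c) :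
    GTS.NoSectionExtensions k₀ k K₁ ℓ h c := by
  intro k' K₀ K _ _ _ _ _ _ _ _ _ _ _ _ _ _ _ y hK hd hy
  obtain ⟨σ, hσ⟩ := g7_adm hℓ hfin hd
  exact hn σ k' K₀ K (fun z => by rw [hK]; exact IntermediateField.mem_top) hσ y hy

end

/-- The global theorem over all extensions. -/
theorem main_ext {k₀ k : Type} [Field k₀] [NumberField k₀] [Field k] [NumberField k]
    [Algebra k₀ k] {K₁ : Type} [Field K₁] [Algebra k K₁] (hK : GTS.IsRegularFunctionField k K₁)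
    {ℓ : ℕ} (hℓ : ℓ.Prime) {h : K₁} (hh : h ≠ 0)
    (h2 : ¬ (ℓ = 2 ∧ (GTS.Branch k K₁ ℓ h).ncard = 2) ∨ GTS.UnrCover k K₁ ℓ)
    (n : (k ≃ₐ[k₀] k) → ℕ) (hn : ¬ ℓ ∣ n 1)
    {ι : Type} [Fintype ι] (b : Module.Basis ι ℤ (𝓞 k)) (ε : ℝ) (hε : 0 < ε) :
    ∃ M : ℕ, ∀ (u : ι → ℤ) (N : ι → ℕ), (∀ i, M ≤ N i) →
      (Nat.card {z : ι → ℤ // (∀ i, u i ≤ z i ∧ z i < u i + N i) ∧
        ¬ GTS.NoSectionExtensions k₀ k K₁ ℓ h (GTS.param n ((∑ i, z i • b i : 𝓞 k) : k))} : ℝ) ≤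
          ε * ∏ i, (N i : ℝ) := by
  classical
  have hℓ' : Fact ℓ.Prime := ⟨hℓ⟩
  have hfd : FiniteDimensional k₀ k := FiniteDimensional.right ℚ k₀ k
  obtain ⟨⟨x, hx, hxf⟩, hcl⟩ := hK
  have hbr := br_finite hx hxf ℓ hh
  have h2' : ¬ (ℓ = 2 ∧ (Br k K₁ ℓ h).ncard = 2) ∨ UnrCover k K₁ ℓ := by
    rw [← g7_branch]
    exact h2.imp id g7_unr
  obtain ⟨M, hM⟩ := r9_all (k₀ := k₀) (fun a ha => hcl a ha.isAlgebraic) (lg_ff ⟨x, hx, hxf⟩) hℓ hbr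
    (lb_all ⟨x, hx, hxf⟩ hh h2') n hn b ε hε
  refine ⟨M, fun u N hN => le_trans ?_ (hM u N hN)⟩
  have hfin : Finite {z : ι → ℤ // (∀ i, u i ≤ z i ∧ z i < u i + N i) ∧
      ¬ ∀ σ : Lg k K₁ ≃ₐ[K₁] Lg k K₁, NoSecAll k₀ k K₁ ℓ h (Len k K₁ ℓ h σ)
        (cc n ((∑ i, z i • b i : 𝓞 k) : k))} :=
    ((SUE.box_finite u N).subset fun z hz => hz.1).to_subtype
  have h7 : Nat.card {z : ι → ℤ // (∀ i, u i ≤ z i ∧ z i < u i + N i) ∧
        ¬ GTS.NoSectionExtensions k₀ k K₁ ℓ h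
          (GTS.param n ((∑ i, z i • b i : 𝓞 k) : k))} ≤
      Nat.card {z : ι → ℤ // (∀ i, u i ≤ z i ∧ z i < u i + N i) ∧
      ¬ ∀ σ : Lg k K₁ ≃ₐ[K₁] Lg k K₁, NoSecAll k₀ k K₁ ℓ h (Len k K₁ ℓ h σ)
        (cc n ((∑ i, z i • b i : 𝓞 k) : k))} := by
    refine Nat.card_le_card_of_injective
      (fun z => ⟨z.1, z.2.1, fun h8 => z.2.2 (by rw [g7_param]; exact g7_ext hℓ hbr h8)⟩) ?_
    intro z z' hz
    have := congrArg Subtype.val hz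
    exact Subtype.ext this
  exact_mod_cast h7

end GT
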